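import Pool.Agent.H88.LFDefs

/-!
Linear forms with full image and small image (MP_0c4eaf_nt): definitions and the tower construction.
-/

namespace Pool.Agent.H88.LF

open scoped BigOperators

universe u

section Power

variable {R : Type u} [Ring R] {h k : ℕ}

/-- Powers: one witness with `F(A) = W`, `G(A) ≠ W` gives property (S). -/
theorem propertyS_of_witness (hh : 0 < h) (F : Fin h → R) (G : Fin k → R)
    (W : Type u) [AddCommGroup W] [Module R W] [Finite W] (A : Set W)
    (hF : formImage F A = Set.univ) (w : W) (hw : w ∉ formImage G A) : PropertyS F G := by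
  classical
  -- `A` is nonempty
  have hA : A.Nonempty := by
    have : (0 : W) ∈ formImage F A := by rw [hF]; trivial
    obtain ⟨a, ha, -⟩ := this
    exact ⟨a ⟨0, hh⟩, ha _⟩
  obtain ⟨a₀, ha₀⟩ := hA
  have hne : (∑ i, G i • a₀) ≠ w := by
    intro h1
    exact hw ⟨fun _ => a₀, fun _ => ha₀, h1⟩
  have hcard : 2 ≤ Nat.card W := by
    have := Fintype.ofFinite W
    rw [Nat.card_eq_fintype_card]
    have : Nontrivial W := ⟨⟨_, _, hne⟩⟩
    exact Fintype.one_lt_card
  set N : ℕ := Nat.card W with hN
  intro ε hε c hc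
  -- choose the exponent
  have hNpos : (0 : ℝ) < N := by exact_mod_cast (by omega : 0 < N)
  have hq : ((N : ℝ) - 1) / N < 1 := by
    rw [div_lt_one hNpos]; linarith
  have hq0 : 0 ≤ ((N : ℝ) - 1) / N := by
    apply div_nonneg _ hNpos.le
    have : (1 : ℝ) ≤ N := by exact_mod_cast (by omega : 1 ≤ N)
    linarith
  obtain ⟨n₁, hn₁⟩ := exists_pow_lt_of_lt_one hε hq
  obtain ⟨n₂, hn₂⟩ := pow_unbounded_of_one_lt c (by norm_num : (1 : ℝ) < 2)
  set n := max n₁ n₂ with hn
  refine ⟨Fin n → W, inferInstance, inferInstance, inferInstance, {x | ∀ i, x i ∈ A}, ?_, ?_, ?_⟩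
  · have h1 : (Nat.card (Fin n → W) : ℝ) = (N : ℝ) ^ n := by
      rw [Nat.card_fun]
      simp [hN]
    rw [h1]
    calc c < 2 ^ n₂ := hn₂
      _ ≤ 2 ^ n := pow_le_pow_right₀ (by norm_num) (le_max_right _ _)
      _ ≤ (N : ℝ) ^ n := by
        apply pow_le_pow_left₀ (by norm_num)
        exact_mod_cast hcard
  · ext x
    simp only [Set.mem_univ, iff_true]
    have hx : ∀ i : Fin n, ∃ a : Fin h → W, (∀ j, a j ∈ A) ∧ ∑ j, F j • a j = x i := by
      intro i
      have : x i ∈ formImage F A := by rw [hF]; trivial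
      exact this
    choose a ha hax using hx
    refine ⟨fun j i => a i j, fun j i => ha i j, ?_⟩
    ext i
    simp only [Finset.sum_apply, Pi.smul_apply]
    exact hax i
  · -- the image of the power is contained in the power of the complement of `w`
    have hsub : formImage G {x : Fin n → W | ∀ i, x i ∈ A} ⊆
        (Set.univ.pi fun _ : Fin n => ({w}ᶜ : Set W)) := by
      rintro x ⟨a, ha, rfl⟩ i -
      simp only [Set.mem_compl_iff, Set.mem_singleton_iff, Finset.sum_apply, Pi.smul_apply]
      intro h1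
      exact hw ⟨fun j => a j i, fun j => ha j i, h1⟩
    have hcard2 : (Set.univ.pi fun _ : Fin n => ({w}ᶜ : Set W)).ncard = (N - 1) ^ n := by
      have := Fintype.ofFinite W
      have e : (Set.univ.pi fun _ : Fin n => ({w}ᶜ : Set W)) =
          ((Fintype.piFinset fun _ : Fin n => (Finset.univ.erase w : Finset W) : Finset (Fin n → W)) :
            Set (Fin n → W)) := by
        ext x; simp
      rw [e, Set.ncard_coe_finset, Fintype.card_piFinset]
      simp [hN, Nat.card_eq_fintype_card]
    have h2 : (formImage G {x : Fin n → W | ∀ i, x i ∈ A}).ncard ≤ (N - 1) ^ n := by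
      rw [← hcard2]
      exact Set.ncard_le_ncard hsub (Set.toFinite _)
    have h1 : (Nat.card (Fin n → W) : ℝ) = (N : ℝ) ^ n := by
      rw [Nat.card_fun]
      simp [hN]
    rw [h1]
    have h3 : ((formImage G {x : Fin n → W | ∀ i, x i ∈ A}).ncard : ℝ) ≤ ((N : ℝ) - 1) ^ n := by
      have : ((formImage G {x : Fin n → W | ∀ i, x i ∈ A}).ncard : ℝ) ≤ (((N - 1) ^ n : ℕ) : ℝ) := by
        exact_mod_cast h2
      refine this.trans (le_of_eq ?_)
      push_cast
      rw [Nat.cast_sub (by omega)]
      simp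
    have h4 : (((N : ℝ) - 1) / N) ^ n < ε := by
      refine lt_of_le_of_lt ?_ hn₁
      exact pow_le_pow_of_le_one hq0 hq.le (le_max_left _ _)
    have h5 : ((N : ℝ) - 1) ^ n = (((N : ℝ) - 1) / N) ^ n * (N : ℝ) ^ n := by
      rw [← mul_pow, div_mul_cancel₀ _ hNpos.ne']
    calc ((formImage G {x : Fin n → W | ∀ i, x i ∈ A}).ncard : ℝ) ≤ ((N : ℝ) - 1) ^ n := h3
      _ = (((N : ℝ) - 1) / N) ^ n * (N : ℝ) ^ n := h5
      _ < ε * (N : ℝ) ^ n := by
        apply mul_lt_mul_of_pos_right h4
        positivity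

end Power

section Tower

/-- The index sets of the tower: level `n + 1` adds all colourings of the restrictions to level `n`. -/
def TowerIdx (M C : Type u) : ℕ → Type u
  | 0 => PEmpty
  | n + 1 => TowerIdx M C n ⊕ ((TowerIdx M C n → M) → C)

instance TowerIdx.finite (M C : Type u) [Finite M] [Finite C] : ∀ n, Finite (TowerIdx M C n)
  | 0 => inferInstanceAs (Finite PEmpty)
  | n + 1 => by
    have := TowerIdx.finite M C n
    exact inferInstanceAs (Finite (TowerIdx M C n ⊕ ((TowerIdx M C n → M) → C)))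

variable {R : Type u} [Ring R] {h k : ℕ}

/-- The tower sections. -/
def towerSec {M C : Type u} (sec : C → M → Fin h → M) :
    (n : ℕ) → (TowerIdx M C n → M) → Fin h → (TowerIdx M C n → M)
  | 0, _, _ => fun y => y.elim
  | n + 1, w, i => fun y => match y with
    | Sum.inl y' => towerSec sec n (fun z => w (Sum.inl z)) i y'
    | Sum.inr f => sec (f (fun z => w (Sum.inl z))) (w (Sum.inr f)) i

theorem towerSec_sum {M C : Type u} [AddCommGroup M] [Module R M] (sec : C → M → Fin h → M)
    (F : Fin h → R) (hsec : ∀ c m, ∑ i, F i • sec c m i = m) :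
    ∀ (n : ℕ) (w : TowerIdx M C n → M), ∑ i, F i • towerSec sec n w i = w
  | 0, w => by ext y; exact y.elim
  | n + 1, w => by
    ext y
    rw [Finset.sum_apply]
    rcases y with y | f
    · have := congrFun (towerSec_sum sec F hsec n (fun z => w (Sum.inl z))) y
      rw [Finset.sum_apply] at this
      exact this
    · exact hsec _ _

/-- Key lemma of the tower. -/
theorem tower_key {M C : Type u} [AddCommGroup M] [Module R M] (sec : C → M → Fin h → M)
    (G : Fin k → R) (w₀ : M)
    (hC : ∀ (τ : Fin k → Fin h) (κ : Fin k → Fin k), ∃ col : Fin k → C,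
      ∀ u : Fin k → M, ∑ j, G j • sec (col (κ j)) (u (κ j)) (τ j) ≠ w₀) (τ : Fin k → Fin h)
    (hk : 0 < k) :
    ∀ (n : ℕ) (w : Fin k → TowerIdx M C n → M),
      (∃ y, ∑ j, G j • towerSec sec n (w j) (τ j) y ≠ w₀) ∨ n + 1 ≤ (Set.range w).ncard
  | 0, w => by
    right
    have : (Set.range w).Nonempty := ⟨w ⟨0, hk⟩, ⟨0, hk⟩, rfl⟩
    have h1 := (Set.ncard_pos (Set.finite_range w)).2 this
    omega
  | n + 1, w => by
    classical
    rcases tower_key sec G w₀ hC τ hk n (fun j z => w j (Sum.inl z)) with ⟨y, hy⟩ | hcard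
    · left
      exact ⟨Sum.inl y, hy⟩
    by_cases hlt : n + 1 + 1 ≤ (Set.range w).ncard
    · right; exact hlt
    left
    push Not at hlt
    set w' : Fin k → TowerIdx M C n → M := fun j z => w j (Sum.inl z) with hw'
    -- restriction is injective on the range of `w`
    let res : (TowerIdx M C (n + 1) → M) → (TowerIdx M C n → M) := fun v z => v (Sum.inl z)
    have himg : res '' Set.range w = Set.range w' := by
      rw [← Set.range_comp]; rfl
    have hinj : Set.InjOn res (Set.range w) := by
      apply (Set.ncard_image_iff (Set.finite_range w)).1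
      rw [himg]
      have h1 : (Set.range w').ncard ≤ (Set.range w).ncard := by
        rw [← himg]; exact Set.ncard_image_le (Set.finite_range w)
      omega
    -- a choice of representatives
    let rep : (TowerIdx M C n → M) → Fin k := fun v =>
      if hv : ∃ j, w' j = v then hv.choose else ⟨0, hk⟩
    have hrep : ∀ j, w' (rep (w' j)) = w' j := by
      intro j
      have hv : ∃ i, w' i = w' j := ⟨j, rfl⟩
      simp only [rep, dif_pos hv]
      exact hv.choose_spec
    let κ : Fin k → Fin k := fun j => rep (w' j)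
    obtain ⟨col, hcol⟩ := hC τ κ
    let f : (TowerIdx M C n → M) → C := fun v => col (rep v)
    refine ⟨Sum.inr f, ?_⟩
    have hw : ∀ j, w (κ j) = w j := by
      intro j
      apply hinj ⟨κ j, rfl⟩ ⟨j, rfl⟩
      exact hrep j
    have := hcol (fun c => w c (Sum.inr f))
    have e : ∀ j, G j • towerSec sec (n + 1) (w j) (τ j) (Sum.inr f) =
        G j • sec (col (κ j)) (w (κ j) (Sum.inr f)) (τ j) := by
      intro j
      rw [hw j]
      rfl
    rw [Finset.sum_congr rfl fun j _ => e j]
    exact this

end Tower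

/-- If every pattern is avoidable then property (S) holds. -/
theorem propertyS_of_avoidable {R : Type u} [Ring R] {h k : ℕ} (hh : 0 < h) (hk : 0 < k)
    (F : Fin h → R) (G : Fin k → R) (H : ∀ τ κ, Avoidable F G τ κ) : PropertyS F G := by
  classical
  choose M hM1 hM2 hM3 φ w hφ hw using H
  let I := (Fin k → Fin h) × (Fin k → Fin k)
  let MM : Type u := ∀ p : I, M p.1 p.2
  let C : Type u := ULift.{u} (I × Fin k)
  let sec : C → MM → Fin h → MM := fun c m i p =>
    if hp : p = c.down.1 then φ p.1 p.2 c.down.2 (m p) i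
    else φ p.1 p.2 ⟨0, hk⟩ (m p) i
  have hsec : ∀ (c : C) (m : MM), ∑ i, F i • sec c m i = m := by
    intro c m
    ext p
    rw [Finset.sum_apply]
    have e : ∀ x, (F x • sec c m x) p = F x • (sec c m x p) := fun x => rfl
    rw [Finset.sum_congr rfl fun x _ => e x]
    by_cases hp : p = c.down.1
    · simp only [sec, dif_pos hp]
      exact hφ _ _ _ _
    · simp only [sec, dif_neg hp]
      exact hφ _ _ _ _
  let w₀ : MM := fun p => w p.1 p.2
  have hC : ∀ (τ : Fin k → Fin h) (κ : Fin k → Fin k), ∃ col : Fin k → C,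
      ∀ u : Fin k → MM, ∑ j, G j • sec (col (κ j)) (u (κ j)) (τ j) ≠ w₀ := by
    intro τ κ
    refine ⟨fun c => ⟨((τ, κ), c)⟩, fun u hu => ?_⟩
    have := congrFun hu (τ, κ)
    rw [Finset.sum_apply] at this
    refine hw τ κ (fun c => u c (τ, κ)) ?_
    refine Eq.trans (Finset.sum_congr rfl fun j _ => ?_) this
    have e : (G j • sec ((fun c => ⟨((τ, κ), c)⟩ : Fin k → C) (κ j)) (u (κ j)) (τ j)) (τ, κ) =
        G j • (sec ((fun c => ⟨((τ, κ), c)⟩ : Fin k → C) (κ j)) (u (κ j)) (τ j) (τ, κ)) := rfl
    rw [e]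
    simp only [sec, dif_pos]
  have hfin : Finite MM := Pi.finite
  have hfinC : Finite C := inferInstance
  have hfinT : Finite (TowerIdx MM C k) := inferInstance
  have hfinW : Finite (TowerIdx MM C k → MM) := Pi.finite
  refine propertyS_of_witness hh F G (TowerIdx MM C k → MM)
    {x | ∃ w i, towerSec sec k w i = x} ?_ (fun _ => w₀) ?_
  · ext x
    simp only [Set.mem_univ, iff_true]
    exact ⟨fun i => towerSec sec k x i, fun i => ⟨x, i, rfl⟩, towerSec_sum sec F hsec k x⟩
  · rintro ⟨a, ha, hsum⟩
    choose v τ hv using ha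
    rcases tower_key sec G w₀ hC τ hk k v with ⟨y, hy⟩ | hcard
    · apply hy
      have := congrFun hsum y
      rw [Finset.sum_apply] at this
      rw [← this]
      apply Finset.sum_congr rfl
      intro j _
      rw [hv j]; rfl
    · have h1 : (Set.range v).ncard ≤ k := by
        rw [← Set.image_univ]
        refine (Set.ncard_image_le (Set.toFinite _)).trans ?_
        simp
      omega

/-- Conversely property (S) makes every pattern avoidable. -/
theorem avoidable_of_propertyS {R : Type u} [Ring R] {h k : ℕ}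
    (F : Fin h → R) (G : Fin k → R) (H : PropertyS F G) (τ : Fin k → Fin h)
    (κ : Fin k → Fin k) : Avoidable F G τ κ := by
  classical
  obtain ⟨W, i1, i2, i3, A, hc, hF, hG⟩ := H 1 one_pos 1 one_pos
  have hne : formImage G A ≠ Set.univ := by
    intro h1
    rw [h1, Set.ncard_univ] at hG
    linarith
  obtain ⟨w, hw⟩ := (Set.ne_univ_iff_exists_notMem _).1 hne
  have hsec : ∀ m : W, ∃ a : Fin h → W, (∀ i, a i ∈ A) ∧ ∑ i, F i • a i = m := by
    intro m
    have : m ∈ formImage F A := by rw [hF]; trivial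
    exact this
  choose φ hφA hφ using hsec
  refine ⟨W, i1, i2, i3, fun _ m => φ m, w, fun _ m => hφ m, fun u hu => hw ?_⟩
  exact ⟨fun j => φ (u (κ j)) (τ j), fun j => hφA _ _, hu⟩

end Pool.Agent.H88.LF
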