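import Mathlib

/-!
Definitions for MP_0c4eaf_nt (linear forms with full image and small image in finite modules).

A linear form `F(x_1, ..., x_h) = ∑ r_i x_i` over `R` is given by its coefficient vector
`r : Fin h → R`; modules are left modules.
-/

namespace Pool.Agent.H88.LF

open scoped BigOperators

universe u

/-- The image `F(A)` of a set `A` in a module `W` under the linear form with coefficient vector `r`:
the set of all sums `∑ i, r i • a i` with all `a i` in `A` (repetitions allowed). -/
def formImage {R W : Type*} [Ring R] [AddCommGroup W] [Module R W] {h : ℕ}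
    (r : Fin h → R) (A : Set W) : Set W :=
  {w | ∃ a : Fin h → W, (∀ i, a i ∈ A) ∧ ∑ i, r i • a i = w}

/-- Property (S) of a pair `(F, G)` of linear forms over `R`: for all `ε > 0` and `c > 0` there are
a finite `R`-module `W` with more than `c` elements and a subset `A` of `W` with `F(A) = W` and
`|G(A)| < ε |W|`. -/
def PropertyS {R : Type u} [Ring R] {h k : ℕ} (F : Fin h → R) (G : Fin k → R) : Prop :=
  ∀ ε : ℝ, 0 < ε → ∀ c : ℝ, 0 < c →
    ∃ (W : Type u) (_ : AddCommGroup W) (_ : Module R W) (_ : Finite W) (A : Set W),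
      c < (Nat.card W : ℝ) ∧ formImage F A = Set.univ ∧
        ((formImage G A).ncard : ℝ) < ε * (Nat.card W : ℝ)

/-- The specialisation `G_c` of `G` given by `τ` and `κ`: substitute for the `j`-th variable of `G`
the `τ j`-th variable of the `κ j`-th copy of the variables of `F`, and collect the variables of
the `c`-th copy.  Thus `G` becomes `∑ c, G_c(x^(c))` with disjoint sets of variables
`x^(c) = (x^(c)_i)_{i < h}`, and `G_c` has `i`-th coefficient `∑_{κ j = c, τ j = i} G j`. -/
def specialise {R : Type*} [Ring R] {h k : ℕ} (G : Fin k → R) (τ : Fin k → Fin h)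
    (κ : Fin k → Fin k) (c : Fin k) : Fin h → R :=
  fun i => ∑ j with κ j = c ∧ τ j = i, G j

/-- The right ideal `I` separates `F` from the forms `V c`: a left multiple `x F` all of whose
coefficients lie in `I`, or which is congruent modulo `I` (coefficientwise) to one of the `V c`,
has `x ∈ I`. -/
def Separates {R : Type*} [Ring R] {h k : ℕ} (I : Submodule Rᵐᵒᵖ R) (F : Fin h → R)
    (V : Fin k → Fin h → R) : Prop :=
  (∀ x : R, (∀ i, x * F i ∈ I) → x ∈ I) ∧
    ∀ c, ∀ x : R, (∀ i, V c i - x * F i ∈ I) → x ∈ I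

/-- The least `n ≥ 1` such that `n V` has all its coefficients in `I`. -/
noncomputable def orderMod {R : Type*} [Ring R] {h : ℕ} (I : Submodule Rᵐᵒᵖ R)
    (V : Fin h → R) : ℕ :=
  sInf {n : ℕ | 0 < n ∧ ∀ i, n • V i ∈ I}

/-- The least `n ≥ 1` such that `n V` is congruent modulo `I` to a left multiple `x F` of `F`. -/
noncomputable def orderModForm {R : Type*} [Ring R] {h : ℕ} (I : Submodule Rᵐᵒᵖ R)
    (F V : Fin h → R) : ℕ :=
  sInf {n : ℕ | 0 < n ∧ ∃ x : R, ∀ i, n • V i - x * F i ∈ I}

/-- The least `n ≥ 1` with `n • 1 ∈ I`. -/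
noncomputable def exponentMod {R : Type*} [Ring R] (I : Submodule Rᵐᵒᵖ R) : ℕ :=
  sInf {n : ℕ | 0 < n ∧ (n : R) ∈ I}

/-- The pattern `(τ, κ)` of a pair `(F, G)` is avoidable: there are a finite module `M`, sections
`φ c : M → M^h` of `F` (that is, `F(φ c m) = m` for every `m`), one for every `c`, and a `w ∈ M`
such that no choice of `u c ∈ M` makes `∑ j, G j • (φ (κ j) (u (κ j)))_{τ j}` equal to `w`. -/
def Avoidable {R : Type u} [Ring R] {h k : ℕ} (F : Fin h → R) (G : Fin k → R)
    (τ : Fin k → Fin h) (κ : Fin k → Fin k) : Prop :=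
  ∃ (M : Type u) (_ : AddCommGroup M) (_ : Module R M) (_ : Finite M)
    (φ : Fin k → M → Fin h → M) (w : M),
    (∀ c m, ∑ i, F i • φ c m i = m) ∧
      ∀ u : Fin k → M, ∑ j, G j • φ (κ j) (u (κ j)) (τ j) ≠ w

end Pool.Agent.H88.LF
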