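import Mathlib

/-!
Hat guessing on a complete bipartite graph, and simultaneous avoidance of a target by independent
players.
-/

set_option autoImplicit false

namespace Pool.Agent.H88.LF

open scoped BigOperators

universe u v

/-- Hat guessing on a complete bipartite graph.  On one side there is one position for every
function `a : (X → Y) → X`, with hats `p a ∈ X`, on the other side one position for every `b : X`,
with hats `s b ∈ Y`.  The position `a` guesses `a s`.  Then the positions `b` can guess (seeing
`p`) so that some position guesses correctly. -/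
theorem hat_guess (X : Type u) (Y : Type v) [Nonempty X] [Nonempty Y] :
    ∃ g : (((X → Y) → X) → X) → X → Y, ∀ (p : ((X → Y) → X) → X) (s : X → Y),
      (∃ a : (X → Y) → X, a s = p a) ∨ ∃ b : X, g p b = s b := by
  classical
  have key : ∀ p : ((X → Y) → X) → X, ∃ f : X → (X → Y), ∀ s : X → Y,
      (∀ a : (X → Y) → X, a s ≠ p a) → ∃ b, f b = s := by
    intro p
    let W : Set (X → Y) := {s | ∀ a : (X → Y) → X, a s ≠ p a}
    rcases Function.Embedding.total X W with ⟨⟨j, hj⟩⟩ | ⟨⟨e, he⟩⟩
    · exfalso
      have hinj : Function.Injective (fun x => (j x : X → Y)) :=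
        Subtype.val_injective.comp hj
      let a : (X → Y) → X := Function.invFun (fun x => (j x : X → Y))
      have ha : a (j (p a) : X → Y) = p a :=
        Function.leftInverse_invFun hinj (p a)
      exact (j (p a)).2 a ha
    · by_cases hW : Nonempty W
      · refine ⟨fun x => ((Function.invFun e x : W) : X → Y), fun s hs => ⟨e ⟨s, hs⟩, ?_⟩⟩
        have := Function.leftInverse_invFun he ⟨s, hs⟩
        exact congrArg Subtype.val this
      · exact ⟨fun _ => Classical.arbitrary _, fun s hs => (hW ⟨⟨s, hs⟩⟩).elim⟩
  choose f hf using key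
  refine ⟨fun p b => f p b b, fun p s => ?_⟩
  by_cases h : ∃ a : (X → Y) → X, a s = p a
  · exact Or.inl h
  · right
    push Not at h
    obtain ⟨b, hb⟩ := hf p s h
    exact ⟨b, congrFun hb b⟩

variable {H : Type*} [AddCommGroup H]

/-- The claim to be proved by induction on the number of players: with sufficiently many copies the
players `c`, each knowing only his own inputs `x c`, can choose values from the option sets
`P c (x c i)` so that in some copy the sum of the values is nonzero. -/
def Avoids (H : Type*) [AddCommGroup H] (k : ℕ) : Prop :=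
  ∀ (U : Type u) [Finite U] (P : Fin k → U → Set H), (∀ c x, (P c x).Nontrivial) →
    ∃ (S : Type u) (_ : Finite S) (σ : Fin k → (S → U) → S → H),
      (∀ c x i, σ c x i ∈ P c (x i)) ∧ ∀ x : Fin k → S → U, ∃ i, ∑ c, σ c (x c) i ≠ 0

/-- One block: the player `a` is silent, the player `b` guesses the input `ζ` of `a`. -/
theorem block {k : ℕ} (IH : Avoids.{u} H (k + 1)) (U : Type u) [Finite U]
    (P : Fin (k + 2) → U → Set H) (hP : ∀ c x, (P c x).Nontrivial) (a b : Fin (k + 2))
    (hab : b ≠ a) :
    ∃ (S : Type u) (_ : Finite S) (ρ : Fin (k + 2) → (S → U) → (S → U) → S → H),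
      (∀ c x ζ i, ρ c x ζ i ∈ P c (x i)) ∧ (∀ c, c ≠ b → ∀ x ζ ζ', ρ c x ζ = ρ c x ζ') ∧
        ∀ x : Fin (k + 2) → S → U, ∃ i, ∑ c, ρ c (x c) (x a) i ≠ 0 := by
  classical
  have hne : ∀ x, ∃ t, t ∈ P a x := fun x => (hP a x).nonempty
  choose τ hτ using hne
  obtain ⟨b', rfl⟩ := Fin.exists_succAbove_eq hab
  let P' : Fin (k + 1) → U × U → Set H := fun c y =>
    if c = b' then (fun t => t + τ y.2) '' P (a.succAbove c) y.1 else P (a.succAbove c) y.1
  have hP' : ∀ c y, (P' c y).Nontrivial := by
    intro c y
    by_cases hc : c = b'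
    · simp only [P', if_pos hc]
      exact (hP _ _).image (add_left_injective _)
    · simp only [P', if_neg hc]
      exact hP _ _
  obtain ⟨S, hS, σ, hσ, hsum⟩ := IH (U × U) P' hP'
  -- the strategies of the other players
  let r : Fin (k + 1) → (S → U) → (S → U) → S → H := fun c x ζ i =>
    if c = b' then σ c (fun l => (x l, ζ l)) i - τ (ζ i) else σ c (fun l => (x l, x l)) i
  let ρ : Fin (k + 2) → (S → U) → (S → U) → S → H := fun c =>
    Fin.insertNth (α := fun _ => (S → U) → (S → U) → S → H) a (fun x _ i => τ (x i)) r c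
  have hρa : ρ a = fun x _ i => τ (x i) := Fin.insertNth_apply_same _ _ _
  have hρs : ∀ c, ρ (a.succAbove c) = r c := fun c => Fin.insertNth_apply_succAbove _ _ _ _
  refine ⟨S, hS, ρ, ?_, ?_, ?_⟩
  · intro c x ζ i
    by_cases hc : c = a
    · subst hc
      rw [hρa]
      exact hτ _
    · obtain ⟨c', rfl⟩ := Fin.exists_succAbove_eq hc
      rw [hρs]
      by_cases hc' : c' = b'
      · subst hc'
        simp only [r, if_true]
        have h1 := hσ c' (fun l => (x l, ζ l)) i
        simp only [P', if_true] at h1
        obtain ⟨t, ht, h2⟩ := h1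
        simp only at h2
        rw [← h2, add_sub_cancel_right]
        exact ht
      · simp only [r, if_neg hc']
        have h1 := hσ c' (fun l => (x l, x l)) i
        simp only [P', if_neg hc'] at h1
        exact h1
  · intro c hc x ζ ζ'
    by_cases hca : c = a
    · subst hca
      rw [hρa]
    · obtain ⟨c', rfl⟩ := Fin.exists_succAbove_eq hca
      rw [hρs]
      have hc' : c' ≠ b' := fun h => hc (by rw [h])
      funext i
      simp only [r, if_neg hc']
  · intro x
    obtain ⟨i, hi⟩ := hsum (fun c l => if c = b' then (x (a.succAbove c) l, x a l)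
      else (x (a.succAbove c) l, x (a.succAbove c) l))
    refine ⟨i, ?_⟩
    have h1 : ∑ c, ρ c (x c) (x a) i = τ (x a i) + ∑ c', r c' (x (a.succAbove c')) (x a) i := by
      rw [Fin.sum_univ_succAbove _ a, hρa]
      simp only [hρs]
    have h2 : ∑ c', r c' (x (a.succAbove c')) (x a) i =
        (∑ c, σ c ((fun c l => if c = b' then (x (a.succAbove c) l, x a l)
          else (x (a.succAbove c) l, x (a.succAbove c) l)) c) i) - τ (x a i) := by
      rw [← Finset.add_sum_erase _ _ (Finset.mem_univ b'),
        ← Finset.add_sum_erase (Finset.univ : Finset (Fin (k + 1)))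
          (fun c => σ c ((fun c l => if c = b' then (x (a.succAbove c) l, x a l)
          else (x (a.succAbove c) l, x (a.succAbove c) l)) c) i) (Finset.mem_univ b')]
      have e1 : ∀ c ∈ Finset.univ.erase b', r c (x (a.succAbove c)) (x a) i =
          σ c ((fun c l => if c = b' then (x (a.succAbove c) l, x a l)
          else (x (a.succAbove c) l, x (a.succAbove c) l)) c) i := by
        intro c hc
        have hc' : c ≠ b' := Finset.ne_of_mem_erase hc
        simp only [r, if_neg hc']
      rw [Finset.sum_congr rfl e1]
      simp only [r, if_true]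
      abel
    rw [h1, h2]
    intro h3
    apply hi
    rw [← h3]
    abel

/-- Any number of players. -/
theorem avoids (H : Type*) [AddCommGroup H] : ∀ k : ℕ, Avoids.{u} H (k + 1)
  | 0 => by
    intro U _ P hP
    have h : ∀ x, ∃ t ∈ P 0 x, t ≠ 0 := fun x => (hP 0 x).exists_ne 0
    choose t ht ht0 using h
    refine ⟨PUnit, inferInstance, fun c x i => t (x i), ?_, ?_⟩
    · intro c x i
      obtain rfl : c = 0 := Subsingleton.elim (α := Fin 1) c 0
      exact ht _
    · intro x
      refine ⟨PUnit.unit, ?_⟩
      rw [Fin.sum_univ_one]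
      exact ht0 _
  | k + 1 => by
    classical
    intro U _ P hP
    have IH := avoids H k
    obtain ⟨SA, hSA, ρA, hA1, hA2, hA3⟩ := block IH U P hP 0 1 (by simp)
    obtain ⟨SB, hSB, ρB, hB1, hB2, hB3⟩ := block IH U P hP 1 0 (by simp)
    by_cases hU : Nonempty U
    swap
    · -- no inputs: one block is enough
      have hSAne : Nonempty SA ∨ ¬ Nonempty SA := em _
      rcases hSAne with h | h
      · refine ⟨SA, hSA, fun c x => ρA c x x, fun c x i => hA1 c x x i, fun x => ?_⟩
        exact (hU ⟨x 0 h.some⟩).elim
      · obtain ⟨i, hi⟩ := hA3 (fun _ i => (h ⟨i⟩).elim)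
        exact (h ⟨i⟩).elim
    let X := SA → U
    let Y := SB → U
    obtain ⟨g, hg⟩ := hat_guess X Y
    let A := (X → Y) → X
    have hXf : Finite X := Pi.finite
    have hYf : Finite Y := Pi.finite
    have hXYf : Finite (X → Y) := Pi.finite
    have hAf : Finite A := Pi.finite
    let S := (A × SA) ⊕ (X × SB)
    have hSf : Finite S := inferInstance
    -- the hats of a player
    let hp : (S → U) → A → X := fun x a l => x (Sum.inl (a, l))
    let hs : (S → U) → X → Y := fun x b l => x (Sum.inr (b, l))
    let σ : Fin (k + 2) → (S → U) → S → H := fun c x i => match i with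
      | Sum.inl (a, l) => ρA c (hp x a) (a (hs x)) l
      | Sum.inr (b, l) => ρB c (hs x b) (g (hp x) b) l
    refine ⟨S, hSf, σ, ?_, ?_⟩
    · rintro c x (⟨a, l⟩ | ⟨b, l⟩)
      · exact hA1 c (hp x a) (a (hs x)) l
      · exact hB1 c (hs x b) (g (hp x) b) l
    · intro x
      rcases hg (hp (x 0)) (hs (x 1)) with ⟨a, ha⟩ | ⟨b, hb⟩
      · obtain ⟨l, hl⟩ := hA3 (fun c => hp (x c) a)
        refine ⟨Sum.inl (a, l), ?_⟩
        have : ∀ c, σ c (x c) (Sum.inl (a, l)) = ρA c (hp (x c) a) (hp (x 0) a) l := by
          intro c
          by_cases hc : c = 1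
          · subst hc
            change ρA 1 (hp (x 1) a) (a (hs (x 1))) l = _
            rw [ha]
          · exact congrFun (hA2 c hc _ _ _) l
        rw [Finset.sum_congr rfl fun c _ => this c]
        exact hl
      · obtain ⟨l, hl⟩ := hB3 (fun c => hs (x c) b)
        refine ⟨Sum.inr (b, l), ?_⟩
        have : ∀ c, σ c (x c) (Sum.inr (b, l)) = ρB c (hs (x c) b) (hs (x 1) b) l := by
          intro c
          by_cases hc : c = 0
          · subst hc
            change ρB 0 (hs (x 0) b) (g (hp (x 0)) b) l = _
            rw [hb]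
          · exact congrFun (hB2 c hc _ _ _) l
        rw [Finset.sum_congr rfl fun c _ => this c]
        exact hl

end Pool.Agent.H88.LF
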