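import Pool.Agent.H88.LFMain
import Pool.Agent.H88.LFHat

/-!
The full classification: a separating right ideal makes a pattern avoidable.
-/

namespace Pool.Agent.H88.LF

open scoped BigOperators
open DualMod

universe u

theorem avoids_fintype {H : Type*} [AddCommGroup H] {ι : Type*} [Fintype ι] [Nonempty ι]
    (U : Type u) [Finite U] (P : ι → U → Set H) (hP : ∀ c x, (P c x).Nontrivial) :
    ∃ (S : Type u) (_ : Finite S) (σ : ι → (S → U) → S → H),
      (∀ c x i, σ c x i ∈ P c (x i)) ∧ ∀ x : ι → S → U, ∃ i, ∑ c, σ c (x c) i ≠ 0 := by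
  classical
  obtain ⟨k, hk⟩ : ∃ k, Fintype.card ι = k + 1 :=
    ⟨Fintype.card ι - 1, by have := Fintype.card_pos (α := ι); omega⟩
  let e : ι ≃ Fin (k + 1) := Fintype.equivFinOfCardEq hk
  obtain ⟨S, hS, σ, h1, h2⟩ := avoids H k U (fun c => P (e.symm c)) (fun c x => hP _ _)
  refine ⟨S, hS, fun c => σ (e c), ?_, ?_⟩
  · intro c x i
    have := h1 (e c) x i
    rwa [Equiv.symm_apply_apply] at this
  · intro x
    obtain ⟨i, hi⟩ := h2 (fun c => x (e.symm c))
    refine ⟨i, ?_⟩
    rw [← Equiv.sum_comp e] at hi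
    simpa using hi

variable {R : Type u} [Ring R] {h k : ℕ}

/-- A separating proper right ideal of finite index makes a pattern avoidable. -/
theorem avoidable_of_separates (I : Submodule Rᵐᵒᵖ R) (hI : I ≠ ⊤) [Finite (R ⧸ I)]
    (F : Fin h → R) (G : Fin k → R) (τ : Fin k → Fin h) (κ : Fin k → Fin k)
    (hS : Separates I F (specialise G τ κ)) : Avoidable F G τ κ := by
  classical
  have hi : Function.Injective (formHom I F) := formHom_injective I F hS.1
  set V : Fin k → Fin h → R ⧸ I :=
    fun c i => Submodule.Quotient.mk (specialise G τ κ c i) with hV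
  have hQfin : Finite (Fin h → R ⧸ I) := inferInstance
  have hQfin2 : Finite ((Fin h → R ⧸ I) ⧸ (formHom I F).range) := inferInstance
  -- the forms that are left multiples of `F` modulo `I` vanish modulo `I`
  have hVF : ∀ c, V c ≠ 0 → V c ∉ (formHom I F).range := by
    rintro c hc ⟨q, hq⟩
    obtain ⟨x, rfl⟩ := Submodule.Quotient.mk_surjective I q
    have h1 : x ∈ I := hS.2 c x fun i => (Submodule.Quotient.eq I).1 (congrFun hq i).symm
    apply hc
    rw [← hq]
    have : (Submodule.Quotient.mk x : R ⧸ I) = 0 := (Submodule.Quotient.mk_eq_zero I).2 h1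
    rw [this, map_zero]
  -- evaluation of sums
  have hevsum : ∀ {ι : Type} (s : Finset ι) (f : ι → DualMod I) (x : R ⧸ I),
      ev I (∑ i ∈ s, f i) x = ∑ i ∈ s, ev I (f i) x := by
    intro ι s f x
    let e : DualMod I →+ QZ := ⟨⟨fun g => ev I g x, rfl⟩, fun a b => rfl⟩
    exact map_sum e f s
  -- the module belonging to a system of extended characters
  have hgen : ∀ (S : Type u) (_ : Finite S)
      (Y : Fin k → (S → DualMod I) → S → (Fin h → R ⧸ I) →+ QZ)
      (_ : ∀ c m s x, Y c m s (formHom I F x) = ev I (m s) x) (w : DualMod I)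
      (_ : ∀ u : Fin k → S → DualMod I, ∃ s, ∑ c, Y c (u c) s (V c) ≠
        ev I w (Submodule.Quotient.mk (1 : R))), Avoidable F G τ κ := by
    intro S hSf Y hYF w hw
    let φ : Fin k → (S → DualMod I) → Fin h → (S → DualMod I) := fun c m i s =>
      (Y c m s).comp (AddMonoidHom.single (fun _ : Fin h => R ⧸ I) i)
    have hev : ∀ c m i s x, ev I (φ c m i s) x = Y c m s (Pi.single i x) := fun _ _ _ _ _ => rfl
    refine ⟨S → DualMod I, inferInstance, inferInstance, Pi.finite, φ, fun _ => w, ?_, ?_⟩
    · intro c m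
      funext s
      rw [Finset.sum_apply]
      apply ext' I
      intro x
      rw [hevsum]
      have h1 : ∀ i, ev I ((F i • φ c m i) s) x = Y c m s (Pi.single i (rmul I (F i) x)) := by
        intro i
        rw [Pi.smul_apply, ev_smul, hev]
      rw [Finset.sum_congr rfl fun i _ => h1 i, ← map_sum, Finset.univ_sum_single]
      exact hYF c m s x
    · intro u heq
      obtain ⟨s, hs⟩ := hw u
      apply hs
      have h0 := congrArg (fun g : S → DualMod I => ev I (g s) (Submodule.Quotient.mk (1 : R))) heq
      rw [sum_specialise G τ κ (fun c i => φ c (u c) i), Finset.sum_apply, hevsum] at h0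
      rw [← h0]
      apply Finset.sum_congr rfl
      intro c _
      rw [Finset.sum_apply, hevsum]
      have h2 : ∀ i, ev I ((specialise G τ κ c i • φ c (u c) i) s)
          (Submodule.Quotient.mk (1 : R)) = Y c (u c) s (Pi.single i (V c i)) := by
        intro i
        rw [Pi.smul_apply, ev_smul, hev, rmul_mk, one_mul]
      rw [Finset.sum_congr rfl fun i _ => h2 i, ← map_sum, Finset.univ_sum_single]
  by_cases hne : Nonempty {c // V c ≠ 0}
  swap
  · -- all forms vanish modulo `I`
    have hV0 : ∀ c, V c = 0 := by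
      intro c
      by_contra hc
      exact hne ⟨⟨c, hc⟩⟩
    obtain ⟨w, hw⟩ := exists_char_order (Submodule.Quotient.mk (1 : R) : R ⧸ I)
    have h1 : (Submodule.Quotient.mk (1 : R) : R ⧸ I) ≠ 0 := by
      intro h1
      apply hI
      rw [Submodule.Quotient.mk_eq_zero] at h1
      rw [eq_top_iff]
      intro x _
      have := I.smul_mem (MulOpposite.op x) h1
      simpa using this
    choose Y hY using fun (u : DualMod I) => extend_char (formHom I F) hi (hom I u)
    refine hgen PUnit inferInstance (fun c m s => Y (m s)) (fun c m s x => hY _ _) w ?_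
    intro u
    refine ⟨PUnit.unit, ?_⟩
    simp only [hV0, map_zero, Finset.sum_const_zero]
    intro h2
    have h3 : w (Submodule.Quotient.mk (1 : R)) = 0 := h2.symm
    rw [hw] at h3
    obtain ⟨z, hz⟩ := (AddCircle.coe_eq_zero_iff (1 : ℚ)).1 h3
    set N := addOrderOf (Submodule.Quotient.mk (1 : R) : R ⧸ I) with hN
    have hNpos : 0 < N := addOrderOf_pos _
    have hN1 : N ≠ 1 := by
      intro h4
      exact h1 (AddMonoid.addOrderOf_eq_one_iff.1 h4)
    have hN2 : (2 : ℚ) ≤ N := by exact_mod_cast (by omega : 2 ≤ N)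
    have hz' : (z : ℚ) = (N : ℚ)⁻¹ := by
      rw [zsmul_eq_mul, mul_one] at hz
      exact hz
    have hz0 : (0 : ℚ) < z := by rw [hz']; positivity
    have hz1 : (z : ℚ) < 1 := by
      rw [hz']
      exact inv_lt_one_of_one_lt₀ (by linarith)
    have : 0 < z := by exact_mod_cast hz0
    have : z < 1 := by exact_mod_cast hz1
    omega
  · -- the option sets
    let P : {c // V c ≠ 0} → DualMod I → Set QZ := fun c m =>
      {t | ∃ Y : (Fin h → R ⧸ I) →+ QZ, (∀ x, Y (formHom I F x) = ev I m x) ∧ Y (V c) = t}
    have hP : ∀ c m, (P c m).Nontrivial := by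
      intro c m
      obtain ⟨Y₀, hY₀⟩ := extend_char (formHom I F) hi (hom I m)
      obtain ⟨Z, hZ⟩ := exists_char_order
        (QuotientAddGroup.mk (V c) : (Fin h → R ⧸ I) ⧸ (formHom I F).range)
      have hmne : (QuotientAddGroup.mk (V c) : (Fin h → R ⧸ I) ⧸ (formHom I F).range) ≠ 0 := by
        intro h1
        rw [QuotientAddGroup.eq_zero_iff] at h1
        exact hVF c c.2 h1
      let Z' : (Fin h → R ⧸ I) →+ QZ := Z.comp (QuotientAddGroup.mk' _)
      have hZ'F : ∀ x, Z' (formHom I F x) = 0 := by
        intro x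
        change Z (QuotientAddGroup.mk (formHom I F x)) = 0
        have : (QuotientAddGroup.mk (formHom I F x) :
            (Fin h → R ⧸ I) ⧸ (formHom I F).range) = 0 := by
          rw [QuotientAddGroup.eq_zero_iff]
          exact ⟨x, rfl⟩
        rw [this, map_zero]
      have hZ'V : Z' (V c) ≠ 0 := by
        change Z (QuotientAddGroup.mk (V c)) ≠ 0
        rw [hZ]
        intro h3
        obtain ⟨z, hz⟩ := (AddCircle.coe_eq_zero_iff (1 : ℚ)).1 h3
        set N := addOrderOf (QuotientAddGroup.mk (V c) :
          (Fin h → R ⧸ I) ⧸ (formHom I F).range) with hN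
        have hNpos : 0 < N := addOrderOf_pos _
        have hN1 : N ≠ 1 := by
          intro h4
          exact hmne (AddMonoid.addOrderOf_eq_one_iff.1 h4)
        have hN2 : (2 : ℚ) ≤ N := by exact_mod_cast (by omega : 2 ≤ N)
        have hz' : (z : ℚ) = (N : ℚ)⁻¹ := by
          rw [zsmul_eq_mul, mul_one] at hz
          exact hz
        have hz0 : (0 : ℚ) < z := by rw [hz']; positivity
        have hz1 : (z : ℚ) < 1 := by
          rw [hz']
          exact inv_lt_one_of_one_lt₀ (by linarith)
        have : 0 < z := by exact_mod_cast hz0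
        have : z < 1 := by exact_mod_cast hz1
        omega
      refine ⟨Y₀ (V c), ⟨Y₀, hY₀, rfl⟩, (Y₀ + Z') (V c), ⟨Y₀ + Z', ?_, rfl⟩, ?_⟩
      · intro x
        rw [AddMonoidHom.add_apply, hZ'F, add_zero]
        exact hY₀ x
      · intro h1
        rw [AddMonoidHom.add_apply] at h1
        apply hZ'V
        exact (add_eq_left.1 h1.symm)
    obtain ⟨S, hSf, σ, hσ, hsum⟩ := avoids_fintype (DualMod I) P hP
    choose Y₀ hY₀ using fun (u : DualMod I) => extend_char (formHom I F) hi (hom I u)
    choose Y₁ hY₁ hY₁' using hσ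
    let Y : Fin k → (S → DualMod I) → S → (Fin h → R ⧸ I) →+ QZ := fun c m s =>
      if hc : V c ≠ 0 then Y₁ ⟨c, hc⟩ m s else Y₀ (m s)
    refine hgen S hSf Y ?_ 0 ?_
    · intro c m s x
      by_cases hc : V c ≠ 0
      · simp only [Y, dif_pos hc]
        exact hY₁ _ _ _ _
      · simp only [Y, dif_neg hc]
        exact hY₀ _ _
    · intro u
      obtain ⟨s, hs⟩ := hsum (fun c => u c)
      refine ⟨s, ?_⟩
      have h1 : ∑ c, Y c (u c) s (V c) = ∑ c : {c // V c ≠ 0}, σ c (u c) s := by
        have h2 : ∑ c ∈ Finset.univ.filter (fun c => V c ≠ 0), Y c (u c) s (V c) =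
            ∑ c, Y c (u c) s (V c) := by
          apply Finset.sum_subset (Finset.filter_subset _ _)
          intro c _ hc
          have hc0 : V c = 0 := by
            by_contra h3
            exact hc (Finset.mem_filter.2 ⟨Finset.mem_univ _, h3⟩)
          rw [hc0, map_zero]
        rw [← h2, Finset.sum_subtype (Finset.univ.filter fun c => V c ≠ 0)
          (p := fun c => V c ≠ 0) (by simp) (fun c => Y c (u c) s (V c))]
        apply Finset.sum_congr rfl
        intro c _
        have h3 : Y c (u c) s = Y₁ c (u c) s := by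
          simp only [Y]
          rw [dif_pos c.2]
        rw [h3]
        exact hY₁' _ _ _
      rw [h1, ev_zero]
      exact hs

end Pool.Agent.H88.LF
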