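import Pool.Agent.H88.LFCore

/-!
Ideal criteria for avoidable patterns.
-/

namespace Pool.Agent.H88.LF

open scoped BigOperators

universe u

variable {R : Type u} [Ring R] {h k : ℕ}

theorem sum_specialise {M : Type*} [AddCommGroup M] [Module R M] (G : Fin k → R)
    (τ : Fin k → Fin h) (κ : Fin k → Fin k) (y : Fin k → Fin h → M) :
    ∑ j, G j • y (κ j) (τ j) = ∑ c, ∑ i, specialise G τ κ c i • y c i := by
  classical
  simp only [specialise, Finset.sum_smul]
  have : ∀ c i, ∑ j with κ j = c ∧ τ j = i, G j • y c i =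
      ∑ j, if κ j = c ∧ τ j = i then G j • y (κ j) (τ j) else 0 := by
    intro c i
    rw [Finset.sum_filter]
    apply Finset.sum_congr rfl
    intro j _
    split_ifs with hj
    · rw [hj.1, hj.2]
    · rfl
  simp only [this]
  have h2 : ∀ c, ∑ i, ∑ j, (if κ j = c ∧ τ j = i then G j • y (κ j) (τ j) else 0) =
      ∑ j, if κ j = c then G j • y (κ j) (τ j) else 0 := by
    intro c
    rw [Finset.sum_comm]
    apply Finset.sum_congr rfl
    intro j _
    by_cases hj : κ j = c
    · simp [hj]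
    · simp [hj]
  simp only [h2]
  rw [Finset.sum_comm]
  simp

section Necessity

variable {M : Type u} [AddCommGroup M] [Module R M]

/-- The additive subgroup `I M`. -/
def idealMul (I : Submodule Rᵐᵒᵖ R) (M : Type u) [AddCommGroup M] [Module R M] : AddSubgroup M :=
  AddSubgroup.closure {z | ∃ x ∈ I, ∃ m : M, x • m = z}

theorem smul_mem_idealMul {I : Submodule Rᵐᵒᵖ R} {x : R} (hx : x ∈ I) (m : M) :
    x • m ∈ idealMul I M :=
  AddSubgroup.subset_closure ⟨x, hx, m, rfl⟩

/-- Adding one generator `x` to `I` enlarges `I M` by at most `x M`. -/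
theorem mem_idealMul_sup {I : Submodule Rᵐᵒᵖ R} {x : R} {z : M}
    (hz : z ∈ idealMul (I ⊔ Submodule.span Rᵐᵒᵖ {x}) M) :
    ∃ z₀ ∈ idealMul I M, ∃ m : M, z = z₀ + x • m := by
  refine AddSubgroup.closure_induction (p := fun z _ => ∃ z₀ ∈ idealMul I M, ∃ m : M, z = z₀ + x • m)
    ?_ ?_ ?_ ?_ hz
  · rintro z ⟨y, hy, m, rfl⟩
    obtain ⟨a, ha, b, hb, rfl⟩ := Submodule.mem_sup.1 hy
    obtain ⟨r, rfl⟩ := Submodule.mem_span_singleton.1 hb
    refine ⟨a • m, smul_mem_idealMul ha m, r.unop • m, ?_⟩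
    rw [add_smul]
    congr 1
    rw [← mul_smul]
    rfl
  · exact ⟨0, zero_mem _, 0, by simp⟩
  · rintro a b - - ⟨a₀, ha₀, m, rfl⟩ ⟨b₀, hb₀, m', rfl⟩
    exact ⟨a₀ + b₀, add_mem ha₀ hb₀, m + m', by rw [smul_add]; abel⟩
  · rintro a - ⟨a₀, ha₀, m, rfl⟩
    exact ⟨-a₀, neg_mem ha₀, -m, by rw [smul_neg]; abel⟩

/-- The annihilator of a module, as a right ideal. -/
def annRight (R : Type u) [Ring R] (M : Type u) [AddCommGroup M] [Module R M] :
    Submodule Rᵐᵒᵖ R where
  carrier := {x | ∀ m : M, x • m = 0}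
  zero_mem' := fun m => zero_smul _ m
  add_mem' := fun {a b} ha hb m => by rw [add_smul, ha m, hb m, add_zero]
  smul_mem' := fun r x hx m => by
    change (x * r.unop) • m = 0
    rw [mul_smul]; exact hx _

theorem finite_quot_annRight [Finite M] : Finite (R ⧸ annRight R M) := by
  refine Finite.of_injective (fun q : R ⧸ annRight R M => fun m : M => (Quotient.out q) • m) ?_
  intro a b hab
  have h1 : (Quotient.out a : R) - Quotient.out b ∈ annRight R M := by
    intro m
    rw [sub_smul, sub_eq_zero]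
    exact congrFun hab m
  have h2 : (Submodule.Quotient.mk (Quotient.out a) : R ⧸ annRight R M) =
      Submodule.Quotient.mk (Quotient.out b) := (Submodule.Quotient.eq _).2 h1
  have ha : (Submodule.Quotient.mk (Quotient.out a) : R ⧸ annRight R M) = a := Quotient.out_eq a
  have hb : (Submodule.Quotient.mk (Quotient.out b) : R ⧸ annRight R M) = b := Quotient.out_eq b
  rw [← ha, ← hb, h2]

/-- Necessity: an avoidable pattern has a separating proper right ideal of finite index. -/
theorem exists_separates_of_avoidable (F : Fin h → R) (G : Fin k → R) (hk : 0 < k)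
    (τ : Fin k → Fin h) (κ : Fin k → Fin k) (H : Avoidable F G τ κ) :
    ∃ I : Submodule Rᵐᵒᵖ R, I ≠ ⊤ ∧ Finite (R ⧸ I) ∧ Separates I F (specialise G τ κ) := by
  classical
  obtain ⟨M, i1, i2, i3, φ, w, hφ, hw⟩ := H
  set V := specialise G τ κ with hV
  have hw' : ∀ u : Fin k → M, ∑ c, ∑ i, V c i • φ c (u c) i ≠ w := by
    intro u hu
    apply hw u
    rw [← hu, hV]
    exact sum_specialise G τ κ (fun c i => φ c (u c) i)
  let P : Submodule Rᵐᵒᵖ R → Prop := fun I =>
    ∀ u : Fin k → M, ∀ z ∈ idealMul I M, ∑ c, ∑ i, V c i • φ c (u c) i + z ≠ w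
  set I₀ := annRight R M with hI₀
  have hfin : Finite (R ⧸ I₀) := finite_quot_annRight
  have hP0 : P I₀ := by
    intro u z hz
    have : z = 0 := by
      have hle : idealMul I₀ M ≤ ⊥ := by
        rw [idealMul, AddSubgroup.closure_le]
        rintro z ⟨x, hx, m, rfl⟩
        exact hx m
      exact hle hz
    rw [this, add_zero]
    exact hw' u
  -- a maximal one
  have hno : IsNoetherian Rᵐᵒᵖ (R ⧸ I₀) := inferInstance
  let S : Set (Submodule Rᵐᵒᵖ (R ⧸ I₀)) := {J | P (J.comap I₀.mkQ)}
  have hS : S.Nonempty := ⟨⊥, by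
    change P _
    have : (⊥ : Submodule Rᵐᵒᵖ (R ⧸ I₀)).comap I₀.mkQ = I₀ := by
      ext x
      simp
    rw [this]; exact hP0⟩
  obtain ⟨J, hJ, hJmax⟩ := (wellFounded_gt (α := Submodule Rᵐᵒᵖ (R ⧸ I₀))).has_min S hS
  set I := J.comap I₀.mkQ with hI
  have hPI : P I := hJ
  have hI₀I : I₀ ≤ I := by
    intro x hx
    rw [hI, Submodule.mem_comap]
    have : I₀.mkQ x = 0 := by simpa using hx
    rw [this]; exact zero_mem _
  have hmax : ∀ x : R, P (I ⊔ Submodule.span Rᵐᵒᵖ {x}) → x ∈ I := by
    intro x hx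
    by_contra hxI
    set I' := I ⊔ Submodule.span Rᵐᵒᵖ {x} with hI'
    have hle : I ≤ I' := le_sup_left
    have hxI' : x ∈ I' := (le_sup_right : _ ≤ I') (Submodule.mem_span_singleton_self x)
    have hcm : (I'.map I₀.mkQ).comap I₀.mkQ = I' := by
      rw [Submodule.comap_map_mkQ]
      exact sup_eq_right.2 (hI₀I.trans hle)
    refine hJmax (I'.map I₀.mkQ) ?_ ?_
    · change P _
      rw [hcm]; exact hx
    · refine lt_of_le_of_ne ?_ ?_
      · intro q hq
        obtain ⟨y, rfl⟩ := Submodule.mkQ_surjective I₀ q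
        exact Submodule.mem_map_of_mem (hle hq)
      · intro heq
        apply hxI
        rw [hI, heq, hcm]; exact hxI'
  have hfinI : Finite (R ⧸ I) :=
    Finite.of_surjective (Submodule.factor hI₀I) (Submodule.factor_surjective hI₀I)
  refine ⟨I, ?_, hfinI, ?_, ?_⟩
  · intro htop
    refine hPI (fun _ => 0) (w - ∑ c, ∑ i, V c i • φ c 0 i) ?_ (by abel)
    have h1 : (1 : R) ∈ I := by rw [htop]; trivial
    have := smul_mem_idealMul (M := M) h1 (w - ∑ c, ∑ i, V c i • φ c 0 i)
    rwa [one_smul] at this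
  · intro x hx
    apply hmax
    intro u z hz
    obtain ⟨z₀, hz₀, m, rfl⟩ := mem_idealMul_sup hz
    refine hPI u (z₀ + x • m) (add_mem hz₀ ?_)
    rw [← hφ ⟨0, hk⟩ m, Finset.smul_sum]
    refine sum_mem fun i _ => ?_
    rw [← mul_smul]
    exact smul_mem_idealMul (hx i) _
  · intro c x hx
    apply hmax
    intro u z hz heq
    obtain ⟨z₀, hz₀, m, rfl⟩ := mem_idealMul_sup hz
    -- `V c · φ c v ≡ x v`
    have key : ∀ v : M, ∑ i, V c i • φ c v i - x • v ∈ idealMul I M := by
      intro v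
      have : ∑ i, V c i • φ c v i - x • v = ∑ i, (V c i - x * F i) • φ c v i := by
        simp only [sub_smul, Finset.sum_sub_distrib, mul_smul]
        rw [← Finset.smul_sum, hφ c v]
      rw [this]
      exact sum_mem fun i _ => smul_mem_idealMul (hx i) _
    have hk1 := key (u c)
    have hk2 := key (u c + m)
    refine hPI (Function.update u c (u c + m))
      (z₀ + ((∑ i, V c i • φ c (u c) i - x • u c) -
        (∑ i, V c i • φ c (u c + m) i - x • (u c + m)))) (add_mem hz₀ (sub_mem hk1 hk2)) ?_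
    rw [← heq]
    have e1 : ∑ c', ∑ i, V c' i • φ c' (Function.update u c (u c + m) c') i =
        ∑ c' ∈ Finset.univ.erase c, ∑ i, V c' i • φ c' (u c') i +
          ∑ i, V c i • φ c (u c + m) i := by
      rw [← Finset.sum_erase_add _ _ (Finset.mem_univ c)]
      congr 1
      · apply Finset.sum_congr rfl
        intro c' hc'
        rw [Function.update_of_ne (Finset.ne_of_mem_erase hc')]
      · rw [Function.update_self]
    have e2 : ∑ c', ∑ i, V c' i • φ c' (u c') i =
        ∑ c' ∈ Finset.univ.erase c, ∑ i, V c' i • φ c' (u c') i +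
          ∑ i, V c i • φ c (u c) i := by
      rw [← Finset.sum_erase_add _ _ (Finset.mem_univ c)]
    rw [e1, e2, smul_add]
    abel

end Necessity

end Pool.Agent.H88.LF
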