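import Pool.Agent.H88.LFSuff

/-!
The criterion with right ideals.
-/

namespace Pool.Agent.H88.LF

open scoped BigOperators
open DualMod

universe u

variable {R : Type u} [Ring R] {h k : ℕ}

theorem sInf_eq_addOrderOf {A : Type*} [AddCommGroup A] [Finite A] (a : A) (S : Set ℕ)
    (hS : ∀ n, n ∈ S ↔ 0 < n ∧ n • a = 0) : sInf S = addOrderOf a := by
  apply le_antisymm
  · exact Nat.sInf_le ((hS _).2 ⟨addOrderOf_pos a, addOrderOf_nsmul_eq_zero a⟩)
  · have hne : S.Nonempty := ⟨_, (hS _).2 ⟨addOrderOf_pos a, addOrderOf_nsmul_eq_zero a⟩⟩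
    have h1 := (hS _).1 (Nat.sInf_mem hne)
    exact Nat.le_of_dvd h1.1 (addOrderOf_dvd_of_nsmul_eq_zero h1.2)

theorem orderMod_eq (I : Submodule Rᵐᵒᵖ R) [Finite (R ⧸ I)] (V : Fin h → R) :
    orderMod I V = addOrderOf (fun i => (Submodule.Quotient.mk (V i) : R ⧸ I)) := by
  apply sInf_eq_addOrderOf
  intro n
  have : n • (fun i => (Submodule.Quotient.mk (V i) : R ⧸ I)) = 0 ↔ ∀ i, n • V i ∈ I := by
    rw [funext_iff]
    apply forall_congr'
    intro i
    rw [← Submodule.Quotient.mk_eq_zero I]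
    rfl
  rw [this]
  rfl

theorem exponentMod_eq (I : Submodule Rᵐᵒᵖ R) [Finite (R ⧸ I)] :
    exponentMod I = addOrderOf (Submodule.Quotient.mk (1 : R) : R ⧸ I) := by
  apply sInf_eq_addOrderOf
  intro n
  have : n • (Submodule.Quotient.mk (1 : R) : R ⧸ I) = 0 ↔ (n : R) ∈ I := by
    rw [← Submodule.Quotient.mk_eq_zero I, ← nsmul_one]
    rfl
  rw [this]
  rfl

theorem orderModForm_eq (I : Submodule Rᵐᵒᵖ R) [Finite (R ⧸ I)] (F V : Fin h → R) :
    orderModForm I F V = addOrderOf (QuotientAddGroup.mk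
        (fun i => (Submodule.Quotient.mk (V i) : R ⧸ I)) :
          (Fin h → R ⧸ I) ⧸ (formHom I F).range) := by
  apply sInf_eq_addOrderOf
  intro n
  have : n • (QuotientAddGroup.mk (fun i => (Submodule.Quotient.mk (V i) : R ⧸ I)) :
          (Fin h → R ⧸ I) ⧸ (formHom I F).range) = 0 ↔ ∃ x : R, ∀ i, n • V i - x * F i ∈ I := by
    rw [← QuotientAddGroup.mk_nsmul, QuotientAddGroup.eq_zero_iff, AddMonoidHom.mem_range]
    constructor
    · rintro ⟨q, hq⟩
      obtain ⟨x, rfl⟩ := Submodule.Quotient.mk_surjective I q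
      refine ⟨x, fun i => ?_⟩
      have h1 := congrFun hq i
      exact (Submodule.Quotient.eq I).1 h1.symm
    · rintro ⟨x, hx⟩
      refine ⟨Submodule.Quotient.mk x, ?_⟩
      ext i
      exact ((Submodule.Quotient.eq I).2 (hx i)).symm
  rw [this]
  rfl

theorem formHom_injective (I : Submodule Rᵐᵒᵖ R) (F : Fin h → R)
    (hi : ∀ x : R, (∀ i, x * F i ∈ I) → x ∈ I) : Function.Injective (formHom I F) := by
  rw [injective_iff_map_eq_zero]
  intro q hq
  obtain ⟨x, rfl⟩ := Submodule.Quotient.mk_surjective I q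
  rw [Submodule.Quotient.mk_eq_zero]
  apply hi
  intro i
  have := congrFun hq i
  exact (Submodule.Quotient.mk_eq_zero I).1 this

/-- Sufficiency. -/
theorem propertyS_of_inequality (hh : 0 < h) (hk : 0 < k) (F : Fin h → R) (G : Fin k → R)
    (H : ∀ (τ : Fin k → Fin h) (κ : Fin k → Fin k), ∃ I : Submodule Rᵐᵒᵖ R, Finite (R ⧸ I) ∧
      (∀ x : R, (∀ i, x * F i ∈ I) → x ∈ I) ∧
      ∑ c, ((1 : ℚ) / orderModForm I F (specialise G τ κ c) -
        1 / orderMod I (specialise G τ κ c)) < 1 - 1 / exponentMod I) : PropertyS F G := by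
  apply propertyS_of_avoidable hh hk
  intro τ κ
  obtain ⟨I, hI, hi, hineq⟩ := H τ κ
  apply avoidable_of_inequality I F G τ κ (formHom_injective I F hi)
  rw [exponentMod_eq] at hineq
  simp only [orderMod_eq, orderModForm_eq] at hineq
  exact hineq

/-- Necessity. -/
theorem separates_of_propertyS (hk : 0 < k) (F : Fin h → R) (G : Fin k → R)
    (H : PropertyS F G) (τ : Fin k → Fin h) (κ : Fin k → Fin k) :
    ∃ I : Submodule Rᵐᵒᵖ R, I ≠ ⊤ ∧ Finite (R ⧸ I) ∧ Separates I F (specialise G τ κ) :=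
  exists_separates_of_avoidable F G hk τ κ (avoidable_of_propertyS F G H τ κ)

theorem inequality_of_separates (I : Submodule Rᵐᵒᵖ R) (hI : I ≠ ⊤) [Finite (R ⧸ I)]
    (F : Fin h → R) (V : Fin k → Fin h → R) (hS : Separates I F V)
    (hp : k ≤ 2 ∨ ∃ p : ℕ, p.Prime ∧ (p : R) ∈ I) :
    ∑ c, ((1 : ℚ) / orderModForm I F (V c) - 1 / orderMod I (V c)) < 1 - 1 / exponentMod I := by
  classical
  set N := exponentMod I with hN
  have hNpos : 0 < N := by rw [hN, exponentMod_eq]; exact addOrderOf_pos _
  have hNmem : (N : R) ∈ I := by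
    have h1 : N • (Submodule.Quotient.mk (1 : R) : R ⧸ I) = 0 := by
      rw [hN, exponentMod_eq, addOrderOf_nsmul_eq_zero]
    rw [← nsmul_one]
    exact (Submodule.Quotient.mk_eq_zero I).1 h1
  have hN1 : N ≠ 1 := by
    intro h1
    apply hI
    rw [h1, Nat.cast_one] at hNmem
    rw [eq_top_iff]
    intro x _
    have := I.smul_mem (MulOpposite.op x) hNmem
    simpa using this
  have hN2 : 2 ≤ N := by omega
  -- facts on the orders
  have hnpos : ∀ c, 0 < orderMod I (V c) := fun c => by
    rw [orderMod_eq]; exact addOrderOf_pos _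
  have hmpos : ∀ c, 0 < orderModForm I F (V c) := fun c => by
    rw [orderModForm_eq]; exact addOrderOf_pos _
  have hn1 : ∀ c, orderMod I (V c) = 1 ↔ ∀ i, V c i ∈ I := by
    intro c
    rw [orderMod_eq, AddMonoid.addOrderOf_eq_one_iff, funext_iff]
    apply forall_congr'
    intro i
    exact Submodule.Quotient.mk_eq_zero I
  have hm1 : ∀ c, orderModForm I F (V c) = 1 → orderMod I (V c) = 1 := by
    intro c hc
    rw [hn1]
    rw [orderModForm_eq, AddMonoid.addOrderOf_eq_one_iff, QuotientAddGroup.eq_zero_iff,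
      AddMonoidHom.mem_range] at hc
    obtain ⟨q, hq⟩ := hc
    obtain ⟨x, rfl⟩ := Submodule.Quotient.mk_surjective I q
    have h1 : ∀ i, V c i - x * F i ∈ I := fun i =>
      (Submodule.Quotient.eq I).1 (congrFun hq i).symm
    have hx := hS.2 c x h1
    intro i
    have h2 : x * F i ∈ I := by
      have := I.smul_mem (MulOpposite.op (F i)) hx
      simpa using this
    have := I.add_mem (h1 i) h2
    simpa using this
  have hmn : ∀ c, orderModForm I F (V c) ∣ orderMod I (V c) := by
    intro c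
    rw [orderMod_eq, orderModForm_eq]
    apply addOrderOf_dvd_of_nsmul_eq_zero
    rw [← QuotientAddGroup.mk_nsmul, addOrderOf_nsmul_eq_zero]
    rfl
  have hdvd : ∀ (n : ℕ), (n : R) ∈ I → ∀ c, orderMod I (V c) ∣ n := by
    intro n hn c
    rw [orderMod_eq]
    apply addOrderOf_dvd_of_nsmul_eq_zero
    ext i
    change (Submodule.Quotient.mk (n • V c i) : R ⧸ I) = 0
    rw [Submodule.Quotient.mk_eq_zero, nsmul_eq_mul]
    have := I.smul_mem (MulOpposite.op (V c i)) hn
    simpa using this
  have hNQ : (2 : ℚ) ≤ N := by exact_mod_cast hN2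
  have hNinv : (0 : ℚ) < 1 / N := by positivity
  have hNinv2 : (1 : ℚ) / N ≤ 1 / 2 := by
    apply one_div_le_one_div_of_le (by norm_num) hNQ
  rcases hp with hk2 | ⟨p, hp, hpI⟩
  · -- every term is at most `1/2 - 1/N`
    have hterm : ∀ c, (1 : ℚ) / orderModForm I F (V c) - 1 / orderMod I (V c) ≤ 1 / 2 - 1 / N := by
      intro c
      by_cases h1 : orderMod I (V c) = 1
      · have h2 : orderModForm I F (V c) = 1 := by
          have := hmn c
          rw [h1] at this
          exact Nat.dvd_one.1 this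
        rw [h1, h2]
        norm_num
        simpa using hNinv2
      · have h2 : orderModForm I F (V c) ≠ 1 := fun h2 => h1 (hm1 c h2)
        have h3 : 2 ≤ orderModForm I F (V c) := by have := hmpos c; omega
        have h4 : orderMod I (V c) ≤ N := Nat.le_of_dvd hNpos (hdvd N hNmem c)
        have h5 : (1 : ℚ) / orderModForm I F (V c) ≤ 1 / 2 :=
          one_div_le_one_div_of_le (by norm_num) (by exact_mod_cast h3)
        have h6 : (1 : ℚ) / N ≤ 1 / orderMod I (V c) :=
          one_div_le_one_div_of_le (by exact_mod_cast hnpos c) (by exact_mod_cast h4)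
        linarith
    calc ∑ c, ((1 : ℚ) / orderModForm I F (V c) - 1 / orderMod I (V c))
        ≤ ∑ _c : Fin k, ((1 : ℚ) / 2 - 1 / N) := Finset.sum_le_sum fun c _ => hterm c
      _ = k * ((1 : ℚ) / 2 - 1 / N) := by
        rw [Finset.sum_const, Finset.card_univ, Fintype.card_fin, nsmul_eq_mul]
      _ ≤ 2 * ((1 : ℚ) / 2 - 1 / N) := by
        apply mul_le_mul_of_nonneg_right (by exact_mod_cast hk2)
        linarith
      _ < 1 - 1 / N := by linarith
  · -- every term vanishes
    have hterm : ∀ c, (1 : ℚ) / orderModForm I F (V c) - 1 / orderMod I (V c) = 0 := by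
      intro c
      have h1 := hdvd p hpI c
      rcases (Nat.dvd_prime hp).1 h1 with h2 | h2
      · have h3 : orderModForm I F (V c) = 1 := by
          have := hmn c
          rw [h2] at this
          exact Nat.dvd_one.1 this
        rw [h2, h3]; norm_num
      · have h3 := hmn c
        rw [h2] at h3
        rcases (Nat.dvd_prime hp).1 h3 with h4 | h4
        · have := hm1 c h4
          rw [h2] at this
          exact absurd this hp.one_lt.ne'
        · rw [h2, h4]; ring
    rw [Finset.sum_congr rfl fun c _ => hterm c]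
    simp only [Finset.sum_const_zero]
    linarith

end Pool.Agent.H88.LF
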