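import Pool.Agent.H88.LFIdeal

/-!
Sufficiency: a right ideal with the character inequality gives an avoidable pattern.
-/

namespace Pool.Agent.H88.LF

open scoped BigOperators

universe u

variable {R : Type u} [Ring R] {h k : ℕ}

/-- The circle `ℚ / ℤ`. -/
abbrev QZ : Type := AddCircle (1 : ℚ)

theorem extend_char {A B : Type u} [AddCommGroup A] [AddCommGroup B] (f : A →+ B)
    (hf : Function.Injective f) (c : A →+ QZ) : ∃ c' : B →+ QZ, ∀ a, c' (f a) = c a := by
  obtain ⟨c', hc'⟩ := (Module.Baer.of_divisible QZ).extension_property_addMonoidHom f hf c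
  exact ⟨c', fun a => by rw [← hc']; rfl⟩

theorem exists_char_order {A : Type u} [AddCommGroup A] [Finite A] (a : A) :
    ∃ c : A →+ QZ, c a = (((addOrderOf a : ℚ)⁻¹ : ℚ) : QZ) := by
  obtain ⟨c, hc⟩ := CharacterModule.dual_surjective_of_injective (R := ℤ) _
    (Submodule.injective_subtype (ℤ ∙ a)) (CharacterModule.ofSpanSingleton a)
  refine ⟨c, ?_⟩
  have h1 : c a = CharacterModule.ofSpanSingleton a ⟨a, Submodule.mem_span_singleton_self a⟩ := by
    rw [← hc]; rfl
  have hne : addOrderOf a ≠ 0 := (addOrderOf_pos a).ne'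
  refine h1.trans ?_
  erw [CharacterModule.ofSpanSingleton, LinearMap.toAddMonoidHom_coe, LinearMap.comp_apply,
     CharacterModule.intSpanEquivQuotAddOrderOf_apply_self, Submodule.liftQSpanSingleton_apply,
    AddMonoidHom.coe_toIntLinearMap, CharacterModule.int.divByNat,
    LinearMap.toSpanSingleton_apply_one]
  rw [if_neg hne]

theorem exists_rep (q : QZ) (n : ℕ) (hn : 0 < n) (hq : n • q = 0) :
    ∃ z : ℤ, q = (((z : ℚ) / n : ℚ) : QZ) := by
  induction q using QuotientAddGroup.induction_on with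
  | H a =>
    have h1 : ((n • a : ℚ) : QZ) = 0 := by
      rw [AddCircle.coe_nsmul]; exact hq
    obtain ⟨z, hz⟩ := (AddCircle.coe_eq_zero_iff (1 : ℚ)).1 h1
    refine ⟨z, ?_⟩
    have hn' : (n : ℚ) ≠ 0 := by exact_mod_cast hn.ne'
    have : a = (z : ℚ) / n := by
      rw [eq_div_iff hn']
      simp at hz
      linarith
    rw [← this]

/-- The module `Hom(R / I, ℚ/ℤ)` for a right ideal `I`. -/
def DualMod (I : Submodule Rᵐᵒᵖ R) : Type u := (R ⧸ I) →+ QZ

namespace DualMod

variable (I : Submodule Rᵐᵒᵖ R)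

instance : AddCommGroup (DualMod I) := inferInstanceAs (AddCommGroup ((R ⧸ I) →+ QZ))

/-- The underlying character. -/
def hom (f : DualMod I) : (R ⧸ I) →+ QZ := f

/-- Evaluation. -/
def ev (f : DualMod I) (x : R ⧸ I) : QZ := hom I f x

theorem ext' {f g : DualMod I} (hfg : ∀ x, ev I f x = ev I g x) : f = g :=
  AddMonoidHom.ext (f := hom I f) (g := hom I g) hfg

theorem ev_add (f g : DualMod I) (x : R ⧸ I) : ev I (f + g) x = ev I f x + ev I g x := rfl

theorem ev_zero (x : R ⧸ I) : ev I 0 x = 0 := rfl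

theorem ev_map_add (f : DualMod I) (x y : R ⧸ I) : ev I f (x + y) = ev I f x + ev I f y :=
  map_add (hom I f) x y

theorem ev_map_zero (f : DualMod I) : ev I f 0 = 0 := map_zero (hom I f)

/-- Right multiplication on `R / I`. -/
def rmul (r : R) : (R ⧸ I) →+ (R ⧸ I) :=
  DistribSMul.toAddMonoidHom (R ⧸ I) (MulOpposite.op r)

theorem rmul_mk (r x : R) : rmul I r (Submodule.Quotient.mk x) = Submodule.Quotient.mk (x * r) :=
  rfl

theorem rmul_add (r s : R) (x : R ⧸ I) : rmul I (r + s) x = rmul I r x + rmul I s x := by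
  change MulOpposite.op (r + s) • x = MulOpposite.op r • x + MulOpposite.op s • x
  rw [MulOpposite.op_add, add_smul]

theorem rmul_mul (r s : R) (x : R ⧸ I) : rmul I (r * s) x = rmul I s (rmul I r x) := by
  change MulOpposite.op (r * s) • x = MulOpposite.op s • MulOpposite.op r • x
  rw [MulOpposite.op_mul, mul_smul]

theorem rmul_one (x : R ⧸ I) : rmul I 1 x = x := by
  change MulOpposite.op (1 : R) • x = x
  rw [MulOpposite.op_one, one_smul]

theorem rmul_zero (x : R ⧸ I) : rmul I 0 x = 0 := by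
  change MulOpposite.op (0 : R) • x = 0
  rw [MulOpposite.op_zero, zero_smul]

instance : SMul R (DualMod I) := ⟨fun r f => AddMonoidHom.comp (hom I f) (rmul I r)⟩

theorem ev_smul (r : R) (f : DualMod I) (x : R ⧸ I) : ev I (r • f) x = ev I f (rmul I r x) := rfl

instance : Module R (DualMod I) where
  one_smul f := ext' I fun x => by rw [ev_smul, rmul_one]
  mul_smul r s f := ext' I fun x => by rw [ev_smul, ev_smul, ev_smul, rmul_mul]
  smul_zero r := ext' I fun x => by rw [ev_smul, ev_zero, ev_zero]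
  smul_add r f g := ext' I fun x => by rw [ev_smul, ev_add, ev_add, ev_smul, ev_smul]
  add_smul r s f := ext' I fun x => by rw [ev_smul, rmul_add, ev_map_add, ev_add, ev_smul, ev_smul]
  zero_smul f := ext' I fun x => by rw [ev_smul, rmul_zero, ev_map_zero, ev_zero]

instance [Finite (R ⧸ I)] : Finite (DualMod I) := by
  -- all characters take values in the `n`-torsion, which is finite
  classical
  let n := Nat.card (R ⧸ I)
  have hn : 0 < n := Nat.card_pos
  have hT : Set.Finite {q : QZ | n • q = 0} := by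
    refine Set.Finite.subset (Set.finite_range
      (fun z : Fin n => ((((z : ℕ) : ℚ) / n : ℚ) : QZ))) ?_
    intro q hq
    obtain ⟨z, hz⟩ := exists_rep q n hn hq
    refine ⟨⟨(z % n).toNat, ?_⟩, ?_⟩
    · have h1 := Int.emod_nonneg z (by exact_mod_cast hn.ne' : (n : ℤ) ≠ 0)
      have h2 := Int.emod_lt_of_pos z (by exact_mod_cast hn : (0 : ℤ) < n)
      omega
    · rw [hz]
      have h1 := Int.emod_nonneg z (by exact_mod_cast hn.ne' : (n : ℤ) ≠ 0)
      have h3 : (((z % n).toNat : ℕ) : ℚ) = ((z % n : ℤ) : ℚ) := by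
        have : (((z % n).toNat : ℕ) : ℤ) = z % n := Int.toNat_of_nonneg h1
        exact_mod_cast this
      simp only [h3]
      have h4 : (z : ℚ) / n = ((z % n : ℤ) : ℚ) / n + ((z / n : ℤ) : ℚ) := by
        have hn' : (n : ℚ) ≠ 0 := by exact_mod_cast hn.ne'
        have h5 : (z : ℚ) = ((z % n : ℤ) : ℚ) + (n : ℚ) * ((z / n : ℤ) : ℚ) := by
          exact_mod_cast (Int.emod_add_mul_ediv z n).symm
        field_simp
        linarith
      rw [h4, AddCircle.coe_add]
      have h6 : (((z / n : ℤ) : ℚ) : QZ) = 0 := by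
        rw [AddCircle.coe_eq_zero_iff]
        exact ⟨z / n, by simp⟩
      rw [h6, add_zero]
  have hTf : Finite {q : QZ | n • q = 0} := hT
  refine Finite.of_injective (β := (R ⧸ I) → {q : QZ | n • q = 0})
    (fun f x => ⟨ev I f x, ?_⟩) ?_
  · change n • (hom I f x) = 0
    rw [← map_nsmul]
    have : n • x = 0 := by
      exact card_nsmul_eq_zero'
    rw [this, map_zero]
  · intro f g hfg
    apply ext' I
    intro x
    have := congrFun hfg x
    exact congrArg Subtype.val this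

/-- The homomorphism `x ↦ x F` from `R / I` to `(R / I)^h`. -/
def formHom (F : Fin h → R) : (R ⧸ I) →+ (Fin h → R ⧸ I) where
  toFun x i := rmul I (F i) x
  map_zero' := by ext i; exact map_zero _
  map_add' x y := by ext i; exact map_add _ _ _

end DualMod

open DualMod

/-- One adjusted character. -/
theorem exists_adjusted (I : Submodule Rᵐᵒᵖ R) [Finite (R ⧸ I)] (F : Fin h → R)
    (hi : Function.Injective (formHom I F)) (V : Fin h → R ⧸ I) (u : (R ⧸ I) →+ QZ) (n m : ℕ)
    (hn : n = addOrderOf V)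
    (hm : m = addOrderOf (QuotientAddGroup.mk V : (Fin h → R ⧸ I) ⧸ (formHom I F).range)) :
    ∃ Y : (Fin h → R ⧸ I) →+ QZ, (∀ x, Y (formHom I F x) = u x) ∧
      ∃ q : ℚ, Y V = (q : QZ) ∧ 0 ≤ q ∧ q ≤ 1 / m - 1 / n := by
  classical
  have hQfin : Finite (Fin h → R ⧸ I) := inferInstance
  have hQfin2 : Finite ((Fin h → R ⧸ I) ⧸ (formHom I F).range) := inferInstance
  obtain ⟨Y₀, hY₀⟩ := extend_char (formHom I F) hi u
  have hnpos : 0 < n := hn ▸ addOrderOf_pos V
  have hmpos : 0 < m := hm ▸ addOrderOf_pos _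
  have hmn : m ∣ n := by
    rw [hm, hn]
    apply addOrderOf_dvd_of_nsmul_eq_zero
    rw [← QuotientAddGroup.mk_nsmul, addOrderOf_nsmul_eq_zero]
    rfl
  obtain ⟨d, hd⟩ := hmn
  have hdpos : 0 < d := by
    rcases Nat.eq_zero_or_pos d with h0 | h0
    · rw [h0, mul_zero] at hd; omega
    · exact h0
  obtain ⟨z, hz⟩ := exists_rep (Y₀ V) n hnpos (by
    rw [← map_nsmul, hn, addOrderOf_nsmul_eq_zero, map_zero])
  obtain ⟨Z, hZ⟩ := exists_char_order
    (QuotientAddGroup.mk V : (Fin h → R ⧸ I) ⧸ (formHom I F).range)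
  rw [← hm] at hZ
  let Z' : (Fin h → R ⧸ I) →+ QZ := Z.comp (QuotientAddGroup.mk' _)
  have hZ'V : Z' V = (((m : ℚ)⁻¹ : ℚ) : QZ) := hZ
  have hZ'F : ∀ x, Z' (formHom I F x) = 0 := by
    intro x
    change Z (QuotientAddGroup.mk (formHom I F x)) = 0
    have : (QuotientAddGroup.mk (formHom I F x) : (Fin h → R ⧸ I) ⧸ (formHom I F).range) = 0 := by
      rw [QuotientAddGroup.eq_zero_iff]
      exact ⟨x, rfl⟩
    rw [this, map_zero]
  refine ⟨Y₀ - (z / d) • Z', ?_, ((z % d : ℤ) : ℚ) / n, ?_, ?_, ?_⟩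
  · intro x
    rw [AddMonoidHom.sub_apply, AddMonoidHom.zsmul_apply, hZ'F, smul_zero, sub_zero, hY₀]
  · rw [AddMonoidHom.sub_apply, AddMonoidHom.zsmul_apply, hZ'V, hz]
    have h1 : (((z / d : ℤ) • ((m : ℚ)⁻¹) : ℚ) : QZ) = (z / d : ℤ) • (((m : ℚ)⁻¹ : ℚ) : QZ) :=
      AddCircle.coe_zsmul ..
    rw [← h1, ← AddCircle.coe_sub]
    congr 1
    have hn' : (n : ℚ) ≠ 0 := by exact_mod_cast hnpos.ne'
    have hm' : (m : ℚ) ≠ 0 := by exact_mod_cast hmpos.ne'
    have hd' : (d : ℚ) ≠ 0 := by exact_mod_cast hdpos.ne'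
    have h5 : (z : ℚ) = ((z % d : ℤ) : ℚ) + (d : ℚ) * ((z / d : ℤ) : ℚ) := by
      exact_mod_cast (Int.emod_add_mul_ediv z d).symm
    have h6 : (n : ℚ) = m * d := by exact_mod_cast hd
    rw [zsmul_eq_mul, h6]
    field_simp
    rw [mul_comm] at h5
    linarith
  · have h1 := Int.emod_nonneg z (by exact_mod_cast hdpos.ne' : (d : ℤ) ≠ 0)
    have h2 : (0 : ℚ) ≤ ((z % d : ℤ) : ℚ) := by exact_mod_cast h1
    positivity
  · have h2 := Int.emod_lt_of_pos z (by exact_mod_cast hdpos : (0 : ℤ) < d)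
    have h3 : ((z % d : ℤ) : ℚ) ≤ (d : ℚ) - 1 := by
      have : (z % d : ℤ) ≤ (d : ℤ) - 1 := by omega
      exact_mod_cast this
    have hn' : (0 : ℚ) < n := by exact_mod_cast hnpos
    have hm' : (0 : ℚ) < m := by exact_mod_cast hmpos
    have h6 : (n : ℚ) = m * d := by exact_mod_cast hd
    have h7 : (1 : ℚ) / m - 1 / n = ((d : ℚ) - 1) / n := by
      have hd' : (d : ℚ) ≠ 0 := by exact_mod_cast hdpos.ne'
      rw [h6]; field_simp
    rw [h7]
    exact div_le_div_of_nonneg_right h3 hn'.le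

/-- The character inequality makes a pattern avoidable. -/
theorem avoidable_of_inequality (I : Submodule Rᵐᵒᵖ R) [Finite (R ⧸ I)] (F : Fin h → R)
    (G : Fin k → R) (τ : Fin k → Fin h) (κ : Fin k → Fin k)
    (hi : Function.Injective (formHom I F))
    (hineq : ∑ c, ((1 : ℚ) / (addOrderOf (QuotientAddGroup.mk
        (fun i => (Submodule.Quotient.mk (specialise G τ κ c i) : R ⧸ I)) :
          (Fin h → R ⧸ I) ⧸ (formHom I F).range) : ℕ) -
        1 / (addOrderOf (fun i => (Submodule.Quotient.mk (specialise G τ κ c i) : R ⧸ I)) : ℕ)) <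
      1 - 1 / (addOrderOf (Submodule.Quotient.mk (1 : R) : R ⧸ I) : ℕ)) :
    Avoidable F G τ κ := by
  classical
  set V : Fin k → Fin h → R ⧸ I :=
    fun c i => Submodule.Quotient.mk (specialise G τ κ c i) with hV
  set N := addOrderOf (Submodule.Quotient.mk (1 : R) : R ⧸ I) with hN
  have hNpos : 0 < N := addOrderOf_pos _
  choose Y hYF q hq hq0 hq1 using fun (c : Fin k) (u : (R ⧸ I) →+ QZ) =>
    exists_adjusted I F hi (V c) u _ _ rfl rfl
  obtain ⟨w₁, hw₁⟩ := exists_char_order (Submodule.Quotient.mk (1 : R) : R ⧸ I)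
  let w : DualMod I := -w₁
  let φ : Fin k → DualMod I → Fin h → DualMod I := fun c u i =>
    (Y c (hom I u)).comp (AddMonoidHom.single (fun _ : Fin h => R ⧸ I) i)
  have hev : ∀ c u i x, ev I (φ c u i) x = Y c (hom I u) (Pi.single i x) := fun _ _ _ _ => rfl
  have hevsum : ∀ {ι : Type} (s : Finset ι) (f : ι → DualMod I) (x : R ⧸ I),
      ev I (∑ i ∈ s, f i) x = ∑ i ∈ s, ev I (f i) x := by
    intro ι s f x
    let e : DualMod I →+ QZ := ⟨⟨fun g => ev I g x, rfl⟩, fun a b => rfl⟩
    exact map_sum e f s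
  refine ⟨DualMod I, inferInstance, inferInstance, inferInstance, φ, w, ?_, ?_⟩
  · intro c u
    apply ext' I
    intro x
    rw [hevsum]
    have h1 : ∀ i, ev I (F i • φ c u i) x = Y c (hom I u) (Pi.single i (rmul I (F i) x)) := by
      intro i; rw [ev_smul, hev]
    rw [Finset.sum_congr rfl fun i _ => h1 i, ← map_sum, Finset.univ_sum_single]
    exact hYF c (hom I u) x
  · intro u heq
    have h0 := congrArg (fun g => ev I g (Submodule.Quotient.mk (1 : R))) heq
    rw [sum_specialise G τ κ (fun c i => φ c (u c) i), hevsum] at h0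
    have h1 : ∀ c, ev I (∑ i, specialise G τ κ c i • φ c (u c) i) (Submodule.Quotient.mk (1 : R)) =
        ((q c (hom I (u c)) : ℚ) : QZ) := by
      intro c
      rw [hevsum]
      have h2 : ∀ i, ev I (specialise G τ κ c i • φ c (u c) i) (Submodule.Quotient.mk (1 : R)) =
          Y c (hom I (u c)) (Pi.single i (V c i)) := by
        intro i; rw [ev_smul, hev, rmul_mk, one_mul]
      rw [Finset.sum_congr rfl fun i _ => h2 i, ← map_sum, Finset.univ_sum_single]
      exact hq c (hom I (u c))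
    rw [Finset.sum_congr rfl fun c _ => h1 c] at h0
    have h3 : (∑ c, ((q c (hom I (u c)) : ℚ) : QZ)) = ((∑ c, q c (hom I (u c)) : ℚ) : QZ) := by
      exact (map_sum (QuotientAddGroup.mk' (AddSubgroup.zmultiples (1 : ℚ)))
        (fun c => q c (hom I (u c))) Finset.univ).symm
    have h4 : ev I w (Submodule.Quotient.mk (1 : R)) = ((-((N : ℚ)⁻¹) : ℚ) : QZ) := by
      change -(w₁ (Submodule.Quotient.mk (1 : R))) = _
      rw [hw₁, ← AddCircle.coe_neg]
    rw [h3, h4, ← sub_eq_zero, ← AddCircle.coe_sub] at h0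
    obtain ⟨z, hz⟩ := (AddCircle.coe_eq_zero_iff (1 : ℚ)).1 h0
    set s := ∑ c, q c (hom I (u c)) with hs
    have hs0 : 0 ≤ s := Finset.sum_nonneg fun c _ => hq0 c _
    have hs1 : s < 1 - 1 / N := by
      refine lt_of_le_of_lt (Finset.sum_le_sum fun c _ => hq1 c _) hineq
    have hNpos' : (0 : ℚ) < N := by exact_mod_cast hNpos
    have hinv : (0 : ℚ) < (N : ℚ)⁻¹ := by positivity
    have hz' : (z : ℚ) = s + (N : ℚ)⁻¹ := by
      rw [zsmul_eq_mul, mul_one] at hz
      rw [hz]; ring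
    rw [one_div] at hs1
    have hz0 : (0 : ℚ) < z := by rw [hz']; positivity
    have hz1 : (z : ℚ) < 1 := by rw [hz']; linarith
    have : 0 < z := by exact_mod_cast hz0
    have : z < 1 := by exact_mod_cast hz1
    omega

end Pool.Agent.H88.LF
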