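import Mathlib

/-!
# A divisor type sum

Factorisation of two equal products through a matrix, and the resulting bound
`∑ W k * W k' ≤ (∑ 1 / n) ^ 16` over pairs of quadruples with the same ratio.
-/

set_option autoImplicit false

namespace Pool.Agent.H88.PCDiv

open Finset

lemma dvd_prod_split {κ : Type*} [DecidableEq κ] (t : Finset κ) (y : κ → ℕ) :
    ∀ x : ℕ, x ∣ ∏ j ∈ t, y j → ∃ u : κ → ℕ, (∀ j ∈ t, u j ∣ y j) ∧ ∏ j ∈ t, u j = x := by
  induction t using Finset.induction_on with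
  | empty =>
    intro x h
    refine ⟨fun _ => 1, by simp, ?_⟩
    rw [Finset.prod_empty] at h
    simpa using (Nat.dvd_one.1 h).symm
  | insert j₀ t hj₀ ih =>
    intro x h
    rw [Finset.prod_insert hj₀] at h
    obtain ⟨d, e, hd, he, rfl⟩ := exists_dvd_and_dvd_of_dvd_mul h
    obtain ⟨u, hu1, hu2⟩ := ih e he
    refine ⟨Function.update u j₀ d, ?_, ?_⟩
    · intro j hj
      by_cases h' : j = j₀
      · subst h'; simpa using hd
      · rw [Function.update_of_ne h']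
        exact hu1 j ((Finset.mem_insert.1 hj).resolve_left h')
    · rw [Finset.prod_insert hj₀]
      rw [Function.update_self]
      congr 1
      rw [← hu2]
      apply Finset.prod_congr rfl
      intro j hj
      rw [Function.update_of_ne]
      rintro rfl
      exact hj₀ hj

lemma matrix {ι κ : Type*} [DecidableEq ι] [DecidableEq κ] (s : Finset ι) (t : Finset κ)
    (x : ι → ℕ) (hx : ∀ i ∈ s, 0 < x i) :
    ∀ y : κ → ℕ, ∏ i ∈ s, x i = ∏ j ∈ t, y j →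
      ∃ z : ι → κ → ℕ, (∀ i ∈ s, ∏ j ∈ t, z i j = x i) ∧ ∀ j ∈ t, ∏ i ∈ s, z i j = y j := by
  induction s using Finset.induction_on with
  | empty =>
    intro y h
    refine ⟨fun _ _ => 1, by simp, ?_⟩
    intro j hj
    rw [Finset.prod_empty] at h
    have : y j ∣ 1 := h ▸ Finset.dvd_prod_of_mem y hj
    simpa using (Nat.dvd_one.1 this).symm
  | insert i₀ s hi₀ ih =>
    intro y h
    rw [Finset.prod_insert hi₀] at h
    have hx0 : 0 < x i₀ := hx i₀ (Finset.mem_insert_self _ _)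
    have hd : x i₀ ∣ ∏ j ∈ t, y j := h ▸ Dvd.intro _ rfl
    obtain ⟨u, hu1, hu2⟩ := dvd_prod_split t y (x i₀) hd
    have hy : ∀ j ∈ t, y j = u j * (y j / u j) := fun j hj => (Nat.mul_div_cancel' (hu1 j hj)).symm
    have h2 : ∏ i ∈ s, x i = ∏ j ∈ t, (y j / u j) := by
      have h3 : ∏ j ∈ t, y j = x i₀ * ∏ j ∈ t, (y j / u j) := by
        rw [← hu2, ← Finset.prod_mul_distrib]
        exact Finset.prod_congr rfl hy
      rw [h3] at h
      exact Nat.eq_of_mul_eq_mul_left hx0 h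
    obtain ⟨z, hz1, hz2⟩ := ih (fun i hi => hx i (Finset.mem_insert_of_mem hi)) _ h2
    refine ⟨fun i j => if i = i₀ then u j else z i j, ?_, ?_⟩
    · intro i hi
      by_cases h' : i = i₀
      · subst h'; simpa using hu2
      · simp only [h', if_false]
        exact hz1 i ((Finset.mem_insert.1 hi).resolve_left h')
    · intro j hj
      rw [Finset.prod_insert hi₀]
      simp only [if_true]
      have h5 : ∏ i ∈ s, (if i = i₀ then u j else z i j) = y j / u j := by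
        rw [← hz2 j hj]
        apply Finset.prod_congr rfl
        intro i hi
        have : i ≠ i₀ := by rintro rfl; exact hi₀ hi
        simp [this]
      rw [h5]
      exact (hy j hj).symm

/-- Quadruples of integers in `[1, Q]`. -/
def K (Q : ℕ) : Finset (ℕ × ℕ × ℕ × ℕ) := Icc 1 Q ×ˢ Icc 1 Q ×ˢ Icc 1 Q ×ˢ Icc 1 Q

/-- The ratio of a quadruple `(m, n, m', n')`. -/
def ratio (k : ℕ × ℕ × ℕ × ℕ) : ℚ := ((k.2.2.1 : ℚ) * k.2.1) / ((k.1 : ℚ) * k.2.2.2)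

/-- The weight of a quadruple. -/
noncomputable def W (k : ℕ × ℕ × ℕ × ℕ) : ℝ :=
  1 / Real.sqrt ((k.1 : ℝ) * k.2.1 * k.2.2.1 * k.2.2.2)

lemma W_nonneg (k : ℕ × ℕ × ℕ × ℕ) : 0 ≤ W k := by unfold W; positivity

lemma mem_K {Q : ℕ} {k : ℕ × ℕ × ℕ × ℕ} : k ∈ K Q ↔
    (1 ≤ k.1 ∧ k.1 ≤ Q) ∧ (1 ≤ k.2.1 ∧ k.2.1 ≤ Q) ∧ (1 ≤ k.2.2.1 ∧ k.2.2.1 ≤ Q) ∧
      (1 ≤ k.2.2.2 ∧ k.2.2.2 ≤ Q) := by
  simp [K, Finset.mem_product, Finset.mem_Icc]

theorem sum_W (Q : ℕ) :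
    ∑ k ∈ K Q, ∑ k' ∈ K Q, (if ratio k = ratio k' then W k * W k' else 0) ≤
      (∑ n ∈ Icc 1 Q, (1 : ℝ) / n) ^ 16 := by
  classical
  let xs : (ℕ × ℕ × ℕ × ℕ) × (ℕ × ℕ × ℕ × ℕ) → Fin 4 → ℕ :=
    fun p => ![p.1.2.2.1, p.1.2.1, p.2.1, p.2.2.2.2]
  let ys : (ℕ × ℕ × ℕ × ℕ) × (ℕ × ℕ × ℕ × ℕ) → Fin 4 → ℕ :=
    fun p => ![p.1.1, p.1.2.2.2, p.2.2.2.1, p.2.2.1]
  set P : Finset ((ℕ × ℕ × ℕ × ℕ) × (ℕ × ℕ × ℕ × ℕ)) :=
    (K Q ×ˢ K Q).filter (fun p => ratio p.1 = ratio p.2) with hP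
  have hprod : ∀ p ∈ P, ∏ i, xs p i = ∏ j, ys p j := by
    intro p hp
    rw [hP, Finset.mem_filter, Finset.mem_product, mem_K, mem_K] at hp
    obtain ⟨⟨⟨⟨a1, _⟩, ⟨a2, _⟩, ⟨a3, _⟩, ⟨a4, _⟩⟩, ⟨b1, _⟩, ⟨b2, _⟩, ⟨b3, _⟩, ⟨b4, _⟩⟩, he⟩ := hp
    unfold ratio at he
    have c1 : ((p.1.1 : ℚ) * p.1.2.2.2) ≠ 0 := by
      apply mul_ne_zero <;> · apply Nat.cast_ne_zero.2; omega
    have c2 : ((p.2.1 : ℚ) * p.2.2.2.2) ≠ 0 := by
      apply mul_ne_zero <;> · apply Nat.cast_ne_zero.2; omega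
    rw [div_eq_div_iff c1 c2] at he
    have he' : (p.1.2.2.1 * p.1.2.1) * (p.2.1 * p.2.2.2.2) =
        (p.2.2.2.1 * p.2.2.1) * (p.1.1 * p.1.2.2.2) := by exact_mod_cast he
    simp only [xs, ys, Fin.prod_univ_four]
    simp only [Matrix.cons_val_zero, Matrix.cons_val_one, Matrix.cons_val]
    linarith
  have hxpos : ∀ p ∈ P, ∀ i ∈ (Finset.univ : Finset (Fin 4)), 0 < xs p i := by
    intro p hp i _
    rw [hP, Finset.mem_filter, Finset.mem_product, mem_K, mem_K] at hp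
    obtain ⟨⟨⟨⟨a1, _⟩, ⟨a2, _⟩, ⟨a3, _⟩, ⟨a4, _⟩⟩, ⟨b1, _⟩, ⟨b2, _⟩, ⟨b3, _⟩, ⟨b4, _⟩⟩, _⟩ := hp
    fin_cases i <;> simp [xs] <;> omega
  have hxle : ∀ p ∈ P, ∀ i, xs p i ≤ Q := by
    intro p hp i
    rw [hP, Finset.mem_filter, Finset.mem_product, mem_K, mem_K] at hp
    obtain ⟨⟨⟨⟨_, a1⟩, ⟨_, a2⟩, ⟨_, a3⟩, ⟨_, a4⟩⟩, ⟨_, b1⟩, ⟨_, b2⟩, ⟨_, b3⟩, ⟨_, b4⟩⟩, _⟩ := hp
    fin_cases i <;> simp [xs] <;> omega
  have hex : ∀ p : (ℕ × ℕ × ℕ × ℕ) × (ℕ × ℕ × ℕ × ℕ), ∃ z : Fin 4 → Fin 4 → ℕ, p ∈ P →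
      (∀ i, ∏ j, z i j = xs p i) ∧ ∀ j, ∏ i, z i j = ys p j := by
    intro p
    by_cases hp : p ∈ P
    · obtain ⟨z, hz1, hz2⟩ := matrix Finset.univ Finset.univ (xs p) (hxpos p hp) (ys p) (hprod p hp)
      exact ⟨z, fun _ => ⟨fun i => hz1 i (Finset.mem_univ _), fun j => hz2 j (Finset.mem_univ _)⟩⟩
    · exact ⟨fun _ _ => 1, fun h => absurd h hp⟩
  choose Φ hΦ using hex
  set Z : Finset (Fin 4 → Fin 4 → ℕ) :=
    Fintype.piFinset (fun _ : Fin 4 => Fintype.piFinset (fun _ : Fin 4 => Icc 1 Q)) with hZ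
  let g : (Fin 4 → Fin 4 → ℕ) → ℝ := fun z => ∏ i, ∏ j, (1 : ℝ) / z i j
  have hΦZ : ∀ p ∈ P, Φ p ∈ Z := by
    intro p hp
    rw [hZ, Fintype.mem_piFinset]
    intro i
    rw [Fintype.mem_piFinset]
    intro j
    have h1 := (hΦ p hp).1 i
    have hdvd : Φ p i j ∣ xs p i := h1 ▸ Finset.dvd_prod_of_mem _ (Finset.mem_univ j)
    rw [Finset.mem_Icc]
    have hpos := hxpos p hp i (Finset.mem_univ _)
    exact ⟨Nat.pos_of_dvd_of_pos hdvd hpos, (Nat.le_of_dvd hpos hdvd).trans (hxle p hp i)⟩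
  have hinj : Set.InjOn Φ P := by
    intro p hp p' hp' h
    have hx : xs p = xs p' := by
      ext i; rw [← (hΦ p hp).1 i, ← (hΦ p' hp').1 i, h]
    have hy : ys p = ys p' := by
      ext j; rw [← (hΦ p hp).2 j, ← (hΦ p' hp').2 j, h]
    have x0 := congrFun hx 0
    have x1 := congrFun hx 1
    have x2 := congrFun hx 2
    have x3 := congrFun hx 3
    have y0 := congrFun hy 0
    have y1 := congrFun hy 1
    have y2 := congrFun hy 2
    have y3 := congrFun hy 3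
    simp only [xs, ys, Matrix.cons_val_zero, Matrix.cons_val_one, Matrix.cons_val]
      at x0 x1 x2 x3 y0 y1 y2 y3
    obtain ⟨⟨m, n, m', n'⟩, ⟨μ, ν, μ', ν'⟩⟩ := p
    obtain ⟨⟨a, b, c, d⟩, ⟨e, f, g, h⟩⟩ := p'
    simp_all
  have hW : ∀ p ∈ P, W p.1 * W p.2 = g (Φ p) := by
    intro p hp
    have h1 := hprod p hp
    have h2 : (∏ i, (xs p i : ℝ)) = ∏ j, (ys p j : ℝ) := by exact_mod_cast h1
    have h3 : g (Φ p) = 1 / ∏ i, (xs p i : ℝ) := by
      simp only [g]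
      rw [one_div, ← Finset.prod_inv_distrib]
      apply Finset.prod_congr rfl
      intro i _
      rw [← (hΦ p hp).1 i]
      push_cast
      rw [← Finset.prod_inv_distrib]
      apply Finset.prod_congr rfl
      intro j _
      rw [one_div]
    rw [h3]
    unfold W
    rw [one_div_mul_one_div, ← Real.sqrt_mul (by positivity)]
    have h4 : ((p.1.1 : ℝ) * p.1.2.1 * p.1.2.2.1 * p.1.2.2.2) *
        ((p.2.1 : ℝ) * p.2.2.1 * p.2.2.2.1 * p.2.2.2.2) = (∏ i, (xs p i : ℝ)) ^ 2 := by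
      rw [sq]
      nth_rewrite 2 [h2]
      simp only [xs, ys, Fin.prod_univ_four, Matrix.cons_val_zero, Matrix.cons_val_one,
        Matrix.cons_val]
      ring
    rw [h4, Real.sqrt_sq (Finset.prod_nonneg (fun i _ => Nat.cast_nonneg _))]
  have hL : ∑ k ∈ K Q, ∑ k' ∈ K Q, (if ratio k = ratio k' then W k * W k' else 0) =
      ∑ p ∈ P, W p.1 * W p.2 := by
    rw [hP, Finset.sum_filter, Finset.sum_product]
  rw [hL, Finset.sum_congr rfl hW, ← Finset.sum_image (f := g) hinj]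
  calc ∑ z ∈ P.image Φ, g z ≤ ∑ z ∈ Z, g z := by
        apply Finset.sum_le_sum_of_subset_of_nonneg
        · intro z hz
          obtain ⟨p, hp, rfl⟩ := Finset.mem_image.1 hz
          exact hΦZ p hp
        · intro z _ _
          exact Finset.prod_nonneg (fun i _ => Finset.prod_nonneg (fun j _ => by positivity))
    _ = ∏ i : Fin 4, ∑ u ∈ Fintype.piFinset (fun _ : Fin 4 => Icc 1 Q),
          ∏ j : Fin 4, (1 : ℝ) / u j := by
        rw [Finset.prod_univ_sum]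
    _ = ∏ i : Fin 4, ∏ j : Fin 4, ∑ n ∈ Icc 1 Q, (1 : ℝ) / n := by
        apply Finset.prod_congr rfl
        intro i _
        rw [Finset.prod_univ_sum]
    _ = (∑ n ∈ Icc 1 Q, (1 : ℝ) / n) ^ 16 := by
        simp only [Finset.prod_const, Finset.card_univ, Fintype.card_fin]
        ring

end Pool.Agent.H88.PCDiv
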