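import Mathlib

/-!
# Definitions: pair correlations, additive energy, metric Poissonian sequences
-/

set_option autoImplicit false

namespace Pool.Agent.H88.PCDefs

open Filter Topology Finset MeasureTheory

/-- The distance of a real number to the nearest integer. -/
noncomputable def distInt (y : ℝ) : ℝ := |y - round y|

/-- The number of ordered pairs `(k, l)`, `k ≠ l`, of indices of the first `N` terms of `x` such
that `x k - x l` is at distance less than `δ` from the nearest integer. -/
noncomputable def closePairs (x : ℕ → ℝ) (N : ℕ) (δ : ℝ) : ℕ :=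
  ((range N ×ˢ range N).filter (fun p => p.1 ≠ p.2 ∧ distInt (x p.1 - x p.2) < δ)).card

/-- Poissonian pair correlations. -/
def HasPPC (x : ℕ → ℝ) : Prop :=
  ∀ s : ℝ, 0 < s → Tendsto (fun N : ℕ => (closePairs x N (s / N) : ℝ) / N) atTop (𝓝 (2 * s))

/-- A sequence of integers is metric Poissonian if for Lebesgue almost every real `α` the
fractional parts `{a n * α}` have Poissonian pair correlations. -/
def MetricPoissonian (a : ℕ → ℕ) : Prop :=
  ∀ᵐ α : ℝ, HasPPC (fun n => Int.fract ((a n : ℝ) * α))

/-- The additive energy of the first `N` terms of an integer sequence. -/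
def energy (a : ℕ → ℕ) (N : ℕ) : ℕ :=
  ((range N ×ˢ range N ×ˢ range N ×ˢ range N).filter
    (fun q => a q.1 + a q.2.1 = a q.2.2.1 + a q.2.2.2)).card

/-- `E_N = O(f N)`. -/
def EnergyBigO (a : ℕ → ℕ) (f : ℕ → ℝ) : Prop :=
  ∃ K : ℝ, 0 < K ∧ ∀ᶠ N : ℕ in atTop, (energy a N : ℝ) ≤ K * f N

/-- The function `φ` is a metric Poissonian threshold: every strictly increasing sequence of
positive integers with `E_N = O(N ^ 3 / φ N)` is metric Poissonian. -/
def IsThreshold (φ : ℕ → ℝ) : Prop :=
  ∀ a : ℕ → ℕ, StrictMono a → (∀ n, 0 < a n) →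
    EnergyBigO a (fun N => (N : ℝ) ^ 3 / φ N) → MetricPoissonian a

end Pool.Agent.H88.PCDefs
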