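import Mathlib
import Pool.Agent.H88.PCDefs

/-!
# Pair counts on the circle
-/

set_option autoImplicit false

namespace Pool.Agent.H88.PCBasic

open Filter Topology Finset MeasureTheory Pool.Agent.H88.PCDefs

/-- Pair count on the circle. -/
noncomputable def cp (a : ℕ → ℕ) (N : ℕ) (δ : ℝ) (θ : UnitAddCircle) : ℕ :=
  ((range N ×ˢ range N).filter (fun p => p.1 ≠ p.2 ∧ ‖a p.1 • θ - a p.2 • θ‖ < δ)).card

/-- Normalised pair count. -/
noncomputable def F (a : ℕ → ℕ) (N : ℕ) (s : ℝ) (θ : UnitAddCircle) : ℝ :=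
  (cp a N (s / N) θ : ℝ) / N

/-- Poissonian pair correlations on the circle. -/
def PPCc (a : ℕ → ℕ) (θ : UnitAddCircle) : Prop :=
  ∀ s : ℝ, 0 < s → Tendsto (fun N : ℕ => F a N s θ) atTop (𝓝 (2 * s))

lemma closePairs_eq (a : ℕ → ℕ) (N : ℕ) (δ : ℝ) (α : ℝ) :
    closePairs (fun n => Int.fract ((a n : ℝ) * α)) N δ = cp a N δ (α : UnitAddCircle) := by
  unfold closePairs cp
  congr 1
  apply Finset.filter_congr
  intro p _
  have h : distInt (Int.fract ((a p.1 : ℝ) * α) - Int.fract ((a p.2 : ℝ) * α))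
      = ‖a p.1 • (α : UnitAddCircle) - a p.2 • (α : UnitAddCircle)‖ := by
    unfold distInt
    rw [← UnitAddCircle.norm_eq, AddCircle.coe_sub, AddCircle.coe_fract, AddCircle.coe_fract,
      ← nsmul_eq_mul, ← nsmul_eq_mul, AddCircle.coe_nsmul, AddCircle.coe_nsmul]
  simp only [h]

lemma hasPPC_iff (a : ℕ → ℕ) (α : ℝ) :
    HasPPC (fun n => Int.fract ((a n : ℝ) * α)) ↔ PPCc a (α : UnitAddCircle) := by
  unfold HasPPC PPCc F
  simp only [closePairs_eq]

lemma cp_mono (a : ℕ → ℕ) (N : ℕ) {δ δ' : ℝ} (h : δ ≤ δ') (θ : UnitAddCircle) :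
    cp a N δ θ ≤ cp a N δ' θ := by
  unfold cp
  apply Finset.card_le_card
  intro p hp
  rw [Finset.mem_filter] at hp ⊢
  exact ⟨hp.1, hp.2.1, lt_of_lt_of_le hp.2.2 h⟩

lemma F_mono (a : ℕ → ℕ) (N : ℕ) {s s' : ℝ} (h : s ≤ s') (θ : UnitAddCircle) :
    F a N s θ ≤ F a N s' θ := by
  unfold F
  have h1 : s / N ≤ s' / N := div_le_div_of_nonneg_right h (Nat.cast_nonneg N)
  have h2 : (cp a N (s / N) θ : ℝ) ≤ cp a N (s' / N) θ := by exact_mod_cast cp_mono a N h1 θ
  exact div_le_div_of_nonneg_right h2 (Nat.cast_nonneg N)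

lemma cp_congr {a b : ℕ → ℕ} {N : ℕ} (h : ∀ i < N, a i = b i) (δ : ℝ) (θ : UnitAddCircle) :
    cp a N δ θ = cp b N δ θ := by
  unfold cp
  congr 1
  apply Finset.filter_congr
  intro p hp
  rw [Finset.mem_product, Finset.mem_range, Finset.mem_range] at hp
  rw [h _ hp.1, h _ hp.2]

lemma F_congr {a b : ℕ → ℕ} {N : ℕ} (h : ∀ i < N, a i = b i) (s : ℝ) (θ : UnitAddCircle) :
    F a N s θ = F b N s θ := by
  unfold F
  rw [cp_congr h]

lemma energy_congr {a b : ℕ → ℕ} {N : ℕ} (h : ∀ i < N, a i = b i) : energy a N = energy b N := by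
  unfold energy
  congr 1
  apply Finset.filter_congr
  intro q hq
  simp only [Finset.mem_product, Finset.mem_range] at hq
  rw [h _ hq.1, h _ hq.2.1, h _ hq.2.2.1, h _ hq.2.2.2]

lemma measurable_cp (a : ℕ → ℕ) (N : ℕ) (δ : ℝ) :
    Measurable (fun θ : UnitAddCircle => (cp a N δ θ : ℝ)) := by
  unfold cp
  simp only [Finset.card_filter, Nat.cast_sum, Nat.cast_ite, Nat.cast_one, Nat.cast_zero]
  apply Finset.measurable_sum
  intro p _
  apply Measurable.ite _ measurable_const measurable_const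
  by_cases hp : p.1 = p.2
  · simp [hp]
  · have : {θ : UnitAddCircle | p.1 ≠ p.2 ∧ ‖a p.1 • θ - a p.2 • θ‖ < δ}
        = {θ : UnitAddCircle | ‖a p.1 • θ - a p.2 • θ‖ < δ} := by
      ext θ
      simp [hp]
    rw [this]
    apply IsOpen.measurableSet
    exact isOpen_lt (by fun_prop) continuous_const

lemma measurable_F (a : ℕ → ℕ) (N : ℕ) (s : ℝ) :
    Measurable (fun θ : UnitAddCircle => F a N s θ) := by
  unfold F
  exact (measurable_cp a N _).div_const _

lemma PPCc_of_dense {a : ℕ → ℕ} {θ : UnitAddCircle} (Q : Set ℝ)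
    (hQ : ∀ x y : ℝ, 0 ≤ x → x < y → ∃ q ∈ Q, x < q ∧ q < y)
    (h : ∀ q ∈ Q, 0 < q → Tendsto (fun N : ℕ => F a N q θ) atTop (𝓝 (2 * q))) : PPCc a θ := by
  intro s hs
  rw [tendsto_order]
  constructor
  · intro c hc
    obtain ⟨q, hq, hq1, hq2⟩ := hQ (max 0 (c / 2)) s (le_max_left _ _)
      (max_lt hs (by linarith))
    have h0 : 0 < q := lt_of_le_of_lt (le_max_left _ _) hq1
    have h1 : c / 2 < q := lt_of_le_of_lt (le_max_right _ _) hq1
    have h2 := (tendsto_order.1 (h q hq h0)).1 c (by linarith)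
    filter_upwards [h2] with N hN
    exact lt_of_lt_of_le hN (F_mono a N hq2.le θ)
  · intro c hc
    obtain ⟨q, hq, hq1, hq2⟩ := hQ s (c / 2) hs.le (by linarith)
    have h0 : 0 < q := hs.trans hq1
    have h2 := (tendsto_order.1 (h q hq h0)).2 c (by linarith)
    filter_upwards [h2] with N hN
    exact lt_of_le_of_lt (F_mono a N hq1.le θ) hN

lemma measurableSet_PPCc (a : ℕ → ℕ) : MeasurableSet {θ : UnitAddCircle | PPCc a θ} := by
  have : {θ : UnitAddCircle | PPCc a θ} = ⋂ q : ℚ, {θ : UnitAddCircle |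
      (0 < q → Tendsto (fun N : ℕ => F a N (q : ℝ) θ) atTop (𝓝 (2 * (q : ℝ))))} := by
    ext θ
    simp only [Set.mem_ofPred_eq, Set.mem_iInter]
    constructor
    · intro h q hq
      exact h q (by exact_mod_cast hq)
    · intro h
      apply PPCc_of_dense (Set.range ((↑) : ℚ → ℝ))
      · intro x y _ hxy
        obtain ⟨q, hq1, hq2⟩ := exists_rat_btwn hxy
        exact ⟨q, ⟨q, rfl⟩, hq1, hq2⟩
      · rintro q ⟨r, rfl⟩ hq
        exact h r (by exact_mod_cast hq)
  rw [this]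
  apply MeasurableSet.iInter
  intro q
  by_cases hq : 0 < q
  · simp only [hq, forall_true_left]
    exact measurableSet_tendsto _ (fun N => measurable_F a N q)
  · simp [hq]

lemma metric_iff (a : ℕ → ℕ) :
    MetricPoissonian a ↔ ∀ᵐ θ : UnitAddCircle, PPCc a θ := by
  unfold MetricPoissonian
  simp only [hasPPC_iff]
  constructor
  · intro h
    have h1 := (UnitAddCircle.measurePreserving_mk 0)
    have h2 : ∀ᵐ α : ℝ ∂(volume.restrict (Set.Ioc (0 : ℝ) (0 + 1))), PPCc a (α : UnitAddCircle) :=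
      ae_restrict_of_ae h
    rw [← h1.map_eq]
    rw [ae_map_iff h1.measurable.aemeasurable (measurableSet_PPCc a)]
    exact h2
  · intro h
    have h1 : ∀ n : ℤ, ∀ᵐ α : ℝ ∂(volume.restrict (Set.Ioc (n : ℝ) (n + 1))),
        PPCc a (α : UnitAddCircle) := by
      intro n
      exact (UnitAddCircle.measurePreserving_mk (n : ℝ)).quasiMeasurePreserving.ae h
    have h2 : ∀ᵐ α : ℝ ∂(volume.restrict (⋃ n : ℤ, Set.Ioc (n : ℝ) (n + 1))),
        PPCc a (α : UnitAddCircle) := by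
      rw [ae_restrict_iUnion_iff]
      exact h1
    rw [iUnion_Ioc_intCast] at h2
    simpa using h2

lemma measurePreserving_nsmul' {D : ℕ} (hD : 0 < D) :
    MeasurePreserving (fun θ : UnitAddCircle => D • θ) volume volume := by
  have h := MeasureTheory.Measure.measurePreserving_zsmul (volume : Measure UnitAddCircle)
    (n := (D : ℤ)) (by exact_mod_cast hD.ne')
  simpa using h

end Pool.Agent.H88.PCBasic
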