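import Mathlib
import Pool.Agent.H88.PCBasic

/-!
# Correlation of the events `‖v θ‖ < δ` and `‖w θ‖ < δ`
-/

set_option autoImplicit false

namespace Pool.Agent.H88.PCov

open Filter Topology Finset MeasureTheory Pool.Agent.H88.PCBasic

lemma count_arc {p q : ℕ} (hq : 0 < q) (hpq : Nat.Coprime p q) (y : ℝ) {δ : ℝ} (hδ : 0 < δ) :
    (((range q).filter (fun j : ℕ =>
      ‖((y + (p : ℝ) * j / q : ℝ) : UnitAddCircle)‖ < δ)).card : ℝ) ≤ 2 * δ * q + 1 := by
  classical
  have hq0 : (0 : ℝ) < q := by exact_mod_cast hq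
  set l : ℝ := -(q * y) - q * δ with hl
  set u : ℝ := -(q * y) + q * δ with hu
  let m : ℕ → ℤ := fun j => (p : ℤ) * j - q * round (y + (p : ℝ) * j / q)
  have hcard : ((range q).filter (fun j : ℕ =>
      ‖((y + (p : ℝ) * j / q : ℝ) : UnitAddCircle)‖ < δ)).card ≤ (Finset.Ioo ⌊l⌋ ⌈u⌉).card := by
    apply Finset.card_le_card_of_injOn m
    · intro j hj
      simp only [Finset.coe_filter, Finset.mem_range, Set.mem_ofPred_eq] at hj
      obtain ⟨_, hj2⟩ := hj
      rw [UnitAddCircle.norm_eq, abs_lt] at hj2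
      set x : ℝ := y + (p : ℝ) * j / q with hx
      have e : (m j : ℝ) = q * (x - round x) - q * y := by
        simp only [m]
        push_cast
        rw [hx]
        field_simp
        ring
      simp only [Finset.coe_Ioo, Set.mem_Ioo]
      constructor
      · rw [Int.floor_lt, e, hl]
        nlinarith
      · rw [Int.lt_ceil, e, hu]
        nlinarith
    · intro j hj j' hj' hjj'
      simp only [Finset.coe_filter, Finset.mem_range, Set.mem_ofPred_eq] at hj hj'
      simp only [m] at hjj'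
      have h1 : (p : ℤ) * ((j : ℤ) - j') = q * (round (y + (p : ℝ) * j / q) -
          round (y + (p : ℝ) * j' / q)) := by linarith
      have h2 : (q : ℤ) ∣ (p : ℤ) * ((j : ℤ) - j') := ⟨_, h1⟩
      have h3 : IsCoprime (q : ℤ) (p : ℤ) := (Nat.isCoprime_iff_coprime.2 hpq).symm
      have h4 : (q : ℤ) ∣ ((j : ℤ) - j') := h3.dvd_of_dvd_mul_left h2
      have h5 : ((j : ℤ) - j') = 0 := by
        apply Int.eq_zero_of_abs_lt_dvd h4
        rw [abs_lt]
        omega
      omega
  have h2 : ((Finset.Ioo ⌊l⌋ ⌈u⌉).card : ℝ) ≤ 2 * δ * q + 1 := by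
    rw [Int.card_Ioo]
    rcases le_or_gt (⌈u⌉ - ⌊l⌋ - 1) 0 with h | h
    · rw [Int.toNat_of_nonpos h]
      simp only [Nat.cast_zero]
      positivity
    · have e : (((⌈u⌉ - ⌊l⌋ - 1).toNat : ℤ) : ℝ) = ((⌈u⌉ - ⌊l⌋ - 1 : ℤ) : ℝ) := by
        rw [Int.toNat_of_nonneg h.le]
      have e' : ((⌈u⌉ - ⌊l⌋ - 1).toNat : ℝ) = (((⌈u⌉ - ⌊l⌋ - 1).toNat : ℤ) : ℝ) := by norm_cast
      rw [e', e]
      push_cast
      have h3 := Int.ceil_lt_add_one u
      have h4 := Int.sub_one_lt_floor l
      have h5 : u - l = 2 * δ * q := by rw [hu, hl]; ring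
      linarith
  calc (((range q).filter (fun j : ℕ =>
      ‖((y + (p : ℝ) * j / q : ℝ) : UnitAddCircle)‖ < δ)).card : ℝ)
      ≤ ((Finset.Ioo ⌊l⌋ ⌈u⌉).card : ℝ) := by exact_mod_cast hcard
    _ ≤ _ := h2

lemma vol_lt {δ : ℝ} (hδ : δ ≤ 1 / 2) :
    volume {θ : UnitAddCircle | ‖θ‖ < δ} = ENNReal.ofReal (2 * δ) := by
  have h1 : {θ : UnitAddCircle | ‖θ‖ < δ} = Metric.ball 0 δ := by
    ext θ; simp
  rw [h1, ← measure_congr AddCircle.closedBall_ae_eq_ball, AddCircle.volume_closedBall,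
    min_eq_right (by linarith)]

lemma vol_le (δ : ℝ) : volume {θ : UnitAddCircle | ‖θ‖ < δ} ≤ ENNReal.ofReal (2 * δ) := by
  have h1 : {θ : UnitAddCircle | ‖θ‖ < δ} ⊆ Metric.closedBall 0 δ := by
    intro θ hθ
    simp only [Set.mem_ofPred_eq] at hθ
    simpa using hθ.le
  refine (measure_mono h1).trans ?_
  rw [AddCircle.volume_closedBall]
  exact ENNReal.ofReal_le_ofReal (min_le_right _ _)

lemma measurableSet_lt' (q : ℕ) (δ : ℝ) :
    MeasurableSet {θ : UnitAddCircle | ‖q • θ‖ < δ} := by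
  apply IsOpen.measurableSet
  exact isOpen_lt (by fun_prop) continuous_const

lemma vol_smul {q : ℕ} (hq : 0 < q) (δ : ℝ) :
    volume {θ : UnitAddCircle | ‖q • θ‖ < δ} = volume {θ : UnitAddCircle | ‖θ‖ < δ} := by
  have h := (measurePreserving_nsmul' hq).measure_preimage
    (s := {θ : UnitAddCircle | ‖θ‖ < δ})
    (by simpa using (measurableSet_lt' 1 δ).nullMeasurableSet)
  rw [← h]
  rfl

lemma cov_coprime {p q : ℕ} (hq : 0 < q) (hpq : Nat.Coprime p q) {δ : ℝ} (hδ : 0 < δ) :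
    volume {θ : UnitAddCircle | ‖p • θ‖ < δ ∧ ‖q • θ‖ < δ} ≤
      ENNReal.ofReal (4 * δ ^ 2 + 2 * δ * (1 / q)) := by
  classical
  have hq0 : (0 : ℝ) < q := by exact_mod_cast hq
  set S : Set UnitAddCircle := {θ : UnitAddCircle | ‖p • θ‖ < δ ∧ ‖q • θ‖ < δ} with hS
  have hSm : MeasurableSet S := by
    have : S = {θ : UnitAddCircle | ‖p • θ‖ < δ} ∩ {θ : UnitAddCircle | ‖q • θ‖ < δ} := rfl
    rw [this]
    exact (measurableSet_lt' p δ).inter (measurableSet_lt' q δ)
  let x : ℕ → UnitAddCircle := fun j => ((j : ℝ) / q : ℝ)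
  let Sj : ℕ → Set UnitAddCircle := fun j => (fun θ => θ + x j) ⁻¹' S
  have hSjm : ∀ j, MeasurableSet (Sj j) := fun j =>
    (measurable_add_const (x j)) hSm
  have hvol : ∀ j, volume (Sj j) = volume S := fun j => measure_preimage_add_right _ _ _
  have hqx : ∀ j, q • x j = 0 := by
    intro j
    simp only [x]
    rw [← AddCircle.coe_nsmul, nsmul_eq_mul, mul_div_cancel₀ _ hq0.ne']
    have := AddCircle.coe_eq_zero_iff (p := (1 : ℝ)) (x := (j : ℝ))
    rw [this]
    exact ⟨j, by simp⟩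
  have key : ∑ j ∈ range q, volume (Sj j) ≤
      ENNReal.ofReal (2 * δ * q + 1) * volume {θ : UnitAddCircle | ‖q • θ‖ < δ} := by
    have h1 : ∀ j, volume (Sj j) = ∫⁻ θ, (Sj j).indicator 1 θ := fun j =>
      (lintegral_indicator_one (hSjm j)).symm
    simp only [h1]
    rw [← lintegral_finsetSum _ (fun j _ => measurable_one.indicator (hSjm j)),
      ← lintegral_indicator_one (measurableSet_lt' q δ), ← lintegral_const_mul _
      (measurable_one.indicator (measurableSet_lt' q δ))]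
    apply lintegral_mono
    intro θ
    show ∑ j ∈ range q, (Sj j).indicator 1 θ ≤ ENNReal.ofReal (2 * δ * q + 1) *
      ({θ : UnitAddCircle | ‖q • θ‖ < δ}).indicator 1 θ
    by_cases hθ : ‖q • θ‖ < δ
    · have e1 : ({θ : UnitAddCircle | ‖q • θ‖ < δ}).indicator (1 : UnitAddCircle → ENNReal) θ
          = 1 := by
        rw [Set.indicator_of_mem]; · rfl
        exact hθ
      rw [e1, mul_one]
      obtain ⟨y, rfl⟩ := QuotientAddGroup.mk_surjective θ
      have e2 : ∑ j ∈ range q, (Sj j).indicator (1 : UnitAddCircle → ENNReal)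
          (QuotientAddGroup.mk y) ≤
          (((range q).filter (fun j : ℕ =>
            ‖((p * y + (p : ℝ) * j / q : ℝ) : UnitAddCircle)‖ < δ)).card : ENNReal) := by
        rw [Finset.card_filter]
        push_cast
        apply Finset.sum_le_sum
        intro j _
        by_cases hj : (QuotientAddGroup.mk y : UnitAddCircle) ∈ Sj j
        · have hj' : ‖((p * y + (p : ℝ) * j / q : ℝ) : UnitAddCircle)‖ < δ := by
            have h3 : ‖p • ((y : UnitAddCircle) + x j)‖ < δ := hj.1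
            have h4 : p • ((y : UnitAddCircle) + x j) =
                ((p * y + (p : ℝ) * j / q : ℝ) : UnitAddCircle) := by
              simp only [x]
              rw [← AddCircle.coe_add, ← AddCircle.coe_nsmul, nsmul_eq_mul]
              congr 1
              ring
            rwa [h4] at h3
          rw [Set.indicator_of_mem hj, if_pos hj']
          rfl
        · rw [Set.indicator_of_notMem hj]
          exact bot_le
      refine e2.trans ?_
      rw [← ENNReal.ofReal_natCast]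
      exact ENNReal.ofReal_le_ofReal (count_arc hq hpq (p * y) hδ)
    · have e1 : ∀ j, (Sj j).indicator (1 : UnitAddCircle → ENNReal) θ = 0 := by
        intro j
        rw [Set.indicator_of_notMem]
        intro hmem
        apply hθ
        have h3 : ‖q • (θ + x j)‖ < δ := hmem.2
        rwa [smul_add, hqx, add_zero] at h3
      simp [e1]
  simp only [hvol] at key
  rw [Finset.sum_const, Finset.card_range, nsmul_eq_mul, vol_smul hq] at key
  have k2 : (q : ENNReal) * volume S ≤ ENNReal.ofReal (2 * δ * q + 1) * ENNReal.ofReal (2 * δ) :=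
    key.trans (mul_le_mul_right (vol_le δ) _)
  rw [← ENNReal.ofReal_mul (by positivity)] at k2
  have k3 : volume S ≤ ENNReal.ofReal ((2 * δ * q + 1) * (2 * δ)) / q := by
    rw [ENNReal.le_div_iff_mul_le (Or.inl (by exact_mod_cast hq.ne')) (Or.inl (by finiteness)),
      mul_comm]
    exact k2
  refine k3.trans (le_of_eq ?_)
  rw [← ENNReal.ofReal_natCast, ← ENNReal.ofReal_div_of_pos hq0]
  congr 1
  field_simp
  ring

lemma cov {v w : ℕ} (hv : 0 < v) (hw : 0 < w) {δ : ℝ} (hδ : 0 < δ) :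
    volume {θ : UnitAddCircle | ‖v • θ‖ < δ ∧ ‖w • θ‖ < δ} ≤
      ENNReal.ofReal (4 * δ ^ 2 + 2 * δ * ((Nat.gcd v w : ℝ) / max v w)) := by
  have main : ∀ v w : ℕ, 0 < v → 0 < w → v ≤ w →
      volume {θ : UnitAddCircle | ‖v • θ‖ < δ ∧ ‖w • θ‖ < δ} ≤
      ENNReal.ofReal (4 * δ ^ 2 + 2 * δ * ((Nat.gcd v w : ℝ) / w)) := by
    intro v w hv hw hvw
    have hg : 0 < Nat.gcd v w := Nat.gcd_pos_of_pos_left _ hv
    obtain ⟨p, q, hpq, hp, hq⟩ := Nat.exists_coprime v w
    set g := Nat.gcd v w with hgdef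
    have hq0 : 0 < q := by
      rcases Nat.eq_zero_or_pos q with h | h
      · rw [h, zero_mul] at hq; omega
      · exact h
    have h1 : {θ : UnitAddCircle | ‖v • θ‖ < δ ∧ ‖w • θ‖ < δ} =
        (fun θ => g • θ) ⁻¹' {θ : UnitAddCircle | ‖p • θ‖ < δ ∧ ‖q • θ‖ < δ} := by
      ext θ
      simp only [Set.mem_ofPred_eq, Set.mem_preimage, ← mul_smul, ← hp, ← hq]
    have hm : MeasurableSet {θ : UnitAddCircle | ‖p • θ‖ < δ ∧ ‖q • θ‖ < δ} :=
      (measurableSet_lt' p δ).inter (measurableSet_lt' q δ)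
    rw [h1, (measurePreserving_nsmul' hg).measure_preimage hm.nullMeasurableSet]
    have h2 := cov_coprime hq0 hpq hδ
    have h3 : ((g : ℝ) / w) = 1 / q := by
      have hg' : (g : ℝ) ≠ 0 := by exact_mod_cast hg.ne'
      have hq' : (q : ℝ) ≠ 0 := by exact_mod_cast hq0.ne'
      have : (w : ℝ) = q * g := by exact_mod_cast hq
      rw [this]
      field_simp
    rw [h3]
    exact h2
  rcases le_total v w with h | h
  · rw [max_eq_right h]
    exact main v w hv hw h
  · rw [max_eq_left h, Nat.gcd_comm]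
    have h2 := main w v hw hv h
    have e2 : {θ : UnitAddCircle | ‖v • θ‖ < δ ∧ ‖w • θ‖ < δ} =
        {θ : UnitAddCircle | ‖w • θ‖ < δ ∧ ‖v • θ‖ < δ} := by
      ext θ; simp [and_comm]
    rw [e2]
    exact h2

end Pool.Agent.H88.PCov
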