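import Mathlib
import Pool.Agent.H88.PCov

/-!
# The variance of the pair count
-/

set_option autoImplicit false

namespace Pool.Agent.H88.PCVar

open Filter Topology Finset MeasureTheory Pool.Agent.H88.PCBasic Pool.Agent.H88.PCov

/-- The ordered pairs of distinct indices below `N`. -/
def O (N : ℕ) : Finset (ℕ × ℕ) := (range N ×ˢ range N).filter (fun p => p.1 ≠ p.2)

/-- The distance of the terms of an index pair. -/
def vd (a : ℕ → ℕ) (p : ℕ × ℕ) : ℕ := (a p.1 - a p.2) + (a p.2 - a p.1)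

lemma vd_pos {a : ℕ → ℕ} (ha : StrictMono a) {N : ℕ} {p : ℕ × ℕ} (hp : p ∈ O N) :
    0 < vd a p := by
  unfold O at hp
  rw [Finset.mem_filter] at hp
  unfold vd
  rcases lt_or_gt_of_ne hp.2 with h | h
  · have := ha h; omega
  · have := ha h; omega

lemma card_O (N : ℕ) : (O N).card = N * N - N := by
  have : O N = (range N).offDiag := by
    ext p
    simp only [O, Finset.mem_filter, Finset.mem_product, Finset.mem_offDiag]
    tauto
  rw [this, Finset.offDiag_card, Finset.card_range]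

lemma norm_vd (a : ℕ → ℕ) (p : ℕ × ℕ) (θ : UnitAddCircle) :
    ‖a p.1 • θ - a p.2 • θ‖ = ‖vd a p • θ‖ := by
  rcases le_total (a p.1) (a p.2) with h | h
  · have h1 : vd a p = a p.2 - a p.1 := by unfold vd; omega
    rw [h1, norm_sub_rev]
    congr 1
    obtain ⟨d, hd⟩ := Nat.exists_eq_add_of_le h
    rw [hd, Nat.add_sub_cancel_left, add_smul]
    abel
  · have h1 : vd a p = a p.1 - a p.2 := by unfold vd; omega
    rw [h1]
    congr 1
    obtain ⟨d, hd⟩ := Nat.exists_eq_add_of_le h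
    rw [hd, Nat.add_sub_cancel_left, add_smul]
    abel

/-- Indicator of the event `‖v θ‖ < δ`. -/
noncomputable def X (δ : ℝ) (v : ℕ) (θ : UnitAddCircle) : ℝ :=
  ({θ : UnitAddCircle | ‖v • θ‖ < δ}).indicator (fun _ => (1 : ℝ)) θ

lemma cp_eq (a : ℕ → ℕ) (N : ℕ) (δ : ℝ) (θ : UnitAddCircle) :
    (cp a N δ θ : ℝ) = ∑ p ∈ O N, X δ (vd a p) θ := by
  classical
  unfold cp O
  rw [← Finset.filter_filter, Finset.card_filter]
  push_cast
  apply Finset.sum_congr rfl
  intro p _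
  rw [norm_vd]
  unfold X
  by_cases h : ‖vd a p • θ‖ < δ
  · rw [if_pos h, Set.indicator_of_mem]
    exact h
  · rw [if_neg h, Set.indicator_of_notMem]
    exact h

lemma X_integrable (δ : ℝ) (v : ℕ) : Integrable (fun θ : UnitAddCircle => X δ v θ) := by
  unfold X
  exact (integrable_const (1 : ℝ)).indicator (measurableSet_lt' v δ)

lemma X_integral {δ : ℝ} (hδ0 : 0 ≤ δ) (hδ : δ ≤ 1 / 2) {v : ℕ} (hv : 0 < v) :
    ∫ θ : UnitAddCircle, X δ v θ = 2 * δ := by
  unfold X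
  rw [integral_indicator_const _ (measurableSet_lt' v δ)]
  rw [Measure.real, vol_smul hv, vol_lt hδ, ENNReal.toReal_ofReal (by linarith)]
  simp

lemma XX_eq (δ : ℝ) (v w : ℕ) (θ : UnitAddCircle) :
    X δ v θ * X δ w θ =
      ({θ : UnitAddCircle | ‖v • θ‖ < δ ∧ ‖w • θ‖ < δ}).indicator (fun _ => (1 : ℝ)) θ := by
  unfold X
  by_cases hv : ‖v • θ‖ < δ <;> by_cases hw : ‖w • θ‖ < δ <;>
    simp [Set.indicator, hv, hw]

lemma measurableSet_lt2 (δ : ℝ) (v w : ℕ) :
    MeasurableSet {θ : UnitAddCircle | ‖v • θ‖ < δ ∧ ‖w • θ‖ < δ} :=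
  (measurableSet_lt' v δ).inter (measurableSet_lt' w δ)

lemma XX_integrable (δ : ℝ) (v w : ℕ) :
    Integrable (fun θ : UnitAddCircle => X δ v θ * X δ w θ) := by
  simp only [XX_eq]
  exact (integrable_const (1 : ℝ)).indicator (measurableSet_lt2 δ v w)

/-- The kernel `gcd / max`. -/
noncomputable def G (v w : ℕ) : ℝ := (Nat.gcd v w : ℝ) / (max v w : ℕ)

lemma G_nonneg (v w : ℕ) : 0 ≤ G v w := by unfold G; positivity

lemma XX_integral {δ : ℝ} (hδ0 : 0 < δ) {v w : ℕ} (hv : 0 < v) (hw : 0 < w) :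
    ∫ θ : UnitAddCircle, X δ v θ * X δ w θ ≤ 4 * δ ^ 2 + 2 * δ * G v w := by
  simp only [XX_eq]
  rw [integral_indicator_const _ (measurableSet_lt2 δ v w)]
  rw [Measure.real]
  simp only [smul_eq_mul, mul_one]
  have hG := G_nonneg v w
  apply ENNReal.toReal_le_of_le_ofReal (by positivity)
  exact cov hv hw hδ0

/-- The weighted sum of greatest common divisors. -/
noncomputable def gcdSum (a : ℕ → ℕ) (N : ℕ) : ℝ :=
  ∑ p ∈ O N, ∑ q ∈ O N, G (vd a p) (vd a q)

lemma variance {a : ℕ → ℕ} (ha : StrictMono a) (N : ℕ) {δ : ℝ} (hδ0 : 0 < δ) (hδ : δ ≤ 1 / 2) :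
    ∫ θ : UnitAddCircle, ((cp a N δ θ : ℝ) - 2 * δ * (O N).card) ^ 2 ≤ 2 * δ * gcdSum a N := by
  classical
  set c : ℝ := 2 * δ * (O N).card with hc
  have e1 : ∀ θ : UnitAddCircle, ((cp a N δ θ : ℝ) - c) ^ 2 =
      (∑ p ∈ O N, ∑ q ∈ O N, X δ (vd a p) θ * X δ (vd a q) θ) -
        2 * c * (∑ p ∈ O N, X δ (vd a p) θ) + c ^ 2 := by
    intro θ
    rw [cp_eq, ← Finset.sum_mul_sum]
    ring
  have i1 : Integrable (fun θ : UnitAddCircle => ∑ p ∈ O N, X δ (vd a p) θ) :=
    integrable_finsetSum _ (fun p _ => X_integrable δ _)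
  have i2 : Integrable (fun θ : UnitAddCircle =>
      ∑ p ∈ O N, ∑ q ∈ O N, X δ (vd a p) θ * X δ (vd a q) θ) :=
    integrable_finsetSum _ (fun p _ => integrable_finsetSum _ (fun q _ => XX_integrable δ _ _))
  have m1 : ∫ θ : UnitAddCircle, ∑ p ∈ O N, X δ (vd a p) θ = c := by
    rw [integral_finsetSum _ (fun p _ => X_integrable δ _)]
    rw [Finset.sum_congr rfl (fun p hp => X_integral hδ0.le hδ (vd_pos ha hp))]
    rw [Finset.sum_const, nsmul_eq_mul, hc]
    ring
  have m2 : ∫ θ : UnitAddCircle, ∑ p ∈ O N, ∑ q ∈ O N, X δ (vd a p) θ * X δ (vd a q) θ ≤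
      c ^ 2 + 2 * δ * gcdSum a N := by
    rw [integral_finsetSum _ (fun p _ => integrable_finsetSum _
      (fun q _ => XX_integrable δ _ _))]
    have : ∀ p ∈ O N, ∫ θ : UnitAddCircle, ∑ q ∈ O N, X δ (vd a p) θ * X δ (vd a q) θ ≤
        ∑ q ∈ O N, (4 * δ ^ 2 + 2 * δ * G (vd a p) (vd a q)) := by
      intro p hp
      rw [integral_finsetSum _ (fun q _ => XX_integrable δ _ _)]
      exact Finset.sum_le_sum (fun q hq => XX_integral hδ0 (vd_pos ha hp) (vd_pos ha hq))
    refine (Finset.sum_le_sum this).trans (le_of_eq ?_)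
    simp only [Finset.sum_add_distrib, Finset.sum_const, nsmul_eq_mul]
    unfold gcdSum
    rw [hc]
    simp only [← Finset.mul_sum]
    ring
  calc ∫ θ : UnitAddCircle, ((cp a N δ θ : ℝ) - c) ^ 2
      = ∫ θ : UnitAddCircle, ((∑ p ∈ O N, ∑ q ∈ O N, X δ (vd a p) θ * X δ (vd a q) θ) -
        2 * c * (∑ p ∈ O N, X δ (vd a p) θ) + c ^ 2) := by simp only [e1]
    _ = (∫ θ : UnitAddCircle, ∑ p ∈ O N, ∑ q ∈ O N, X δ (vd a p) θ * X δ (vd a q) θ) -
        2 * c * c + c ^ 2 := by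
        have h1 : Integrable (fun θ : UnitAddCircle => 2 * c * (∑ p ∈ O N, X δ (vd a p) θ)) :=
          i1.const_mul (2 * c)
        have h2 : Integrable (fun θ : UnitAddCircle =>
            (∑ p ∈ O N, ∑ q ∈ O N, X δ (vd a p) θ * X δ (vd a q) θ) -
            2 * c * (∑ p ∈ O N, X δ (vd a p) θ)) := i2.sub h1
        have hu : (volume : Measure UnitAddCircle).real Set.univ = 1 := by
          rw [Measure.real, UnitAddCircle.measure_univ]; rfl
        rw [integral_add h2 (integrable_const _), integral_sub i2 h1, integral_const_mul, m1]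
        simp [hu]
    _ ≤ 2 * δ * gcdSum a N := by nlinarith

end Pool.Agent.H88.PCVar
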