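import Mathlib
import Pool.Agent.H88.PCVar

/-!
# The multiplicative energy of the differences of a finite set of integers

A Szemerédi–Trotter type estimate for Cartesian products, proved by decomposing the grid into
square cells: the number of quadruples of pairs with the same ratio of differences is at most
`O(N ^ 6 log N)`.
-/

set_option autoImplicit false

namespace Pool.Agent.H88.PCLines

open Finset Pool.Agent.H88.PCVar

/-- Same cell of side `m`. -/
def SameCell (m : ℕ) (P P' : ℕ × ℕ) : Prop := P.1 / m = P'.1 / m ∧ P.2 / m = P'.2 / m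

instance (m : ℕ) (P P' : ℕ × ℕ) : Decidable (SameCell m P P') := by
  unfold SameCell; infer_instance

/-- Pairs of points of `L` in a common cell. -/
def cellPairs (m : ℕ) (L : Finset (ℕ × ℕ)) : Finset ((ℕ × ℕ) × (ℕ × ℕ)) :=
  (L ×ˢ L).filter (fun p => p.1.1 ≠ p.2.1 ∧ SameCell m p.1 p.2)

lemma chain_cells {L : Finset (ℕ × ℕ)}
    (hL : ∀ P ∈ L, ∀ P' ∈ L, P ≠ P' → (P.1 < P'.1 ∧ P.2 < P'.2) ∨ (P'.1 < P.1 ∧ P'.2 < P.2))
    {m B : ℕ} (hB : ∀ P ∈ L, P.1 / m + P.2 / m < B) : L.card ≤ B + (cellPairs m L).card := by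
  classical
  have h1 : L.card = ∑ b ∈ range B, (L.filter (fun P => P.1 / m + P.2 / m = b)).card :=
    Finset.card_eq_sum_card_fiberwise (fun P hP => Finset.mem_coe.2 (Finset.mem_range.2 (hB P hP)))
  have h2 : (cellPairs m L).card = ∑ b ∈ range B,
      ((cellPairs m L).filter (fun p => p.1.1 / m + p.1.2 / m = b)).card := by
    apply Finset.card_eq_sum_card_fiberwise
    intro p hp
    have hp' : p ∈ cellPairs m L := hp
    unfold cellPairs at hp'
    rw [Finset.mem_filter, Finset.mem_product] at hp'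
    exact Finset.mem_coe.2 (Finset.mem_range.2 (hB p.1 hp'.1.1))
  have h3 : ∀ b ∈ range B, (L.filter (fun P => P.1 / m + P.2 / m = b)).card ≤
      1 + ((cellPairs m L).filter (fun p => p.1.1 / m + p.1.2 / m = b)).card := by
    intro b _
    set Lb := L.filter (fun P => P.1 / m + P.2 / m = b) with hLb
    have h4 : Lb.offDiag ⊆ (cellPairs m L).filter (fun p => p.1.1 / m + p.1.2 / m = b) := by
      intro p hp
      rw [Finset.mem_offDiag, hLb, Finset.mem_filter, Finset.mem_filter] at hp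
      obtain ⟨⟨hp1, hp2⟩, ⟨hp3, hp4⟩, hp5⟩ := hp
      unfold cellPairs
      rw [Finset.mem_filter, Finset.mem_filter, Finset.mem_product]
      have hc : p.1.1 ≠ p.2.1 ∧ SameCell m p.1 p.2 := by
        rcases hL p.1 hp1 p.2 hp3 hp5 with ⟨h, h'⟩ | ⟨h, h'⟩
        · have e1 : p.1.1 / m ≤ p.2.1 / m := Nat.div_le_div_right h.le
          have e2 : p.1.2 / m ≤ p.2.2 / m := Nat.div_le_div_right h'.le
          exact ⟨h.ne, by unfold SameCell; omega⟩
        · have e1 : p.2.1 / m ≤ p.1.1 / m := Nat.div_le_div_right h.le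
          have e2 : p.2.2 / m ≤ p.1.2 / m := Nat.div_le_div_right h'.le
          exact ⟨h.ne', by unfold SameCell; omega⟩
      exact ⟨⟨⟨hp1, hp3⟩, hc⟩, hp2⟩
    have h5 := Finset.card_le_card h4
    rw [Finset.offDiag_card] at h5
    rcases Nat.eq_zero_or_pos Lb.card with h0 | h0
    · rw [h0]; exact Nat.zero_le _
    · have h6 : Lb.card * Lb.card ≥ Lb.card + (Lb.card - 1) := by
        obtain ⟨k, hk⟩ : ∃ k, Lb.card = k + 1 := ⟨Lb.card - 1, by omega⟩
        rw [hk]
        simp only [Nat.add_sub_cancel]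
        nlinarith
      omega
  rw [h1, h2]
  calc ∑ b ∈ range B, (L.filter (fun P => P.1 / m + P.2 / m = b)).card
      ≤ ∑ b ∈ range B,
        (1 + ((cellPairs m L).filter (fun p => p.1.1 / m + p.1.2 / m = b)).card) :=
        Finset.sum_le_sum h3
    _ = _ := by rw [Finset.sum_add_distrib]; simp

lemma exists_scale {N : ℕ} {L : Finset (ℕ × ℕ)} (hLN : L ⊆ range N ×ˢ range N)
    (hL : ∀ P ∈ L, ∀ P' ∈ L, P ≠ P' → (P.1 < P'.1 ∧ P.2 < P'.2) ∨ (P'.1 < P.1 ∧ P'.2 < P.2))
    (h2 : 2 ≤ L.card) : ∃ f ≤ Nat.log 2 N + 2,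
      L.card ^ 3 * (2 ^ f) ^ 2 ≤ 256 * N ^ 2 * (cellPairs (2 ^ f) L).card := by
  classical
  set t := L.card with ht
  have htN : t ≤ N := by
    have : L.card ≤ (range N).card := by
      apply Finset.card_le_card_of_injOn (fun P => P.1)
      · intro P hP
        have := hLN hP
        rw [Finset.mem_product] at this
        exact this.1
      · intro P hP P' hP' h
        by_contra hne
        rcases hL P hP P' hP' hne with h' | h'
        · exact absurd h (by simpa using h'.1.ne)
        · exact absurd h (by simpa using h'.1.ne')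
    simpa using this
  set u := 4 * N / t with hu
  have hu0 : u ≠ 0 := by
    have : 4 ≤ u := by
      rw [hu, Nat.le_div_iff_mul_le (by omega)]
      nlinarith
    omega
  set f := Nat.log 2 u + 1 with hf
  set m := 2 ^ f with hm
  have hm1 : u < m := Nat.lt_pow_succ_log_self (by norm_num) u
  have hm2 : m ≤ 2 * u := by
    have := Nat.pow_log_le_self 2 hu0
    rw [hm, hf, pow_succ]
    omega
  have htm1 : 4 * N < t * m := by
    have h1 : 4 * N < t * (u + 1) := by
      have := Nat.lt_mul_div_succ (4 * N) (show 0 < t by omega)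
      rw [hu]
      exact this
    exact lt_of_lt_of_le h1 (Nat.mul_le_mul_left t hm1)
  have htm2 : t * m ≤ 8 * N := by
    have h1 : t * u ≤ 4 * N := Nat.mul_div_le _ _
    calc t * m ≤ t * (2 * u) := Nat.mul_le_mul_left t hm2
      _ = 2 * (t * u) := by ring
      _ ≤ 8 * N := by omega
  have hmpos : 0 < m := by positivity
  refine ⟨f, ?_, ?_⟩
  · have h1 : u ≤ 2 * N := by
      rw [hu]
      apply Nat.div_le_of_le_mul
      nlinarith
    have h3 : Nat.log 2 u ≤ Nat.log 2 (2 * N) := Nat.log_mono_right h1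
    have h4 : Nat.log 2 (2 * N) = Nat.log 2 N + 1 := by
      rw [mul_comm, Nat.log_mul_base (by norm_num) (by omega)]
    omega
  · set k := (N - 1) / m with hk
    have hB : ∀ P ∈ L, P.1 / m + P.2 / m < 2 * k + 1 := by
      intro P hP
      have := hLN hP
      rw [Finset.mem_product, Finset.mem_range, Finset.mem_range] at this
      have e1 : P.1 / m ≤ k := Nat.div_le_div_right (by omega)
      have e2 : P.2 / m ≤ k := Nat.div_le_div_right (by omega)
      omega
    have h3 := chain_cells hL hB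
    rw [← ht] at h3
    have h4 : 4 * k < t := by
      have h5 : k * m ≤ N - 1 := Nat.div_mul_le_self _ _
      have h6 : 4 * k * m < t * m := by
        calc 4 * k * m = 4 * (k * m) := by ring
          _ ≤ 4 * (N - 1) := Nat.mul_le_mul_left 4 h5
          _ ≤ 4 * N := by omega
          _ < t * m := htm1
      exact lt_of_mul_lt_mul_right h6 (Nat.zero_le m)
    set d := (cellPairs m L).card with hd
    have h7 : t ≤ 4 * d := by omega
    calc t ^ 3 * m ^ 2 = t * (t * m) ^ 2 := by ring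
      _ ≤ 4 * d * (8 * N) ^ 2 := by gcongr
      _ = 256 * N ^ 2 * d := by ring

/-! ### Lines -/

/-- The label of a point on the lines of slope `l`. -/
def label (a : ℕ → ℕ) (l : ℚ) (P : ℕ × ℕ) : ℚ := (a P.2 : ℚ) - l * a P.1

/-- Pairs of points with distinct abscissa on a common line of slope `l`. -/
def linePairs (a : ℕ → ℕ) (N : ℕ) (l : ℚ) : Finset ((ℕ × ℕ) × (ℕ × ℕ)) :=
  ((range N ×ˢ range N) ×ˢ (range N ×ˢ range N)).filter
    (fun p => p.1.1 ≠ p.2.1 ∧ label a l p.1 = label a l p.2)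

lemma chain_of_label {a : ℕ → ℕ} (ha : StrictMono a) {l : ℚ} (hl : 0 < l) {P P' : ℕ × ℕ}
    (h : label a l P = label a l P') (hne : P ≠ P') :
    (P.1 < P'.1 ∧ P.2 < P'.2) ∨ (P'.1 < P.1 ∧ P'.2 < P.2) := by
  unfold label at h
  rcases lt_trichotomy P.1 P'.1 with h1 | h1 | h1
  · left
    refine ⟨h1, ?_⟩
    have h2 : (a P.1 : ℚ) < a P'.1 := by exact_mod_cast ha h1
    have h3 : (a P.2 : ℚ) < a P'.2 := by
      have := mul_lt_mul_of_pos_left h2 hl
      linarith
    exact ha.lt_iff_lt.1 (by exact_mod_cast h3)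
  · exfalso
    rw [h1] at h
    have h3 : (a P.2 : ℚ) = a P'.2 := by linarith
    exact hne (Prod.ext h1 (ha.injective (by exact_mod_cast h3)))
  · right
    refine ⟨h1, ?_⟩
    have h2 : (a P'.1 : ℚ) < a P.1 := by exact_mod_cast ha h1
    have h3 : (a P'.2 : ℚ) < a P.2 := by
      have := mul_lt_mul_of_pos_left h2 hl
      linarith
    exact ha.lt_iff_lt.1 (by exact_mod_cast h3)

/-- Pairs of points on a common line of slope `l` and in a common cell. -/
def lineCellPairs (a : ℕ → ℕ) (N m : ℕ) (l : ℚ) : Finset ((ℕ × ℕ) × (ℕ × ℕ)) :=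
  (linePairs a N l).filter (fun p => SameCell m p.1 p.2)

lemma slope_sq {a : ℕ → ℕ} (ha : StrictMono a) (N : ℕ) {l : ℚ} (hl : 0 < l) :
    ((linePairs a N l).card : ℝ) ^ 2 ≤ (N : ℝ) ^ 2 *
      ∑ f ∈ range (Nat.log 2 N + 3), 256 * (N : ℝ) ^ 2 *
        ((lineCellPairs a N (2 ^ f) l).card / (2 ^ f : ℝ) ^ 2) := by
  classical
  set G := range N ×ˢ range N with hG
  set C := G.image (label a l) with hC
  let L : ℚ → Finset (ℕ × ℕ) := fun c => G.filter (fun P => label a l P = c)
  set C2 := C.filter (fun c => 2 ≤ (L c).card) with hC2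
  have hchain : ∀ c, ∀ P ∈ L c, ∀ P' ∈ L c, P ≠ P' →
      (P.1 < P'.1 ∧ P.2 < P'.2) ∨ (P'.1 < P.1 ∧ P'.2 < P.2) := by
    intro c P hP P' hP' hne
    have h1 := (Finset.mem_filter.1 hP).2
    have h2 := (Finset.mem_filter.1 hP').2
    exact chain_of_label ha hl (h1.trans h2.symm) hne
  -- fibres of the pairs
  have hmap : ∀ p ∈ linePairs a N l, label a l p.1 ∈ C := by
    intro p hp
    unfold linePairs at hp
    rw [Finset.mem_filter, Finset.mem_product] at hp
    exact Finset.mem_image_of_mem _ hp.1.1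
  have h1 : (linePairs a N l).card = ∑ c ∈ C,
      ((linePairs a N l).filter (fun p => label a l p.1 = c)).card :=
    Finset.card_eq_sum_card_fiberwise (fun p hp => hmap p hp)
  have hfib : ∀ c, (linePairs a N l).filter (fun p => label a l p.1 = c) ⊆ (L c) ×ˢ (L c) := by
    intro c p hp
    rw [Finset.mem_filter] at hp
    unfold linePairs at hp
    rw [Finset.mem_filter, Finset.mem_product] at hp
    rw [Finset.mem_product]
    exact ⟨Finset.mem_filter.2 ⟨hp.1.1.1, hp.2⟩,
      Finset.mem_filter.2 ⟨hp.1.1.2, hp.1.2.2 ▸ hp.2⟩⟩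
  have h2 : (linePairs a N l).card ≤ ∑ c ∈ C2, (L c).card ^ 2 := by
    rw [h1, hC2, Finset.sum_filter]
    apply Finset.sum_le_sum
    intro c _
    split_ifs with hc
    · refine (Finset.card_le_card (hfib c)).trans (le_of_eq ?_)
      rw [Finset.card_product, sq]
    · rw [Nat.le_zero, Finset.card_eq_zero, Finset.eq_empty_iff_forall_notMem]
      intro p hp
      have h3 := hfib c hp
      rw [Finset.mem_product] at h3
      have h4 : p.1 = p.2 := Finset.card_le_one.1 (by omega) _ h3.1 _ h3.2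
      rw [Finset.mem_filter] at hp
      unfold linePairs at hp
      rw [Finset.mem_filter] at hp
      exact hp.1.2.1 (by rw [h4])
  have h3 : ((linePairs a N l).card : ℝ) ≤ ∑ c ∈ C2, ((L c).card : ℝ) ^ 2 := by
    exact_mod_cast h2
  have hCS : (∑ c ∈ C2, ((L c).card : ℝ) ^ 2) ^ 2 ≤
      (∑ c ∈ C2, ((L c).card : ℝ)) * ∑ c ∈ C2, ((L c).card : ℝ) ^ 3 := by
    apply Finset.sum_sq_le_sum_mul_sum_of_sq_le_mul
    · intro c _; positivity
    · intro c _; positivity
    · intro c _; exact le_of_eq (by ring)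
  have h4 : (∑ c ∈ C2, ((L c).card : ℝ)) ≤ (N : ℝ) ^ 2 := by
    have e1 : G.card = ∑ c ∈ C, (L c).card :=
      Finset.card_eq_sum_card_fiberwise (fun P hP => Finset.mem_image_of_mem _ hP)
    have e2 : ∑ c ∈ C2, (L c).card ≤ ∑ c ∈ C, (L c).card :=
      Finset.sum_le_sum_of_subset (Finset.filter_subset _ _)
    have e3 : G.card = N ^ 2 := by simp [hG, sq]
    have e4 : ∑ c ∈ C2, (L c).card ≤ N ^ 2 := by omega
    exact_mod_cast e4
  have h5 : ∑ c ∈ C2, ((L c).card : ℝ) ^ 3 ≤
      ∑ f ∈ range (Nat.log 2 N + 3), 256 * (N : ℝ) ^ 2 *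
        ((lineCellPairs a N (2 ^ f) l).card / (2 ^ f : ℝ) ^ 2) := by
    have e1 : ∀ c ∈ C2, ((L c).card : ℝ) ^ 3 ≤
        ∑ f ∈ range (Nat.log 2 N + 3), 256 * (N : ℝ) ^ 2 *
          ((cellPairs (2 ^ f) (L c)).card / (2 ^ f : ℝ) ^ 2) := by
      intro c hc
      rw [hC2, Finset.mem_filter] at hc
      obtain ⟨f, hf, hle⟩ := exists_scale (Finset.filter_subset _ G) (hchain c) hc.2
      have hle' : ((L c).card : ℝ) ^ 3 * (2 ^ f : ℝ) ^ 2 ≤
          256 * (N : ℝ) ^ 2 * (cellPairs (2 ^ f) (L c)).card := by exact_mod_cast hle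
      have e2 : ((L c).card : ℝ) ^ 3 ≤ 256 * (N : ℝ) ^ 2 *
          ((cellPairs (2 ^ f) (L c)).card / (2 ^ f : ℝ) ^ 2) := by
        rw [← mul_div_assoc, le_div_iff₀ (by positivity)]
        exact hle'
      refine e2.trans ?_
      exact Finset.single_le_sum (f := fun f : ℕ => 256 * (N : ℝ) ^ 2 *
          ((cellPairs (2 ^ f) (L c)).card / (2 ^ f : ℝ) ^ 2)) (fun f _ => by positivity)
          (Finset.mem_range.2 (by omega))
    refine (Finset.sum_le_sum e1).trans ?_
    rw [Finset.sum_comm]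
    apply Finset.sum_le_sum
    intro f _
    rw [← Finset.mul_sum, ← Finset.sum_div]
    apply mul_le_mul_of_nonneg_left _ (by positivity)
    apply div_le_div_of_nonneg_right _ (by positivity)
    have e3 : ∑ c ∈ C2, (cellPairs (2 ^ f) (L c)).card ≤ (lineCellPairs a N (2 ^ f) l).card := by
      rw [← Finset.card_biUnion]
      · apply Finset.card_le_card
        intro p hp
        rw [Finset.mem_biUnion] at hp
        obtain ⟨c, _, hp⟩ := hp
        unfold cellPairs at hp
        rw [Finset.mem_filter, Finset.mem_product] at hp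
        obtain ⟨⟨hp1, hp2⟩, hp3, hp4⟩ := hp
        have g1 := Finset.mem_filter.1 hp1
        have g2 := Finset.mem_filter.1 hp2
        unfold lineCellPairs linePairs
        rw [Finset.mem_filter, Finset.mem_filter, Finset.mem_product]
        exact ⟨⟨⟨g1.1, g2.1⟩, hp3, g1.2.trans g2.2.symm⟩, hp4⟩
      · intro c _ c' _ hcc'
        rw [Function.onFun, Finset.disjoint_left]
        intro p hp hp'
        unfold cellPairs at hp hp'
        rw [Finset.mem_filter, Finset.mem_product] at hp hp'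
        have g1 := (Finset.mem_filter.1 hp.1.1).2
        have g2 := (Finset.mem_filter.1 hp'.1.1).2
        exact hcc' (g1.symm.trans g2)
    exact_mod_cast e3
  have h6 : ((linePairs a N l).card : ℝ) ^ 2 ≤ (∑ c ∈ C2, ((L c).card : ℝ) ^ 2) ^ 2 :=
    pow_le_pow_left₀ (Nat.cast_nonneg _) h3 2
  have h7 : (0 : ℝ) ≤ ∑ c ∈ C2, ((L c).card : ℝ) ^ 3 :=
    Finset.sum_nonneg (fun c _ => pow_nonneg (Nat.cast_nonneg _) 3)
  exact h6.trans (hCS.trans (mul_le_mul h4 h5 h7 (sq_nonneg _)))

lemma sum_cells {a : ℕ → ℕ} (ha : StrictMono a) (N : ℕ) {m : ℕ} (hm : 0 < m) (S : Finset ℚ) :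
    ∑ l ∈ S, (lineCellPairs a N m l).card ≤ N ^ 2 * m ^ 2 := by
  classical
  rw [← Finset.card_biUnion]
  · -- map a pair to (P, P'.1 % m, P'.2 % m)
    have h1 : (S.biUnion (lineCellPairs a N m)).card ≤
        ((range N ×ˢ range N) ×ˢ (range m ×ˢ range m)).card := by
      apply Finset.card_le_card_of_injOn (fun p => (p.1, (p.2.1 % m, p.2.2 % m)))
      · intro p hp
        have hp' : p ∈ S.biUnion (lineCellPairs a N m) := hp
        rw [Finset.mem_biUnion] at hp'
        obtain ⟨l, _, hp'⟩ := hp'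
        unfold lineCellPairs linePairs at hp'
        rw [Finset.mem_filter, Finset.mem_filter, Finset.mem_product] at hp'
        exact Finset.mem_coe.2 (Finset.mem_product.2 ⟨hp'.1.1.1, Finset.mem_product.2
          ⟨Finset.mem_range.2 (Nat.mod_lt _ hm), Finset.mem_range.2 (Nat.mod_lt _ hm)⟩⟩)
      · intro p hp p' hp' h
        have hq : p ∈ S.biUnion (lineCellPairs a N m) := hp
        have hq' : p' ∈ S.biUnion (lineCellPairs a N m) := hp'
        rw [Finset.mem_biUnion] at hq hq'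
        obtain ⟨l, _, hq⟩ := hq
        obtain ⟨l', _, hq'⟩ := hq'
        unfold lineCellPairs at hq hq'
        rw [Finset.mem_filter] at hq hq'
        have c1 := hq.2
        have c2 := hq'.2
        unfold SameCell at c1 c2
        simp only [Prod.mk.injEq] at h
        obtain ⟨h1, h2, h3⟩ := h
        rw [← h1] at c2
        have e1 : p.2.1 = p'.2.1 := by
          rw [← Nat.div_add_mod p.2.1 m, ← Nat.div_add_mod p'.2.1 m, ← c1.1, ← c2.1, h2]
        have e2 : p.2.2 = p'.2.2 := by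
          rw [← Nat.div_add_mod p.2.2 m, ← Nat.div_add_mod p'.2.2 m, ← c1.2, ← c2.2, h3]
        exact Prod.ext h1 (Prod.ext e1 e2)
    refine h1.trans (le_of_eq ?_)
    simp only [Finset.card_product, Finset.card_range]
    ring
  · intro l _ l' _ hll'
    rw [Function.onFun, Finset.disjoint_left]
    intro p hp hp'
    unfold lineCellPairs linePairs at hp hp'
    rw [Finset.mem_filter, Finset.mem_filter] at hp hp'
    obtain ⟨⟨_, h1, h2⟩, _⟩ := hp
    obtain ⟨⟨_, _, h3⟩, _⟩ := hp'
    unfold label at h2 h3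
    apply hll'
    have h4 : (a p.1.1 : ℚ) - a p.2.1 ≠ 0 := by
      intro h
      apply h1
      apply ha.injective
      have : (a p.1.1 : ℚ) = a p.2.1 := by linarith
      exact_mod_cast this
    have h5 : (l - l') * ((a p.1.1 : ℚ) - a p.2.1) = 0 := by linarith
    rcases mul_eq_zero.1 h5 with h | h
    · linarith
    · exact absurd h h4

/-- The fourth moment bound. -/
lemma fourth {a : ℕ → ℕ} (ha : StrictMono a) (N : ℕ) (S : Finset ℚ) (hS : ∀ l ∈ S, 0 < l) :
    ∑ l ∈ S, ((linePairs a N l).card : ℝ) ^ 2 ≤ 256 * (N : ℝ) ^ 6 * (Nat.log 2 N + 3 : ℕ) := by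
  calc ∑ l ∈ S, ((linePairs a N l).card : ℝ) ^ 2
      ≤ ∑ l ∈ S, (N : ℝ) ^ 2 * ∑ f ∈ range (Nat.log 2 N + 3), 256 * (N : ℝ) ^ 2 *
        ((lineCellPairs a N (2 ^ f) l).card / (2 ^ f : ℝ) ^ 2) :=
        Finset.sum_le_sum (fun l hl => slope_sq ha N (hS l hl))
    _ = (N : ℝ) ^ 2 * ∑ f ∈ range (Nat.log 2 N + 3), 256 * (N : ℝ) ^ 2 *
        ((∑ l ∈ S, ((lineCellPairs a N (2 ^ f) l).card : ℝ)) / (2 ^ f : ℝ) ^ 2) := by
        rw [← Finset.mul_sum, Finset.sum_comm]
        congr 1
        apply Finset.sum_congr rfl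
        intro f _
        rw [← Finset.mul_sum, ← Finset.sum_div]
    _ ≤ (N : ℝ) ^ 2 * ∑ f ∈ range (Nat.log 2 N + 3), 256 * (N : ℝ) ^ 2 * (N : ℝ) ^ 2 := by
        apply mul_le_mul_of_nonneg_left _ (by positivity)
        apply Finset.sum_le_sum
        intro f _
        apply mul_le_mul_of_nonneg_left _ (by positivity)
        rw [div_le_iff₀ (by positivity)]
        exact_mod_cast sum_cells ha N (show 0 < 2 ^ f by positivity) S
    _ = 256 * (N : ℝ) ^ 6 * (Nat.log 2 N + 3 : ℕ) := by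
        rw [Finset.sum_const, Finset.card_range, nsmul_eq_mul]
        ring

end Pool.Agent.H88.PCLines
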