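import Mathlib
import Pool.Agent.H88.PCLines
import Pool.Agent.H88.PCDiv

/-!
# A bound for the GCD sum of the differences in terms of the additive energy
-/

set_option autoImplicit false

namespace Pool.Agent.H88.PCGcd

open Finset Pool.Agent.H88.PCDefs Pool.Agent.H88.PCVar Pool.Agent.H88.PCLines Pool.Agent.H88.PCDiv

/-- The truncated kernel. -/
noncomputable def B (Q v w : ℕ) : ℝ :=
  ∑ m ∈ Icc 1 Q, ∑ n ∈ Icc 1 Q, if v * n = w * m then 1 / Real.sqrt ((m : ℝ) * n) else 0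

lemma B_nonneg (Q v w : ℕ) : 0 ≤ B Q v w := by
  unfold B
  apply Finset.sum_nonneg; intro m _
  apply Finset.sum_nonneg; intro n _
  split_ifs
  · positivity
  · exact le_rfl

lemma G_le {Q v w : ℕ} (hQ : 0 < Q) (hv : 0 < v) (hw : 0 < w) :
    G v w ≤ 1 / Q + B (Q ^ 2) v w / ∑ k ∈ Icc 1 Q, (1 : ℝ) / k := by
  classical
  obtain ⟨p, q, hpq, hp, hq⟩ := Nat.exists_coprime v w
  set g := Nat.gcd v w with hg
  have hg0 : 0 < g := Nat.gcd_pos_of_pos_left _ hv
  have hp0 : 0 < p := by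
    rcases Nat.eq_zero_or_pos p with h | h
    · rw [h, zero_mul] at hp; omega
    · exact h
  have hq0 : 0 < q := by
    rcases Nat.eq_zero_or_pos q with h | h
    · rw [h, zero_mul] at hq; omega
    · exact h
  have hmax : (max v w : ℕ) = max p q * g := by
    rw [hp, hq, Nat.mul_max_mul_right]
  have hG : G v w = 1 / (max p q : ℕ) := by
    unfold G
    rw [hmax, ← hg]
    have h1 : (g : ℝ) ≠ 0 := by exact_mod_cast hg0.ne'
    have h2 : ((max p q : ℕ) : ℝ) ≠ 0 := by
      have : 0 < max p q := lt_max_of_lt_left hp0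
      exact_mod_cast this.ne'
    rw [Nat.cast_mul]
    field_simp
  have hQ' : (0 : ℝ) < Q := by exact_mod_cast hQ
  set H : ℝ := ∑ k ∈ Icc 1 Q, (1 : ℝ) / k with hH
  have hH0 : 0 < H := by
    rw [hH]
    apply Finset.sum_pos
    · intro k hk
      have : (0 : ℝ) < k := by exact_mod_cast (Finset.mem_Icc.1 hk).1
      positivity
    · exact ⟨1, Finset.mem_Icc.2 ⟨le_rfl, hQ⟩⟩
  rcases le_or_gt (max p q) Q with h | h
  · have hpQ : p ≤ Q := (le_max_left _ _).trans h
    have hqQ : q ≤ Q := (le_max_right _ _).trans h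
    have hp0' : (0 : ℝ) < p := by exact_mod_cast hp0
    have hq0' : (0 : ℝ) < q := by exact_mod_cast hq0
    -- the multiples of `(p, q)`
    have e1 : H * (1 / ((max p q : ℕ) : ℝ)) ≤ B (Q ^ 2) v w := by
      have e2 : B (Q ^ 2) v w = ∑ x ∈ Icc 1 (Q ^ 2) ×ˢ Icc 1 (Q ^ 2),
          if v * x.2 = w * x.1 then 1 / Real.sqrt ((x.1 : ℝ) * x.2) else 0 := by
        unfold B
        rw [Finset.sum_product]
      have hinj : Set.InjOn (fun k : ℕ => (k * p, k * q)) (Icc 1 Q : Finset ℕ) := by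
        intro k _ k' _ hkk'
        simp only [Prod.mk.injEq] at hkk'
        exact Nat.eq_of_mul_eq_mul_right hp0 hkk'.1
      have e3 : ∑ k ∈ Icc 1 Q, 1 / Real.sqrt (((k * p : ℕ) : ℝ) * (k * q : ℕ)) ≤
          B (Q ^ 2) v w := by
        rw [e2]
        have e4 : ∑ k ∈ Icc 1 Q, 1 / Real.sqrt (((k * p : ℕ) : ℝ) * (k * q : ℕ)) =
            ∑ x ∈ (Icc 1 Q).image (fun k : ℕ => (k * p, k * q)),
              if v * x.2 = w * x.1 then 1 / Real.sqrt ((x.1 : ℝ) * x.2) else 0 := by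
          rw [Finset.sum_image hinj]
          apply Finset.sum_congr rfl
          intro k _
          rw [if_pos]
          rw [hp, hq]; ring
        rw [e4]
        apply Finset.sum_le_sum_of_subset_of_nonneg
        · intro x hx
          obtain ⟨k, hk, rfl⟩ := Finset.mem_image.1 hx
          obtain ⟨hk1, hk2⟩ := Finset.mem_Icc.1 hk
          rw [Finset.mem_product, Finset.mem_Icc, Finset.mem_Icc]
          refine ⟨⟨Nat.mul_pos hk1 hp0, ?_⟩, ⟨Nat.mul_pos hk1 hq0, ?_⟩⟩
          · rw [sq]; exact Nat.mul_le_mul hk2 hpQ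
          · rw [sq]; exact Nat.mul_le_mul hk2 hqQ
        · intro x _ _
          split_ifs
          · positivity
          · exact le_rfl
      refine le_trans ?_ e3
      rw [hH, Finset.sum_mul]
      apply Finset.sum_le_sum
      intro k hk
      have hk0 : (0 : ℝ) < k := by exact_mod_cast (Finset.mem_Icc.1 hk).1
      rw [one_div_mul_one_div]
      apply one_div_le_one_div_of_le
      · apply Real.sqrt_pos.2
        push_cast
        positivity
      · rw [Real.sqrt_le_left (by positivity)]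
        have h3 : (p : ℝ) ≤ (max p q : ℕ) := by exact_mod_cast le_max_left p q
        have h4 : (q : ℝ) ≤ (max p q : ℕ) := by exact_mod_cast le_max_right p q
        push_cast at h3 h4 ⊢
        calc (k : ℝ) * p * (k * q) = (k : ℝ) ^ 2 * (p * q) := by ring
          _ ≤ (k : ℝ) ^ 2 * (max (p : ℝ) q * max (p : ℝ) q) := by
              apply mul_le_mul_of_nonneg_left _ (by positivity)
              exact mul_le_mul h3 h4 hq0'.le (by positivity)
          _ = (k * max (p : ℝ) q) ^ 2 := by ring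
    rw [hG]
    have e5 : 1 / ((max p q : ℕ) : ℝ) ≤ B (Q ^ 2) v w / H := by
      rw [le_div_iff₀ hH0, mul_comm]
      exact e1
    have : 0 ≤ 1 / (Q : ℝ) := by positivity
    linarith
  · have h1 : 1 / ((max p q : ℕ) : ℝ) ≤ 1 / Q := by
      apply one_div_le_one_div_of_le hQ'
      exact_mod_cast h.le
    rw [hG]
    have : 0 ≤ B (Q ^ 2) v w / H := div_nonneg (B_nonneg _ v w) hH0.le
    linarith

/-- The main part of the GCD sum. -/
noncomputable def S' (a : ℕ → ℕ) (N Q : ℕ) : ℝ :=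
  ∑ p ∈ O N, ∑ q ∈ O N, B Q (vd a p) (vd a q)

lemma S'_nonneg (a : ℕ → ℕ) (N Q : ℕ) : 0 ≤ S' a N Q :=
  Finset.sum_nonneg (fun _ _ => Finset.sum_nonneg (fun _ _ => B_nonneg _ _ _))

lemma gcdSum_le {a : ℕ → ℕ} (ha : StrictMono a) (N : ℕ) {Q : ℕ} (hQ : 0 < Q) :
    gcdSum a N ≤ (N : ℝ) ^ 4 / Q + S' a N (Q ^ 2) / ∑ k ∈ Icc 1 Q, (1 : ℝ) / k := by
  have hQ' : (0 : ℝ) < Q := by exact_mod_cast hQ
  set H : ℝ := ∑ k ∈ Icc 1 Q, (1 : ℝ) / k with hH
  unfold gcdSum S'
  calc ∑ p ∈ O N, ∑ q ∈ O N, G (vd a p) (vd a q)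
      ≤ ∑ p ∈ O N, ∑ q ∈ O N, (1 / (Q : ℝ) + B (Q ^ 2) (vd a p) (vd a q) / H) := by
        apply Finset.sum_le_sum; intro p hp
        apply Finset.sum_le_sum; intro q hq
        exact G_le hQ (vd_pos ha hp) (vd_pos ha hq)
    _ = ((O N).card : ℝ) ^ 2 / Q + (∑ p ∈ O N, ∑ q ∈ O N, B (Q ^ 2) (vd a p) (vd a q)) / H := by
        simp only [Finset.sum_add_distrib, Finset.sum_const, nsmul_eq_mul, ← Finset.sum_div]
        ring
    _ ≤ _ := by
        have h1 : ((O N).card : ℝ) ≤ (N : ℝ) ^ 2 := by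
          have : (O N).card ≤ N ^ 2 := by
            rw [card_O, sq]; exact Nat.sub_le _ _
          exact_mod_cast this
        have h2 : ((O N).card : ℝ) ^ 2 ≤ (N : ℝ) ^ 4 := by
          calc ((O N).card : ℝ) ^ 2 ≤ ((N : ℝ) ^ 2) ^ 2 := by gcongr
            _ = (N : ℝ) ^ 4 := by ring
        have h3 : ((O N).card : ℝ) ^ 2 / Q ≤ (N : ℝ) ^ 4 / Q :=
          div_le_div_of_nonneg_right h2 hQ'.le
        linarith

/-! ### The second moment is at most twice the energy -/

lemma second_moment (a : ℕ → ℕ) (N : ℕ) :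
    ((O N ×ˢ O N).filter (fun x => vd a x.1 = vd a x.2)).card ≤ 2 * energy a N := by
  classical
  set E := ((range N ×ˢ range N ×ˢ range N ×ˢ range N).filter
    (fun q => a q.1 + a q.2.1 = a q.2.2.1 + a q.2.2.2)) with hE
  have hsub : ((O N ×ˢ O N).filter (fun x => vd a x.1 = vd a x.2)) ⊆
      ((O N ×ˢ O N).filter (fun x => a x.1.1 + a x.2.2 = a x.2.1 + a x.1.2)) ∪
      ((O N ×ˢ O N).filter (fun x => a x.1.1 + a x.2.1 = a x.2.2 + a x.1.2)) := by
    intro x hx
    rw [Finset.mem_filter] at hx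
    rw [Finset.mem_union, Finset.mem_filter, Finset.mem_filter]
    obtain ⟨h1, h2⟩ := hx
    unfold vd at h2
    have : a x.1.1 + a x.2.2 = a x.2.1 + a x.1.2 ∨ a x.1.1 + a x.2.1 = a x.2.2 + a x.1.2 := by
      omega
    rcases this with h | h
    · exact Or.inl ⟨h1, h⟩
    · exact Or.inr ⟨h1, h⟩
  have hmem : ∀ x : (ℕ × ℕ) × (ℕ × ℕ), x ∈ O N ×ˢ O N →
      (x.1.1 < N ∧ x.1.2 < N) ∧ (x.2.1 < N ∧ x.2.2 < N) := by
    intro x hx
    simp only [O, Finset.mem_product, Finset.mem_filter, Finset.mem_range] at hx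
    exact ⟨hx.1.1, hx.2.1⟩
  have c1 : ((O N ×ˢ O N).filter (fun x => a x.1.1 + a x.2.2 = a x.2.1 + a x.1.2)).card ≤
      E.card := by
    apply Finset.card_le_card_of_injOn (fun x => (x.1.1, x.2.2, x.2.1, x.1.2))
    · intro x hx
      have hx' := Finset.mem_filter.1 (Finset.mem_coe.1 hx)
      have h := hmem x hx'.1
      refine Finset.mem_coe.2 (Finset.mem_filter.2 ⟨?_, hx'.2⟩)
      simp only [Finset.mem_product, Finset.mem_range]
      exact ⟨h.1.1, h.2.2, h.2.1, h.1.2⟩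
    · intro x _ y _ h
      simp only [Prod.mk.injEq] at h
      exact Prod.ext (Prod.ext h.1 h.2.2.2) (Prod.ext h.2.2.1 h.2.1)
  have c2 : ((O N ×ˢ O N).filter (fun x => a x.1.1 + a x.2.1 = a x.2.2 + a x.1.2)).card ≤
      E.card := by
    apply Finset.card_le_card_of_injOn (fun x => (x.1.1, x.2.1, x.2.2, x.1.2))
    · intro x hx
      have hx' := Finset.mem_filter.1 (Finset.mem_coe.1 hx)
      have h := hmem x hx'.1
      refine Finset.mem_coe.2 (Finset.mem_filter.2 ⟨?_, hx'.2⟩)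
      simp only [Finset.mem_product, Finset.mem_range]
      exact ⟨h.1.1, h.2.1, h.2.2, h.1.2⟩
    · intro x _ y _ h
      simp only [Prod.mk.injEq] at h
      exact Prod.ext (Prod.ext h.1 h.2.2.2) (Prod.ext h.2.1 h.2.2.1)
  have hEe : E.card = energy a N := rfl
  calc _ ≤ _ := Finset.card_le_card hsub
    _ ≤ _ := Finset.card_union_le _ _
    _ ≤ 2 * energy a N := by omega

/-! ### Ratios of differences and lines -/

/-- The number of pairs of differences with a given ratio. -/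
noncomputable def nu (a : ℕ → ℕ) (N : ℕ) (l : ℚ) : ℕ :=
  ((O N ×ˢ O N).filter (fun x => (vd a x.1 : ℚ) / vd a x.2 = l)).card

lemma nu_le {a : ℕ → ℕ} (ha : StrictMono a) (N : ℕ) (l : ℚ) :
    nu a N l ≤ 2 * (linePairs a N l).card := by
  classical
  have hmem : ∀ x : (ℕ × ℕ) × (ℕ × ℕ), x ∈ O N ×ˢ O N →
      ((x.1.1 < N ∧ x.1.2 < N) ∧ x.1.1 ≠ x.1.2) ∧ ((x.2.1 < N ∧ x.2.2 < N) ∧ x.2.1 ≠ x.2.2) := by
    intro x hx
    simpa only [O, Finset.mem_product, Finset.mem_filter, Finset.mem_range] using hx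
  have hsub : ((O N ×ˢ O N).filter (fun x => (vd a x.1 : ℚ) / vd a x.2 = l)) ⊆
      ((O N ×ˢ O N).filter (fun x => (a x.1.1 : ℚ) - a x.1.2 = l * ((a x.2.1 : ℚ) - a x.2.2))) ∪
      ((O N ×ˢ O N).filter (fun x => (a x.1.1 : ℚ) - a x.1.2 = l * ((a x.2.2 : ℚ) - a x.2.1))) := by
    intro x hx
    rw [Finset.mem_filter] at hx
    rw [Finset.mem_union, Finset.mem_filter, Finset.mem_filter]
    obtain ⟨h1, h2⟩ := hx
    have hpos : 0 < vd a x.2 := vd_pos ha (Finset.mem_product.1 h1).2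
    have hpos' : (vd a x.2 : ℚ) ≠ 0 := by exact_mod_cast hpos.ne'
    rw [div_eq_iff hpos'] at h2
    have hv : ∀ p : ℕ × ℕ, (vd a p : ℚ) = (a p.1 : ℚ) - a p.2 ∨
        (vd a p : ℚ) = (a p.2 : ℚ) - a p.1 := by
      intro p
      rcases le_total (a p.1) (a p.2) with h | h
      · right
        have : vd a p = a p.2 - a p.1 := by unfold vd; omega
        rw [this, Nat.cast_sub h]
      · left
        have : vd a p = a p.1 - a p.2 := by unfold vd; omega
        rw [this, Nat.cast_sub h]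
    rcases hv x.1 with e1 | e1 <;> rcases hv x.2 with e2 | e2 <;> rw [e1, e2] at h2
    · exact Or.inl ⟨h1, h2⟩
    · exact Or.inr ⟨h1, h2⟩
    · exact Or.inr ⟨h1, by linarith⟩
    · exact Or.inl ⟨h1, by linarith⟩
  have c1 : ((O N ×ˢ O N).filter
      (fun x => (a x.1.1 : ℚ) - a x.1.2 = l * ((a x.2.1 : ℚ) - a x.2.2))).card ≤
      (linePairs a N l).card := by
    apply Finset.card_le_card_of_injOn (fun x => ((x.2.1, x.1.1), (x.2.2, x.1.2)))
    · intro x hx
      have hx' := Finset.mem_filter.1 (Finset.mem_coe.1 hx)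
      obtain ⟨⟨⟨h1, h2⟩, _⟩, ⟨⟨h3, h4⟩, h5⟩⟩ := hmem x hx'.1
      refine Finset.mem_coe.2 (Finset.mem_filter.2 ⟨?_, h5, ?_⟩)
      · simp only [Finset.mem_product, Finset.mem_range]
        exact ⟨⟨h3, h1⟩, h4, h2⟩
      · unfold label
        have := hx'.2
        simp only
        linarith
    · intro x _ y _ h
      simp only [Prod.mk.injEq] at h
      exact Prod.ext (Prod.ext h.1.2 h.2.2) (Prod.ext h.1.1 h.2.1)
  have c2 : ((O N ×ˢ O N).filter
      (fun x => (a x.1.1 : ℚ) - a x.1.2 = l * ((a x.2.2 : ℚ) - a x.2.1))).card ≤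
      (linePairs a N l).card := by
    apply Finset.card_le_card_of_injOn (fun x => ((x.2.2, x.1.1), (x.2.1, x.1.2)))
    · intro x hx
      have hx' := Finset.mem_filter.1 (Finset.mem_coe.1 hx)
      obtain ⟨⟨⟨h1, h2⟩, _⟩, ⟨⟨h3, h4⟩, h5⟩⟩ := hmem x hx'.1
      refine Finset.mem_coe.2 (Finset.mem_filter.2 ⟨?_, h5.symm, ?_⟩)
      · simp only [Finset.mem_product, Finset.mem_range]
        exact ⟨⟨h4, h1⟩, h3, h2⟩
      · unfold label
        have := hx'.2
        simp only
        linarith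
    · intro x _ y _ h
      simp only [Prod.mk.injEq] at h
      exact Prod.ext (Prod.ext h.1.2 h.2.2) (Prod.ext h.2.1 h.1.1)
  unfold nu
  calc _ ≤ _ := Finset.card_le_card hsub
    _ ≤ _ := Finset.card_union_le _ _
    _ ≤ 2 * (linePairs a N l).card := by omega

/-- The weighted number of quadruples with a given ratio. -/
noncomputable def rho (Q : ℕ) (l : ℚ) : ℝ := ∑ k ∈ K Q, if l = ratio k then W k else 0

lemma rho_nonneg (Q : ℕ) (l : ℚ) : 0 ≤ rho Q l := by
  unfold rho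
  apply Finset.sum_nonneg; intro k _
  split_ifs
  · exact W_nonneg k
  · exact le_rfl

lemma sum_rho_sq (Q : ℕ) (S : Finset ℚ) :
    ∑ l ∈ S, rho Q l ^ 2 ≤ (∑ n ∈ Icc 1 Q, (1 : ℝ) / n) ^ 16 := by
  classical
  refine le_trans ?_ (sum_W Q)
  calc ∑ l ∈ S, rho Q l ^ 2
      = ∑ l ∈ S, ∑ k ∈ K Q, ∑ k' ∈ K Q,
        (if l = ratio k then W k else 0) * (if l = ratio k' then W k' else 0) := by
        apply Finset.sum_congr rfl
        intro l _
        rw [sq]
        unfold rho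
        rw [Finset.sum_mul_sum]
    _ = ∑ k ∈ K Q, ∑ k' ∈ K Q, ∑ l ∈ S,
        (if l = ratio k then W k else 0) * (if l = ratio k' then W k' else 0) := by
        rw [Finset.sum_comm]
        apply Finset.sum_congr rfl
        intro k _
        rw [Finset.sum_comm]
    _ ≤ _ := by
        apply Finset.sum_le_sum; intro k _
        apply Finset.sum_le_sum; intro k' _
        have e : ∀ l ∈ S, (if l = ratio k then W k else 0) * (if l = ratio k' then W k' else 0) =
            if l = ratio k then (if ratio k = ratio k' then W k * W k' else 0) else 0 := by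
          intro l _
          by_cases h : l = ratio k
          · subst h
            simp
          · simp [h]
        rw [Finset.sum_congr rfl e, Finset.sum_ite_eq']
        split_ifs
        · exact le_rfl
        · exact le_rfl
        · exact mul_nonneg (W_nonneg _) (W_nonneg _)
        · exact le_rfl

lemma sum_BB {Q w w' : ℕ} (hw' : 0 < w') (V : Finset ℕ) :
    ∑ v ∈ V, B Q v w * B Q v w' ≤ rho Q ((w : ℚ) / w') := by
  classical
  have e1 : ∀ v, B Q v w * B Q v w' = ∑ k ∈ K Q,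
      if v * k.2.1 = w * k.1 ∧ v * k.2.2.2 = w' * k.2.2.1 then W k else 0 := by
    intro v
    unfold B K
    rw [Finset.sum_product, Finset.sum_mul]
    apply Finset.sum_congr rfl
    intro m _
    rw [Finset.sum_product, Finset.sum_mul]
    apply Finset.sum_congr rfl
    intro n _
    rw [Finset.sum_product, Finset.mul_sum]
    apply Finset.sum_congr rfl
    intro m' _
    rw [Finset.mul_sum]
    apply Finset.sum_congr rfl
    intro n' _
    by_cases h1 : v * n = w * m <;> by_cases h2 : v * n' = w' * m' <;>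
      simp only [h1, h2, if_true, if_false, and_true, and_false, mul_zero,
        zero_mul, and_self]
    unfold W
    rw [one_div_mul_one_div, ← Real.sqrt_mul (by positivity)]
    simp only [mul_assoc]
  simp only [e1]
  rw [Finset.sum_comm]
  unfold rho
  apply Finset.sum_le_sum
  intro k hk
  rw [mem_K] at hk
  obtain ⟨⟨a1, _⟩, ⟨a2, _⟩, ⟨a3, _⟩, ⟨a4, _⟩⟩ := hk
  -- at most one value of `v`
  rw [← Finset.sum_filter]
  by_cases hne : (V.filter (fun v => v * k.2.1 = w * k.1 ∧ v * k.2.2.2 = w' * k.2.2.1)).Nonempty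
  · obtain ⟨v, hv⟩ := hne
    have hv2 := (Finset.mem_filter.1 hv).2
    have hsing : V.filter (fun v => v * k.2.1 = w * k.1 ∧ v * k.2.2.2 = w' * k.2.2.1) = {v} := by
      apply Finset.eq_singleton_iff_unique_mem.2
      refine ⟨hv, ?_⟩
      intro u hu
      have hu2 := (Finset.mem_filter.1 hu).2
      have : u * k.2.1 = v * k.2.1 := by rw [hu2.1, hv2.1]
      exact Nat.eq_of_mul_eq_mul_right (by omega) this
    rw [hsing, Finset.sum_singleton]
    have hr : (w : ℚ) / w' = ratio k := by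
      unfold ratio
      have c1 : (w' : ℚ) ≠ 0 := by exact_mod_cast hw'.ne'
      have c2 : ((k.1 : ℚ) * k.2.2.2) ≠ 0 := by
        apply mul_ne_zero <;> · apply Nat.cast_ne_zero.2; omega
      rw [div_eq_div_iff c1 c2]
      have : w * (k.1 * k.2.2.2) = k.2.2.1 * k.2.1 * w' := by
        calc w * (k.1 * k.2.2.2) = (w * k.1) * k.2.2.2 := by ring
          _ = (v * k.2.1) * k.2.2.2 := by rw [hv2.1]
          _ = (v * k.2.2.2) * k.2.1 := by ring
          _ = (w' * k.2.2.1) * k.2.1 := by rw [hv2.2]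
          _ = _ := by ring
      exact_mod_cast this
    rw [if_pos hr]
  · rw [Finset.not_nonempty_iff_eq_empty] at hne
    rw [hne, Finset.sum_empty]
    split_ifs
    · exact W_nonneg k
    · exact le_rfl

/-- The main bound for the GCD sum. -/
theorem S'_pow_four {a : ℕ → ℕ} (ha : StrictMono a) (N Q : ℕ) :
    S' a N Q ^ 4 ≤ (2 * (energy a N : ℝ)) ^ 2 * (1024 * (N : ℝ) ^ 6 * (Nat.log 2 N + 3 : ℕ)) *
      (∑ n ∈ Icc 1 Q, (1 : ℝ) / n) ^ 16 := by
  classical
  set V := (O N).image (vd a) with hV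
  let r : ℕ → ℝ := fun v => (((O N).filter (fun p => vd a p = v)).card : ℝ)
  let h : ℕ → ℝ := fun v => ∑ q ∈ O N, B Q v (vd a q)
  have hS1 : S' a N Q = ∑ v ∈ V, r v * h v := by
    unfold S'
    have := Finset.sum_comp (s := O N) h (vd a)
    rw [show (∑ p ∈ O N, ∑ q ∈ O N, B Q (vd a p) (vd a q)) = ∑ p ∈ O N, h (vd a p) from rfl, this]
    apply Finset.sum_congr rfl
    intro v _
    rw [nsmul_eq_mul]
  have hr2 : ∑ v ∈ V, r v ^ 2 ≤ 2 * (energy a N : ℝ) := by
    have e1 : ∑ v ∈ V, r v ^ 2 = ∑ p ∈ O N, r (vd a p) := by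
      rw [Finset.sum_comp (s := O N) r (vd a)]
      apply Finset.sum_congr rfl
      intro v _
      rw [nsmul_eq_mul, sq]
    have e2 : ∑ p ∈ O N, r (vd a p) =
        (((O N ×ˢ O N).filter (fun x => vd a x.1 = vd a x.2)).card : ℝ) := by
      rw [Finset.card_filter, Finset.sum_product]
      push_cast
      apply Finset.sum_congr rfl
      intro p _
      simp only [r]
      rw [Finset.card_filter]
      push_cast
      apply Finset.sum_congr rfl
      intro q _
      simp only [eq_comm]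
    rw [e1, e2]
    exact_mod_cast second_moment a N
  -- the second moment of `h`
  set R : ℝ := ∑ x ∈ O N ×ˢ O N, rho Q ((vd a x.1 : ℚ) / vd a x.2) with hR
  have hR0 : 0 ≤ R := Finset.sum_nonneg (fun _ _ => rho_nonneg _ _)
  have hh2 : ∑ v ∈ V, h v ^ 2 ≤ R := by
    have e1 : ∀ v, h v ^ 2 = ∑ x ∈ O N ×ˢ O N, B Q v (vd a x.1) * B Q v (vd a x.2) := by
      intro v
      rw [sq, Finset.sum_product]
      simp only [h]
      rw [Finset.sum_mul_sum]
    simp only [e1]
    rw [Finset.sum_comm, hR]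
    apply Finset.sum_le_sum
    intro x hx
    rw [Finset.mem_product] at hx
    exact sum_BB (vd_pos ha hx.2) V
  -- Cauchy-Schwarz for `R`
  set Λ := (O N ×ˢ O N).image (fun x => (vd a x.1 : ℚ) / vd a x.2) with hΛ
  have hR1 : R = ∑ l ∈ Λ, (nu a N l : ℝ) * rho Q l := by
    rw [hR, Finset.sum_comp (s := O N ×ˢ O N) (rho Q) (fun x => (vd a x.1 : ℚ) / vd a x.2)]
    apply Finset.sum_congr rfl
    intro l _
    rw [nsmul_eq_mul]
    rfl
  have hΛpos : ∀ l ∈ Λ, 0 < l := by
    intro l hl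
    rw [hΛ, Finset.mem_image] at hl
    obtain ⟨x, hx, rfl⟩ := hl
    rw [Finset.mem_product] at hx
    have h1 := vd_pos ha hx.1
    have h2 := vd_pos ha hx.2
    positivity
  have hnu : ∑ l ∈ Λ, (nu a N l : ℝ) ^ 2 ≤ 1024 * (N : ℝ) ^ 6 * (Nat.log 2 N + 3 : ℕ) := by
    calc ∑ l ∈ Λ, (nu a N l : ℝ) ^ 2 ≤ ∑ l ∈ Λ, 4 * ((linePairs a N l).card : ℝ) ^ 2 := by
          apply Finset.sum_le_sum
          intro l _
          have h1 : (nu a N l : ℝ) ≤ 2 * ((linePairs a N l).card : ℝ) := by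
            exact_mod_cast nu_le ha N l
          calc (nu a N l : ℝ) ^ 2 ≤ (2 * ((linePairs a N l).card : ℝ)) ^ 2 :=
                pow_le_pow_left₀ (Nat.cast_nonneg _) h1 2
            _ = _ := by ring
      _ = 4 * ∑ l ∈ Λ, ((linePairs a N l).card : ℝ) ^ 2 := by rw [Finset.mul_sum]
      _ ≤ 4 * (256 * (N : ℝ) ^ 6 * (Nat.log 2 N + 3 : ℕ)) := by
          apply mul_le_mul_of_nonneg_left (fourth ha N Λ hΛpos) (by norm_num)
      _ = _ := by ring
  have hR2 : R ^ 2 ≤ (1024 * (N : ℝ) ^ 6 * (Nat.log 2 N + 3 : ℕ)) *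
      (∑ n ∈ Icc 1 Q, (1 : ℝ) / n) ^ 16 := by
    rw [hR1]
    refine (Finset.sum_mul_sq_le_sq_mul_sq Λ _ _).trans ?_
    apply mul_le_mul hnu (sum_rho_sq Q Λ) (Finset.sum_nonneg (fun _ _ => sq_nonneg _))
      (by positivity)
  have hS2 : S' a N Q ^ 2 ≤ 2 * (energy a N : ℝ) * R := by
    rw [hS1]
    refine (Finset.sum_mul_sq_le_sq_mul_sq V _ _).trans ?_
    apply mul_le_mul hr2 hh2 (Finset.sum_nonneg (fun _ _ => sq_nonneg _)) (by positivity)
  calc S' a N Q ^ 4 = (S' a N Q ^ 2) ^ 2 := by ring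
    _ ≤ (2 * (energy a N : ℝ) * R) ^ 2 := pow_le_pow_left₀ (sq_nonneg _) hS2 2
    _ = (2 * (energy a N : ℝ)) ^ 2 * R ^ 2 := by ring
    _ ≤ (2 * (energy a N : ℝ)) ^ 2 * ((1024 * (N : ℝ) ^ 6 * (Nat.log 2 N + 3 : ℕ)) *
      (∑ n ∈ Icc 1 Q, (1 : ℝ) / n) ^ 16) := mul_le_mul_of_nonneg_left hR2 (sq_nonneg _)
    _ = _ := by ring

end Pool.Agent.H88.PCGcd
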