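import Mathlib
import Pool.Agent.H88.PCBasic

/-!
# Gluing a dilated sequence after a finite initial block
-/

set_option autoImplicit false

namespace Pool.Agent.H88.PCGlue

open Filter Topology Finset MeasureTheory Pool.Agent.H88.PCDefs Pool.Agent.H88.PCBasic

/-- The first `n` terms of `a`, followed by `D` times the sequence `c`. -/
def glue (a : ℕ → ℕ) (n D : ℕ) (c : ℕ → ℕ) : ℕ → ℕ :=
  fun i => if i < n then a i else D * c (i - n)

lemma glue_lt {a : ℕ → ℕ} {n D : ℕ} {c : ℕ → ℕ} {i : ℕ} (h : i < n) : glue a n D c i = a i := by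
  simp [glue, h]

lemma glue_add {a : ℕ → ℕ} {n D : ℕ} {c : ℕ → ℕ} (i : ℕ) : glue a n D c (n + i) = D * c i := by
  simp [glue]

lemma glue_ge {a : ℕ → ℕ} {n D : ℕ} {c : ℕ → ℕ} {i : ℕ} (h : n ≤ i) :
    glue a n D c i = D * c (i - n) := by
  simp [glue, not_lt.2 h]

lemma glue_pos {a c : ℕ → ℕ} (ha : ∀ i, 0 < a i) (hc : ∀ i, 0 < c i) {n D : ℕ} (hD : 0 < D) :
    ∀ i, 0 < glue a n D c i := by
  intro i
  unfold glue
  split_ifs
  · exact ha i
  · exact Nat.mul_pos hD (hc _)

lemma glue_strictMono {a c : ℕ → ℕ} (ha : StrictMono a) (hc : StrictMono c) (hc0 : ∀ i, 0 < c i)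
    {n D : ℕ} (hD : a n < D) : StrictMono (glue a n D c) := by
  apply strictMono_nat_of_lt_succ
  intro i
  have hD0 : 0 < D := lt_of_le_of_lt (Nat.zero_le _) hD
  rcases lt_trichotomy (i + 1) n with h | h | h
  · rw [glue_lt h, glue_lt (by omega)]
    exact ha (Nat.lt_succ_self i)
  · rw [glue_lt (by omega), glue_ge (by omega)]
    calc a i < a n := ha (by omega)
      _ < D := hD
      _ ≤ D * c (i + 1 - n) := Nat.le_mul_of_pos_right _ (hc0 _)
  · rw [glue_ge (show n ≤ i by omega), glue_ge (show n ≤ i + 1 by omega)]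
    exact Nat.mul_lt_mul_of_pos_left (hc (by omega)) hD0

lemma energy_le_cube {a : ℕ → ℕ} (ha : Function.Injective a) (N : ℕ) : energy a N ≤ N ^ 3 := by
  unfold energy
  have : (range N ×ˢ range N ×ˢ range N).card = N ^ 3 := by
    simp [pow_succ, mul_assoc]
  rw [← this]
  apply Finset.card_le_card_of_injOn (fun q => (q.1, q.2.1, q.2.2.1))
  · intro q hq
    simp only [Finset.coe_filter, Finset.mem_product, Finset.mem_range, Set.mem_ofPred_eq] at hq
    simp only [Finset.coe_product, Set.mem_prod, Finset.mem_coe, Finset.mem_range]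
    exact ⟨hq.1.1, hq.1.2.1, hq.1.2.2.1⟩
  · intro q hq r hr hqr
    simp only [Finset.coe_filter, Finset.mem_product, Finset.mem_range, Set.mem_ofPred_eq] at hq hr
    obtain ⟨q1, q2, q3, q4⟩ := q
    obtain ⟨r1, r2, r3, r4⟩ := r
    simp only [Prod.mk.injEq] at hqr hq hr ⊢
    obtain ⟨h1, h2, h3⟩ := hqr
    subst h1 h2 h3
    have : a q4 = a r4 := by omega
    exact ⟨rfl, rfl, rfl, ha this⟩

lemma mixed {D x y z w X Y Z W : ℕ} (hx : 2 * x < D) (hy : 2 * y < D) (hz : 2 * z < D)
    (hw : 2 * w < D) (h : x + D * X + (y + D * Y) = z + D * Z + (w + D * W)) :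
    x + y = z + w ∧ X + Y = Z + W := by
  have h1 : (x + y) + D * (X + Y) = (z + w) + D * (Z + W) := by
    rw [Nat.mul_add, Nat.mul_add]; omega
  have h2 : ((x + y) + D * (X + Y)) % D = ((z + w) + D * (Z + W)) % D := by rw [h1]
  rw [Nat.add_mul_mod_self_left, Nat.add_mul_mod_self_left, Nat.mod_eq_of_lt (by omega),
    Nat.mod_eq_of_lt (by omega)] at h2
  refine ⟨h2, ?_⟩
  have h3 : D * (X + Y) = D * (Z + W) := by omega
  exact Nat.eq_of_mul_eq_mul_left (by omega) h3

lemma glue_energy {a c : ℕ → ℕ} (ha : StrictMono a) (ha0 : ∀ i, 0 < a i) (hc : StrictMono c)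
    (hc0 : ∀ i, 0 < c i) {n D : ℕ} (hD : 2 * a n < D) (m : ℕ) :
    energy (glue a n D c) (n + m) ≤ energy a n + energy c m + 2 * (n + m) ^ 2 := by
  classical
  set b := glue a n D c with hb
  set R := range (n + m) with hR
  -- the four sets
  set S1 := ((range n ×ˢ range n ×ˢ range n ×ˢ range n).filter
    (fun q => a q.1 + a q.2.1 = a q.2.2.1 + a q.2.2.2)) with hS1
  set S2 := (((range m ×ˢ range m ×ˢ range m ×ˢ range m).filter
    (fun q => c q.1 + c q.2.1 = c q.2.2.1 + c q.2.2.2))).image
      (fun q => (n + q.1, n + q.2.1, n + q.2.2.1, n + q.2.2.2)) with hS2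
  set T1 := (R ×ˢ R).image (fun q => (q.1, q.2, q.1, q.2)) with hT1
  set T2 := (R ×ˢ R).image (fun q => (q.1, q.2, q.2, q.1)) with hT2
  have hc1 : S1.card = energy a n := rfl
  have hc2 : S2.card ≤ energy c m := Finset.card_image_le
  have hc3 : T1.card ≤ (n + m) ^ 2 := by
    refine Finset.card_image_le.trans ?_
    simp [hR, sq]
  have hc4 : T2.card ≤ (n + m) ^ 2 := by
    refine Finset.card_image_le.trans ?_
    simp [hR, sq]
  have hsub : ((R ×ˢ R ×ˢ R ×ˢ R).filter
      (fun q => b q.1 + b q.2.1 = b q.2.2.1 + b q.2.2.2)) ⊆ S1 ∪ S2 ∪ T1 ∪ T2 := by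
    rintro ⟨i, j, k, l⟩ hq
    simp only [Finset.mem_filter, Finset.mem_product, hR, Finset.mem_range] at hq
    obtain ⟨⟨hi, hj, hk, hl⟩, he⟩ := hq
    -- small and large parts
    have hdec : ∀ i, ∃ x X : ℕ, b i = x + D * X ∧ 2 * x < D ∧
        (i < n → x = a i ∧ X = 0 ∧ 0 < x) ∧ (n ≤ i → x = 0 ∧ X = c (i - n) ∧ 0 < X) := by
      intro i
      rcases lt_or_ge i n with h | h
      · refine ⟨a i, 0, ?_, ?_, ?_, ?_⟩
        · rw [hb, glue_lt h]; simp
        · have := ha h; omega
        · intro _; exact ⟨rfl, rfl, ha0 i⟩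
        · intro h'; omega
      · refine ⟨0, c (i - n), ?_, ?_, ?_, ?_⟩
        · rw [hb, glue_ge h]; simp
        · omega
        · intro h'; omega
        · intro _; exact ⟨rfl, rfl, hc0 _⟩
    obtain ⟨x, X, hx1, hx2, hx3, hx4⟩ := hdec i
    obtain ⟨y, Y, hy1, hy2, hy3, hy4⟩ := hdec j
    obtain ⟨z, Z, hz1, hz2, hz3, hz4⟩ := hdec k
    obtain ⟨w, W, hw1, hw2, hw3, hw4⟩ := hdec l
    rw [hx1, hy1, hz1, hw1] at he
    obtain ⟨e1, e2⟩ := mixed hx2 hy2 hz2 hw2 he
    simp only [Finset.mem_union]
    have hmemT1 : i = k → j = l → (i, j, k, l) ∈ T1 := by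
      intro h1 h2
      rw [hT1, Finset.mem_image]
      refine ⟨(i, j), ?_, ?_⟩
      · simp [hR, hi, hj]
      · simp [h1, h2]
    have hmemT2 : i = l → j = k → (i, j, k, l) ∈ T2 := by
      intro h1 h2
      rw [hT2, Finset.mem_image]
      refine ⟨(i, j), ?_, ?_⟩
      · simp [hR, hi, hj]
      · simp [h1, h2]
    have hmemS1 : i < n → j < n → k < n → l < n → (i, j, k, l) ∈ S1 := by
      intro h1 h2 h3 h4
      rw [hS1, Finset.mem_filter]
      refine ⟨by simp [h1, h2, h3, h4], ?_⟩
      show a i + a j = a k + a l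
      rw [← (hx3 h1).1, ← (hy3 h2).1, ← (hz3 h3).1, ← (hw3 h4).1]
      exact e1
    have hmemS2 : n ≤ i → n ≤ j → n ≤ k → n ≤ l → (i, j, k, l) ∈ S2 := by
      intro h1 h2 h3 h4
      rw [hS2, Finset.mem_image]
      refine ⟨(i - n, j - n, k - n, l - n), ?_, ?_⟩
      · rw [Finset.mem_filter]
        refine ⟨?_, ?_⟩
        · simp only [Finset.mem_product, Finset.mem_range]
          omega
        · show c (i - n) + c (j - n) = c (k - n) + c (l - n)
          rw [← (hx4 h1).2.1, ← (hy4 h2).2.1, ← (hz4 h3).2.1, ← (hw4 h4).2.1]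
          exact e2
      · simp only [Prod.mk.injEq]
        omega
    have inja : ∀ {u v : ℕ}, a u = a v → u = v := fun h => ha.injective h
    have injc : ∀ {u v : ℕ}, n ≤ u → n ≤ v → c (u - n) = c (v - n) → u = v := by
      intro u v h1 h2 h
      have := hc.injective h
      omega
    rcases lt_or_ge i n with hi' | hi' <;> rcases lt_or_ge j n with hj' | hj' <;>
      rcases lt_or_ge k n with hk' | hk' <;> rcases lt_or_ge l n with hl' | hl'
    · exact Or.inl (Or.inl (Or.inl (hmemS1 hi' hj' hk' hl')))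
    · exfalso
      have := (hx3 hi').2.1; have := (hy3 hj').2.1; have := (hw4 hl').2.2; omega
    · exfalso
      have := (hx3 hi').2.1; have := (hy3 hj').2.1; have := (hz4 hk').2.2; omega
    · exfalso
      have := (hx3 hi').2.1; have := (hy3 hj').2.1; have := (hz4 hk').2.2; omega
    · exfalso
      have := (hz3 hk').2.1; have := (hw3 hl').2.1; have := (hy4 hj').2.2; omega
    · -- i k small, j l large
      left; right
      apply hmemT1
      · apply inja
        rw [← (hx3 hi').1, ← (hz3 hk').1]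
        have := (hy4 hj').1; have := (hw4 hl').1; omega
      · apply injc hj' hl'
        rw [← (hy4 hj').2.1, ← (hw4 hl').2.1]
        have := (hx3 hi').2.1; have := (hz3 hk').2.1; omega
    · -- i l small, j k large
      right
      apply hmemT2
      · apply inja
        rw [← (hx3 hi').1, ← (hw3 hl').1]
        have := (hy4 hj').1; have := (hz4 hk').1; omega
      · apply injc hj' hk'
        rw [← (hy4 hj').2.1, ← (hz4 hk').2.1]
        have := (hx3 hi').2.1; have := (hw3 hl').2.1; omega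
    · exfalso
      have := (hx3 hi').2.2; have := (hz4 hk').1; have := (hw4 hl').1; omega
    · exfalso
      have := (hz3 hk').2.1; have := (hw3 hl').2.1; have := (hx4 hi').2.2; omega
    · -- j k small, i l large
      right
      apply hmemT2
      · apply injc hi' hl'
        rw [← (hx4 hi').2.1, ← (hw4 hl').2.1]
        have := (hy3 hj').2.1; have := (hz3 hk').2.1; omega
      · apply inja
        rw [← (hy3 hj').1, ← (hz3 hk').1]
        have := (hx4 hi').1; have := (hw4 hl').1; omega
    · -- j l small, i k large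
      left; right
      apply hmemT1
      · apply injc hi' hk'
        rw [← (hx4 hi').2.1, ← (hz4 hk').2.1]
        have := (hy3 hj').2.1; have := (hw3 hl').2.1; omega
      · apply inja
        rw [← (hy3 hj').1, ← (hw3 hl').1]
        have := (hx4 hi').1; have := (hz4 hk').1; omega
    · exfalso
      have := (hy3 hj').2.2; have := (hz4 hk').1; have := (hw4 hl').1; omega
    · exfalso
      have := (hx4 hi').1; have := (hy4 hj').1; have := (hz3 hk').2.2; omega
    · exfalso
      have := (hx4 hi').1; have := (hy4 hj').1; have := (hz3 hk').2.2; omega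
    · exfalso
      have := (hx4 hi').1; have := (hy4 hj').1; have := (hw3 hl').2.2; omega
    · exact Or.inl (Or.inl (Or.inr (hmemS2 hi' hj' hk' hl')))
  calc energy b (n + m) ≤ (S1 ∪ S2 ∪ T1 ∪ T2).card := Finset.card_le_card hsub
    _ ≤ S1.card + S2.card + T1.card + T2.card := by
        refine (Finset.card_union_le _ _).trans ?_
        refine Nat.add_le_add_right ((Finset.card_union_le _ _).trans ?_) _
        exact Nat.add_le_add_right (Finset.card_union_le _ _) _
    _ ≤ energy a n + energy c m + 2 * (n + m) ^ 2 := by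
        rw [hc1]; omega

end Pool.Agent.H88.PCGlue
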