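import Mathlib
import Pool.Agent.H88.PCGlue

/-!
# Comparison of the pair counts of a glued sequence and of its dilated part
-/

set_option autoImplicit false

namespace Pool.Agent.H88.PCCompare

open Filter Topology Finset MeasureTheory Pool.Agent.H88.PCDefs Pool.Agent.H88.PCBasic
  Pool.Agent.H88.PCGlue

lemma smul_dil (D k : ℕ) (θ : UnitAddCircle) : (D * k) • θ = k • (D • θ) := by
  rw [mul_comm, mul_smul]

lemma cp_glue_ge (a c : ℕ → ℕ) (n D m : ℕ) (δ : ℝ) (θ : UnitAddCircle) :
    cp c m δ (D • θ) ≤ cp (glue a n D c) (n + m) δ θ := by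
  unfold cp
  apply Finset.card_le_card_of_injOn (fun q => (n + q.1, n + q.2))
  · intro q hq
    simp only [Finset.coe_filter, Finset.mem_product, Finset.mem_range, Set.mem_ofPred_eq] at hq ⊢
    refine ⟨⟨by omega, by omega⟩, by omega, ?_⟩
    rw [glue_add, glue_add, smul_dil, smul_dil]
    exact hq.2.2
  · intro q _ r _ h
    simp only [Prod.mk.injEq] at h
    exact Prod.ext (by omega) (by omega)

/-- The number of close pairs between the first `n` terms of `a` and the first `m` terms of the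
dilated sequence. -/
noncomputable def cross (a c : ℕ → ℕ) (n m : ℕ) (δ : ℝ) (θ ϑ : UnitAddCircle) : ℕ :=
  ((range n ×ˢ range m).filter (fun p => ‖a p.1 • θ - c p.2 • ϑ‖ < δ)).card

lemma cp_glue_le (a c : ℕ → ℕ) (n D m : ℕ) (δ : ℝ) (θ : UnitAddCircle) :
    cp (glue a n D c) (n + m) δ θ ≤
      n ^ 2 + 2 * cross a c n m δ θ (D • θ) + cp c m δ (D • θ) := by
  classical
  set b := glue a n D c with hb
  set U := ((range n ×ˢ range m).filter (fun p => ‖a p.1 • θ - c p.2 • (D • θ)‖ < δ)) with hU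
  set V := ((range m ×ˢ range m).filter
    (fun p => p.1 ≠ p.2 ∧ ‖c p.1 • (D • θ) - c p.2 • (D • θ)‖ < δ)) with hV
  have hsub : ((range (n + m) ×ˢ range (n + m)).filter
      (fun p => p.1 ≠ p.2 ∧ ‖b p.1 • θ - b p.2 • θ‖ < δ)) ⊆
      (range n ×ˢ range n) ∪ U.image (fun p => (p.1, n + p.2)) ∪
        U.image (fun p => (n + p.2, p.1)) ∪ V.image (fun p => (n + p.1, n + p.2)) := by
    rintro ⟨i, j⟩ hq
    simp only [Finset.mem_filter, Finset.mem_product, Finset.mem_range] at hq
    obtain ⟨⟨hi, hj⟩, hne, hlt⟩ := hq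
    simp only [Finset.mem_union]
    rcases lt_or_ge i n with hi' | hi' <;> rcases lt_or_ge j n with hj' | hj'
    · left; left; left
      simp [hi', hj']
    · left; left; right
      rw [Finset.mem_image]
      refine ⟨(i, j - n), ?_, ?_⟩
      · rw [hU, Finset.mem_filter]
        refine ⟨?_, ?_⟩
        · simp only [Finset.mem_product, Finset.mem_range]; omega
        · show ‖a i • θ - c (j - n) • (D • θ)‖ < δ
          rw [hb, glue_lt hi', glue_ge hj', smul_dil] at hlt
          exact hlt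
      · show (i, n + (j - n)) = (i, j)
        rw [Nat.add_sub_cancel' hj']
    · left; right
      rw [Finset.mem_image]
      refine ⟨(j, i - n), ?_, ?_⟩
      · rw [hU, Finset.mem_filter]
        refine ⟨?_, ?_⟩
        · simp only [Finset.mem_product, Finset.mem_range]; omega
        · show ‖a j • θ - c (i - n) • (D • θ)‖ < δ
          rw [hb, glue_lt hj', glue_ge hi', smul_dil, norm_sub_rev] at hlt
          exact hlt
      · show (n + (i - n), j) = (i, j)
        rw [Nat.add_sub_cancel' hi']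
    · right
      rw [Finset.mem_image]
      refine ⟨(i - n, j - n), ?_, ?_⟩
      · rw [hV, Finset.mem_filter]
        refine ⟨?_, ?_, ?_⟩
        · simp only [Finset.mem_product, Finset.mem_range]; omega
        · show i - n ≠ j - n
          have hne' : i ≠ j := hne
          omega
        · show ‖c (i - n) • (D • θ) - c (j - n) • (D • θ)‖ < δ
          rw [hb, glue_ge hi', glue_ge hj', smul_dil, smul_dil] at hlt
          exact hlt
      · show (n + (i - n), n + (j - n)) = (i, j)
        rw [Nat.add_sub_cancel' hi', Nat.add_sub_cancel' hj']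
  calc cp b (n + m) δ θ ≤ _ := Finset.card_le_card hsub
    _ ≤ (range n ×ˢ range n).card + (U.image (fun p => (p.1, n + p.2))).card +
        (U.image (fun p => (n + p.2, p.1))).card +
        (V.image (fun p => (n + p.1, n + p.2))).card := by
        refine (Finset.card_union_le _ _).trans ?_
        refine Nat.add_le_add_right ((Finset.card_union_le _ _).trans ?_) _
        exact Nat.add_le_add_right (Finset.card_union_le _ _) _
    _ ≤ n ^ 2 + U.card + U.card + V.card := by
        have h1 : (range n ×ˢ range n).card = n ^ 2 := by simp [sq]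
        rw [h1]
        exact Nat.add_le_add (Nat.add_le_add (Nat.add_le_add le_rfl Finset.card_image_le)
          Finset.card_image_le) Finset.card_image_le
    _ = n ^ 2 + 2 * cross a c n m δ θ (D • θ) + cp c m δ (D • θ) := by
        unfold cross cp
        rw [← hU, ← hV]
        ring

lemma row_bound (c : ℕ → ℕ) (m : ℕ) (δ : ℝ) (v ϑ : UnitAddCircle) :
    ((range m).filter (fun q => ‖v - c q • ϑ‖ < δ)).card ^ 2 ≤
      ((range m).filter (fun q => ‖v - c q • ϑ‖ < δ)).card + cp c m (2 * δ) ϑ := by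
  classical
  set S := (range m).filter (fun q => ‖v - c q • ϑ‖ < δ) with hS
  have h1 : S.offDiag.card ≤ cp c m (2 * δ) ϑ := by
    unfold cp
    apply Finset.card_le_card
    rintro ⟨i, j⟩ hq
    rw [Finset.mem_offDiag] at hq
    obtain ⟨hi, hj, hne⟩ := hq
    rw [hS, Finset.mem_filter] at hi hj
    rw [Finset.mem_filter, Finset.mem_product]
    refine ⟨⟨hi.1, hj.1⟩, hne, ?_⟩
    show ‖c i • ϑ - c j • ϑ‖ < 2 * δ
    have : c i • ϑ - c j • ϑ = (v - c j • ϑ) - (v - c i • ϑ) := by abel
    rw [this]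
    calc ‖(v - c j • ϑ) - (v - c i • ϑ)‖ ≤ ‖v - c j • ϑ‖ + ‖v - c i • ϑ‖ := norm_sub_le _ _
      _ < δ + δ := add_lt_add hj.2 hi.2
      _ = 2 * δ := by ring
  rw [Finset.offDiag_card] at h1
  rw [sq]
  omega

lemma cross_eq_sum (a c : ℕ → ℕ) (n m : ℕ) (δ : ℝ) (θ ϑ : UnitAddCircle) :
    cross a c n m δ θ ϑ =
      ∑ p ∈ range n, ((range m).filter (fun q => ‖a p • θ - c q • ϑ‖ < δ)).card := by
  unfold cross
  simp only [Finset.card_filter]
  rw [Finset.sum_product]

lemma cross_le (a c : ℕ → ℕ) (n m : ℕ) (δ : ℝ) (θ ϑ : UnitAddCircle) {W : ℝ} (hW : 0 < W) :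
    (cross a c n m δ θ ϑ : ℝ) ≤
      n + (cp c m (2 * δ) ϑ : ℝ) / (2 * W) + W * (n + 1) ^ 2 / 2 := by
  set Y : ℝ := (cp c m (2 * δ) ϑ : ℝ) with hY
  have hY0 : 0 ≤ Y := Nat.cast_nonneg _
  set u : ℝ := W * (n + 1) with hu
  have hn1 : (0 : ℝ) < (n : ℝ) + 1 := by positivity
  have hu0 : 0 < u := by positivity
  have hrow : ∀ p : ℕ, (((range m).filter (fun q => ‖a p • θ - c q • ϑ‖ < δ)).card : ℝ)
      ≤ 1 + (Y / u + u) / 2 := by
    intro p
    have h1 := row_bound c m δ (a p • θ) ϑ
    set r := ((range m).filter (fun q => ‖a p • θ - c q • ϑ‖ < δ)).card with hr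
    have h2 : (r : ℝ) ^ 2 ≤ r + Y := by
      rw [hY]; exact_mod_cast h1
    rcases Nat.eq_zero_or_pos r with h0 | h0
    · rw [h0]; simp only [Nat.cast_zero]; positivity
    · have h3 : (1 : ℝ) ≤ r := by exact_mod_cast h0
      have h4 : ((r : ℝ) - 1) ^ 2 ≤ Y := by nlinarith
      have h5 : 2 * ((r : ℝ) - 1) * u ≤ Y + u ^ 2 := by nlinarith [sq_nonneg ((r : ℝ) - 1 - u)]
      have h6 : (r : ℝ) - 1 ≤ (Y + u ^ 2) / (2 * u) := by
        rw [le_div_iff₀ (by positivity)]; linarith
      have h7 : (Y + u ^ 2) / (2 * u) = (Y / u + u) / 2 := by field_simp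
      rw [h7] at h6
      linarith
  rw [cross_eq_sum]
  push_cast
  calc (∑ p ∈ range n, (((range m).filter (fun q => ‖a p • θ - c q • ϑ‖ < δ)).card : ℝ))
      ≤ ∑ p ∈ range n, (1 + (Y / u + u) / 2) := Finset.sum_le_sum (fun p _ => hrow p)
    _ = n * (1 + (Y / u + u) / 2) := by simp; ring
    _ = n + (n / (n + 1)) * (Y / (2 * W)) + W * (n * (n + 1)) / 2 := by
        rw [hu]; field_simp; ring
    _ ≤ n + 1 * (Y / (2 * W)) + W * (n + 1) ^ 2 / 2 := by
        gcongr
        · rw [div_le_one hn1]; linarith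
        · nlinarith
    _ = n + Y / (2 * W) + W * (n + 1) ^ 2 / 2 := by ring

/-- Combined comparison. -/
lemma cp_glue_le' (a c : ℕ → ℕ) (n D m : ℕ) (δ : ℝ) (θ : UnitAddCircle) {W : ℝ} (hW : 0 < W) :
    (cp (glue a n D c) (n + m) δ θ : ℝ) ≤
      (n + 1) ^ 2 + (cp (glue a n D c) (n + m) (2 * δ) θ : ℝ) / W + W * (n + 1) ^ 2 +
        cp c m δ (D • θ) := by
  have h1 : (cp (glue a n D c) (n + m) δ θ : ℝ) ≤
      n ^ 2 + 2 * cross a c n m δ θ (D • θ) + cp c m δ (D • θ) := by
    exact_mod_cast cp_glue_le a c n D m δ θ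
  have h2 := cross_le a c n m δ θ (D • θ) hW
  have h3 : (cp c m (2 * δ) (D • θ) : ℝ) ≤ cp (glue a n D c) (n + m) (2 * δ) θ := by
    exact_mod_cast cp_glue_ge a c n D m (2 * δ) θ
  have h4 : (cp c m (2 * δ) (D • θ) : ℝ) / (2 * W) ≤
      (cp (glue a n D c) (n + m) (2 * δ) θ : ℝ) / (2 * W) := by gcongr
  have h5 : (cp (glue a n D c) (n + m) (2 * δ) θ : ℝ) / W =
      2 * ((cp (glue a n D c) (n + m) (2 * δ) θ : ℝ) / (2 * W)) := by field_simp
  rw [h5]
  nlinarith

/-- The key deterministic comparison: if the glued sequence has nearly Poissonian pair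
correlations at the index `n + N` and `N` is large compared with `n`, so does the dilated part. -/
lemma key {s ε : ℝ} (hs : 0 < s) (hε : 0 < ε) : ∃ T : ℕ, 0 < T ∧
    ∀ (a b c : ℕ → ℕ) (n D N : ℕ) (θ : UnitAddCircle), 0 < N →
      (∀ i < n + N, b i = glue a n D c i) → T * (n + 1) ^ 2 ≤ N →
      |F b (n + N) s θ - 2 * s| ≤ ε / 8 →
      |F b (n + N) (s + ε / 8) θ - 2 * (s + ε / 8)| ≤ ε / 8 →
      |F b (n + N) (3 * s) θ - 2 * (3 * s)| ≤ ε / 8 →
      |F c N s (D • θ) - 2 * s| ≤ ε := by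
  -- constants
  set W : ℝ := 32 * (6 * s + ε) / ε with hW
  have hW0 : 0 < W := by positivity
  obtain ⟨T, hT⟩ := exists_nat_ge (max (max 2 (8 * s / ε)) (max (16 * (s + ε) / ε)
    (8 * (1 + W) / ε)))
  have hT2 : (2 : ℝ) ≤ T := le_trans (le_trans (le_max_left _ _) (le_max_left _ _)) hT
  have hT8 : 8 * s / ε ≤ T := le_trans (le_trans (le_max_right _ _) (le_max_left _ _)) hT
  have hT16 : 16 * (s + ε) / ε ≤ T := le_trans (le_trans (le_max_left _ _) (le_max_right _ _)) hT
  have hTW : 8 * (1 + W) / ε ≤ T := le_trans (le_trans (le_max_right _ _) (le_max_right _ _)) hT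
  rw [div_le_iff₀ hε] at hT8 hT16 hTW
  have hT0 : 0 < (T : ℝ) := by linarith
  refine ⟨T, by exact_mod_cast hT0, ?_⟩
  intro a b c n D N θ hN hb hTN h1 h2 h3
  have hcong : ∀ s, F b (n + N) s θ = F (glue a n D c) (n + N) s θ := fun s => F_congr hb s θ
  rw [hcong] at h1 h2 h3
  clear hcong hb
  set g := glue a n D c with hg
  have hNr : (0 : ℝ) < N := by exact_mod_cast hN
  have hnN : (0 : ℝ) < (n : ℝ) + N := by positivity
  have hTN' : (T : ℝ) * (n + 1) ^ 2 ≤ N := by exact_mod_cast hTN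
  have hn0 : (0 : ℝ) ≤ n := Nat.cast_nonneg n
  have hTn : (T : ℝ) * n ≤ N := by nlinarith
  have hn_le : (n : ℝ) ≤ N / 2 := by nlinarith
  -- translate
  have e1 : ∀ s : ℝ, (cp g (n + N) (s / ((n + N : ℕ) : ℝ)) θ : ℝ) = F g (n + N) s θ * (n + N) := by
    intro s
    unfold F
    push_cast
    field_simp
  have e2 : (cp c N (s / N) (D • θ) : ℝ) = F c N s (D • θ) * N := by
    unfold F
    field_simp
  set X := F c N s (D • θ) with hX
  rw [abs_le] at h1 h2 h3 ⊢
  constructor
  · -- lower bound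
    have k1 := cp_glue_le' a c n D N (s / N) θ hW0
    rw [← hg, e2] at k1
    have k2 : (cp g (n + N) (s / ((n + N : ℕ) : ℝ)) θ : ℝ) ≤ cp g (n + N) (s / N) θ := by
      have : s / ((n + N : ℕ) : ℝ) ≤ s / N := by
        apply div_le_div_of_nonneg_left hs.le hNr
        push_cast; linarith
      exact_mod_cast cp_mono g (n + N) this θ
    have k3 : (cp g (n + N) (2 * (s / N)) θ : ℝ) ≤
        cp g (n + N) ((3 * s) / ((n + N : ℕ) : ℝ)) θ := by
      have : 2 * (s / N) ≤ (3 * s) / ((n + N : ℕ) : ℝ) := by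
        rw [← mul_div_assoc, div_le_div_iff₀ hNr (by push_cast; exact hnN)]
        push_cast
        nlinarith
      exact_mod_cast cp_mono g (n + N) this θ
    rw [e1] at k2 k3
    have k4 : F g (n + N) (3 * s) θ * (n + N) ≤ (6 * s + ε) * (2 * N) := by
      have : F g (n + N) (3 * s) θ ≤ 6 * s + ε := by linarith [h3.2]
      calc F g (n + N) (3 * s) θ * (n + N) ≤ (6 * s + ε) * (n + N) := by gcongr
        _ ≤ (6 * s + ε) * (2 * N) := by
          apply mul_le_mul_of_nonneg_left _ (by positivity); linarith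
    have k5 : (cp g (n + N) (2 * (s / N)) θ : ℝ) / W ≤ ε / 16 * N := by
      rw [div_le_iff₀ hW0]
      have : ε / 16 * N * W = (6 * s + ε) * (2 * N) := by
        rw [hW]; field_simp; ring
      rw [this]
      exact k3.trans k4
    have k6 : (n + 1 : ℝ) ^ 2 + W * (n + 1) ^ 2 ≤ ε / 8 * N := by
      have : (1 + W) * (n + 1 : ℝ) ^ 2 ≤ ε / 8 * (T * (n + 1) ^ 2) := by
        have h : (1 + W) ≤ ε / 8 * T := by linarith
        calc (1 + W) * (n + 1 : ℝ) ^ 2 ≤ (ε / 8 * T) * (n + 1) ^ 2 := by gcongr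
          _ = _ := by ring
      calc (n + 1 : ℝ) ^ 2 + W * (n + 1) ^ 2 = (1 + W) * (n + 1 : ℝ) ^ 2 := by ring
        _ ≤ ε / 8 * (T * (n + 1) ^ 2) := this
        _ ≤ ε / 8 * N := by gcongr
    have k7 : (2 * s - ε / 8) * N - n * (ε / 8) ≤ F g (n + N) s θ * (n + N) := by
      have h : 2 * s - ε / 8 ≤ F g (n + N) s θ := by linarith [h1.1]
      have h' : (2 * s - ε / 8) * (n + N) ≤ F g (n + N) s θ * (n + N) :=
        mul_le_mul_of_nonneg_right h hnN.le
      have h'' : 0 ≤ 2 * s * n := by positivity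
      linarith
    have k9 : (n : ℝ) * (ε / 8) ≤ N / 2 * (ε / 8) :=
      mul_le_mul_of_nonneg_right hn_le (by positivity)
    have k10 : 0 < ε * N := by positivity
    have k8 : (2 * s - ε) * N ≤ X * N := by linarith
    have := le_of_mul_le_mul_right k8 hNr
    linarith
  · -- upper bound
    have k1 : (cp c N (s / N) (D • θ) : ℝ) ≤ cp g (n + N) (s / N) θ := by
      exact_mod_cast cp_glue_ge a c n D N (s / N) θ
    have k2 : (cp g (n + N) (s / N) θ : ℝ) ≤
        cp g (n + N) ((s + ε / 8) / ((n + N : ℕ) : ℝ)) θ := by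
      have : s / N ≤ (s + ε / 8) / ((n + N : ℕ) : ℝ) := by
        rw [div_le_div_iff₀ hNr (by push_cast; exact hnN)]
        push_cast
        have h3 : s * n ≤ ε / 8 * N := by
          have h' : 8 * s * n ≤ T * ε * n := mul_le_mul_of_nonneg_right hT8 hn0
          have h'' : T * ε * n ≤ ε * N := by
            have := mul_le_mul_of_nonneg_left hTn hε.le
            linarith
          linarith
        have h4 : 0 ≤ ε * n := by positivity
        linarith
      exact_mod_cast cp_mono g (n + N) this θ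
    rw [e1] at k2
    rw [e2] at k1
    have k3 : F g (n + N) (s + ε / 8) θ * (n + N) ≤ (2 * s + 3 * ε / 8) * (n + N) := by
      have : F g (n + N) (s + ε / 8) θ ≤ 2 * s + 3 * ε / 8 := by linarith [h2.2]
      exact mul_le_mul_of_nonneg_right this hnN.le
    have k4 : (2 * s + 3 * ε / 8) * n ≤ ε / 4 * N := by
      have h' : 16 * (s + ε) * n ≤ T * ε * n := mul_le_mul_of_nonneg_right hT16 hn0
      have h'' : T * ε * n ≤ ε * N := by
        have := mul_le_mul_of_nonneg_left hTn hε.le
        linarith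
      have h3 : 0 ≤ s * n := by positivity
      have h4 : 0 ≤ ε * n := by positivity
      linarith
    have k10 : 0 < ε * N := by positivity
    have k8 : X * N ≤ (2 * s + ε) * N := by linarith
    have := le_of_mul_le_mul_right k8 hNr
    linarith

end Pool.Agent.H88.PCCompare
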