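import Mathlib
import Pool.Agent.H88.PCCompare

/-!
# Uniform convergence of the pair counts in a class of sequences defined by an energy bound
-/

set_option autoImplicit false

namespace Pool.Agent.H88.PCUnif

open Filter Topology Finset MeasureTheory Pool.Agent.H88.PCDefs Pool.Agent.H88.PCBasic
  Pool.Agent.H88.PCGlue Pool.Agent.H88.PCCompare

/-- Regularity of the energy bound. -/
structure Reg (g : ℕ → ℝ) (A : ℝ) : Prop where
  one_le : 1 ≤ A
  mono : ∀ n N : ℕ, n ≤ N → g n ≤ A * g N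
  sq : ∀ N : ℕ, (N : ℝ) ^ 2 ≤ A * g N

/-- The class of sequences whose energies satisfy `E_N ≤ K g N` for all `N`. -/
structure Cls (g : ℕ → ℝ) (K : ℝ) (a : ℕ → ℕ) : Prop where
  mono : StrictMono a
  pos : ∀ n, 0 < a n
  en : ∀ N, (energy a N : ℝ) ≤ K * g N

lemma glue_seq (P : ℕ → ℕ) (hP : ∀ n, 0 < P n) (C : ℕ → ℕ → ℕ) (hC : ∀ n, StrictMono (C n))
    (hC0 : ∀ n i, 0 < C n i) :
    ∃ (B : ℕ → ℕ) (n : ℕ → ℕ) (b : ℕ → ℕ → ℕ) (D : ℕ → ℕ), n 0 = 0 ∧ StrictMono n ∧
      (∀ j, n (j + 1) = n j + P (n j)) ∧ (∀ j, StrictMono (b j)) ∧ (∀ j i, 0 < b j i) ∧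
      (∀ j, 2 * b j (n j) < D j) ∧ (∀ j, ∀ i < n j, B i = b j i) ∧
      (∀ j, b (j + 1) = glue (b j) (n j) (D j) (C (n j))) ∧ StrictMono B ∧ ∀ i, 0 < B i := by
  let next : ℕ × (ℕ → ℕ) → ℕ × (ℕ → ℕ) :=
    fun p => (p.1 + P p.1, glue p.2 p.1 (2 * p.2 p.1 + 1) (C p.1))
  let st : ℕ → ℕ × (ℕ → ℕ) := fun j => Nat.rec (0, fun i => i + 1) (fun _ p => next p) j
  let n : ℕ → ℕ := fun j => (st j).1
  let b : ℕ → ℕ → ℕ := fun j => (st j).2
  let D : ℕ → ℕ := fun j => 2 * b j (n j) + 1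
  have hn0 : n 0 = 0 := rfl
  have hn1 : ∀ j, n (j + 1) = n j + P (n j) := fun j => rfl
  have hb1 : ∀ j, b (j + 1) = glue (b j) (n j) (D j) (C (n j)) := fun j => rfl
  have hn : StrictMono n := by
    apply strictMono_nat_of_lt_succ
    intro j
    rw [hn1]
    have := hP (n j)
    omega
  have hb : ∀ j, StrictMono (b j) ∧ ∀ i, 0 < b j i := by
    intro j
    induction j with
    | zero =>
      refine ⟨?_, ?_⟩
      · intro i i' h
        show i + 1 < i' + 1
        omega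
      · intro i
        exact Nat.succ_pos i
    | succ j ih =>
      rw [hb1]
      refine ⟨?_, ?_⟩
      · apply glue_strictMono ih.1 (hC _) (hC0 _)
        show b j (n j) < 2 * b j (n j) + 1
        omega
      · apply glue_pos ih.2 (hC0 _)
        exact Nat.succ_pos _
  have hagree : ∀ j k i, i < n j → b (j + k) i = b j i := by
    intro j k i hi
    induction k with
    | zero => rfl
    | succ k ih =>
      rw [← Nat.add_assoc, hb1, glue_lt, ih]
      exact lt_of_lt_of_le hi (hn.monotone (Nat.le_add_right _ _))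
  let B : ℕ → ℕ := fun i => b (i + 1) i
  have hid : ∀ j, j ≤ n j := hn.id_le
  have hB : ∀ j, ∀ i < n j, B i = b j i := by
    intro j i hi
    show b (i + 1) i = b j i
    rcases le_total (i + 1) j with h | h
    · obtain ⟨k, rfl⟩ := Nat.exists_eq_add_of_le h
      exact (hagree (i + 1) k i (lt_of_lt_of_le (Nat.lt_succ_self i) (hid _))).symm
    · obtain ⟨k, hk⟩ := Nat.exists_eq_add_of_le h
      rw [hk]
      exact hagree j k i hi
  refine ⟨B, n, b, D, hn0, hn, hn1, fun j => (hb j).1, fun j => (hb j).2, ?_, hB, hb1, ?_, ?_⟩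
  · intro j
    exact Nat.lt_succ_self _
  · apply strictMono_nat_of_lt_succ
    intro i
    have h1 : i + 1 < n (i + 2) := lt_of_lt_of_le (by omega) (hid (i + 2))
    rw [hB (i + 2) i (by omega), hB (i + 2) (i + 1) h1]
    exact (hb (i + 2)).1 (Nat.lt_succ_self i)
  · intro i
    exact (hb (i + 1)).2 i

lemma glue_seq_energy {g : ℕ → ℝ} {A K : ℝ} (hg : Reg g A) (hK : 0 ≤ K)
    (P : ℕ → ℕ) (C : ℕ → ℕ → ℕ) (hC : ∀ n, Cls g K (C n))
    (hP : ∀ n, (⌈A⌉₊ + 1) * (n + 1) ^ 3 ≤ P n)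
    {B : ℕ → ℕ} {n : ℕ → ℕ} {b : ℕ → ℕ → ℕ} {D : ℕ → ℕ} (hn0 : n 0 = 0) (hn : StrictMono n)
    (hn1 : ∀ j, n (j + 1) = n j + P (n j)) (hb : ∀ j, StrictMono (b j))
    (hb0 : ∀ j i, 0 < b j i) (hD : ∀ j, 2 * b j (n j) < D j)
    (hB : ∀ j, ∀ i < n j, B i = b j i)
    (hb1 : ∀ j, b (j + 1) = glue (b j) (n j) (D j) (C (n j))) (hB1 : StrictMono B)
    (hB0 : ∀ i, 0 < B i) : Cls g ((3 * A + K * A) * A + K * A + 2 * A) B := by
  have hA := hg.one_le
  have hg0 : ∀ N, 0 ≤ g N := by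
    intro N
    have h1 := hg.sq N
    have h2 : (0 : ℝ) ≤ A * g N := le_trans (by positivity) h1
    exact nonneg_of_mul_nonneg_right h2 (by linarith)
  have hglue : ∀ j m, (energy (b (j + 1)) (n j + m) : ℝ) ≤
      energy (b j) (n j) + K * g m + 2 * A * g (n j + m) := by
    intro j m
    have h1 : (energy (b (j + 1)) (n j + m) : ℝ) ≤
        energy (b j) (n j) + energy (C (n j)) m + 2 * ((n j : ℝ) + m) ^ 2 := by
      rw [hb1]
      exact_mod_cast glue_energy (hb j) (hb0 j) (hC (n j)).mono (hC (n j)).pos (hD j) m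
    have h2 := (hC (n j)).en m
    have h3 := hg.sq (n j + m)
    push_cast at h3
    linarith
  have hend : ∀ j, (energy (b j) (n j) : ℝ) ≤ (3 * A + K * A) * g (n j) := by
    intro j
    cases j with
    | zero =>
      have : energy (b 0) (n 0) = 0 := by
        rw [hn0]; simp [energy]
      rw [this]
      simp only [Nat.cast_zero]
      exact mul_nonneg (by nlinarith) (hg0 _)
    | succ j =>
      have h1 := hglue j (P (n j))
      rw [← hn1] at h1
      have h2 : (energy (b j) (n j) : ℝ) ≤ (n j : ℝ) ^ 3 := by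
        exact_mod_cast energy_le_cube (hb j).injective (n j)
      have h3 : (n j : ℝ) ^ 3 ≤ g (P (n j)) := by
        have h4 := hg.sq (P (n j))
        have h5 : ((⌈A⌉₊ : ℝ) + 1) * ((n j : ℝ) + 1) ^ 3 ≤ P (n j) := by exact_mod_cast hP (n j)
        have h6 : A ≤ ⌈A⌉₊ := Nat.le_ceil A
        have h7 : (n j : ℝ) ^ 3 ≤ ((n j : ℝ) + 1) ^ 3 := by
          apply pow_le_pow_left₀ (by positivity); linarith
        have h8 : (1 : ℝ) ≤ ((n j : ℝ) + 1) ^ 3 := by
          apply one_le_pow₀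
          have : (0 : ℝ) ≤ n j := Nat.cast_nonneg _
          linarith
        have h9 : A * (n j : ℝ) ^ 3 ≤ P (n j) := by
          calc A * (n j : ℝ) ^ 3 ≤ ((⌈A⌉₊ : ℝ) + 1) * ((n j : ℝ) + 1) ^ 3 := by
                apply mul_le_mul (by linarith) h7 (by positivity) (by positivity)
            _ ≤ _ := h5
        have h10 : (1 : ℝ) ≤ P (n j) := by
          have : (1 : ℝ) ≤ ((⌈A⌉₊ : ℝ) + 1) * ((n j : ℝ) + 1) ^ 3 := by
            have : (0 : ℝ) ≤ ⌈A⌉₊ := Nat.cast_nonneg _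
            nlinarith
          linarith
        have h11 : A * (n j : ℝ) ^ 3 ≤ A * g (P (n j)) := by nlinarith
        exact le_of_mul_le_mul_left h11 (by linarith)
      have h4 : g (P (n j)) ≤ A * g (n (j + 1)) := by
        apply hg.mono
        rw [hn1]; omega
      have h5 : K * g (P (n j)) ≤ K * (A * g (n (j + 1))) := mul_le_mul_of_nonneg_left h4 hK
      linarith
  refine ⟨hB1, hB0, ?_⟩
  intro N
  -- find the block
  obtain ⟨j, hj1, hj2⟩ : ∃ j, n j ≤ N ∧ N < n (j + 1) := by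
    have hex : ∃ j, N < n (j + 1) := ⟨N, lt_of_lt_of_le (Nat.lt_succ_self N) (hn.id_le _)⟩
    refine ⟨Nat.find hex, ?_, Nat.find_spec hex⟩
    rcases Nat.eq_zero_or_pos (Nat.find hex) with h | h
    · rw [h, hn0]; exact Nat.zero_le _
    · have := Nat.find_min hex (Nat.sub_lt h Nat.one_pos)
      rw [Nat.sub_add_cancel h] at this
      exact not_lt.1 this
  obtain ⟨m, rfl⟩ := Nat.exists_eq_add_of_le hj1
  have h1 : energy B (n j + m) = energy (b (j + 1)) (n j + m) := by
    apply energy_congr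
    intro i hi
    exact hB (j + 1) i (by omega)
  rw [h1]
  have h2 := hglue j m
  have h3 := hend j
  have h4 : g (n j) ≤ A * g (n j + m) := hg.mono _ _ (by omega)
  have h5 : g m ≤ A * g (n j + m) := hg.mono _ _ (by omega)
  have h6 : K * g m ≤ K * (A * g (n j + m)) := mul_le_mul_of_nonneg_left h5 hK
  have h7 : (3 * A + K * A) * g (n j) ≤ (3 * A + K * A) * (A * g (n j + m)) :=
    mul_le_mul_of_nonneg_left h4 (by nlinarith)
  linarith

/-- The set of bad points at some index in `[M, M')`. -/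
def bad (a : ℕ → ℕ) (s ε : ℝ) (M M' : ℕ) : Set UnitAddCircle :=
  {θ | ∃ N, M ≤ N ∧ N < M' ∧ ε < |F a N s θ - 2 * s|}

lemma measurableSet_bad (a : ℕ → ℕ) (s ε : ℝ) (M M' : ℕ) : MeasurableSet (bad a s ε M M') := by
  have : bad a s ε M M' = ⋃ N ∈ Finset.Ico M M', {θ | ε < |F a N s θ - 2 * s|} := by
    ext θ
    simp [bad, and_assoc]
  rw [this]
  apply Finset.measurableSet_biUnion
  intro N _
  exact measurableSet_lt measurable_const (((measurable_F a N s).sub_const _).abs)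

theorem uniform {g : ℕ → ℝ} {A : ℝ} (hg : Reg g A)
    (hH : ∀ K a, Cls g K a → ∀ᵐ θ : UnitAddCircle, PPCc a θ) {K s ε : ℝ} (hK : 0 ≤ K)
    (hs : 0 < s) (hε : 0 < ε) :
    ∃ M : ℕ, ∀ a, Cls g K a →
      volume {θ : UnitAddCircle | ∃ N, M ≤ N ∧ ε < |F a N s θ - 2 * s|} ≤ ENNReal.ofReal ε := by
  by_contra hcon
  push Not at hcon
  choose c hc hcM using hcon
  have hex : ∀ M, ∃ M', ENNReal.ofReal ε < volume (bad (c M) s ε M M') := by
    intro M
    have h1 : {θ : UnitAddCircle | ∃ N, M ≤ N ∧ ε < |F (c M) N s θ - 2 * s|} =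
        ⋃ M', bad (c M) s ε M M' := by
      ext θ
      simp only [bad, Set.mem_ofPred_eq, Set.mem_iUnion]
      constructor
      · rintro ⟨N, h1, h2⟩
        exact ⟨N + 1, N, h1, Nat.lt_succ_self N, h2⟩
      · rintro ⟨_, N, h1, _, h2⟩
        exact ⟨N, h1, h2⟩
    have h2 := hcM M
    rw [h1, Monotone.measure_iUnion] at h2
    · exact lt_iSup_iff.1 h2
    · intro x y hxy θ
      rintro ⟨N, h1, h2, h3⟩
      exact ⟨N, h1, lt_of_lt_of_le h2 hxy, h3⟩
  choose M' hM' using hex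
  have hMM' : ∀ M, M < M' M := by
    intro M
    by_contra h
    have : bad (c M) s ε M (M' M) = ∅ := by
      ext θ
      simp only [bad, Set.mem_ofPred_eq, Set.mem_empty_iff_false, iff_false]
      rintro ⟨N, h1, h2, _⟩
      omega
    have h2 := hM' M
    rw [this, measure_empty] at h2
    exact not_lt_zero h2
  let f : ℕ → ℕ := fun n => (⌈A⌉₊ + 1) * (n + 1) ^ 3
  have hf1 : ∀ n, (n + 1) ^ 3 ≤ f n := fun n => Nat.le_mul_of_pos_left _ (Nat.succ_pos _)
  have hfpos : ∀ n, 0 < f n := fun n => lt_of_lt_of_le (by positivity) (hf1 n)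
  obtain ⟨B, n, b, D, hn0, hn, hn1, hb, hb0, hD, hB, hb1, hB1, hB0⟩ :=
    glue_seq (fun n => M' (f n)) (fun n => lt_of_lt_of_le (hfpos n) (hMM' _).le)
      (fun n => c (f n)) (fun n => (hc _).mono) (fun n => (hc _).pos)
  have hBcls := glue_seq_energy hg hK (fun n => M' (f n)) (fun n => c (f n)) (fun n => hc _)
    (fun n => (hMM' (f n)).le) hn0 hn hn1 hb hb0 hD hB hb1 hB1 hB0
  have hppc := hH _ _ hBcls
  -- the bad sets
  let S : ℕ → Set UnitAddCircle := fun j =>
    (fun θ => D j • θ) ⁻¹' bad (c (f (n j))) s ε (f (n j)) (M' (f (n j)))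
  have hDpos : ∀ j, 0 < D j := fun j => lt_of_le_of_lt (Nat.zero_le _) (hD j)
  have hSm : ∀ j, MeasurableSet (S j) := fun j =>
    (measurePreserving_nsmul' (hDpos j)).measurable (measurableSet_bad _ _ _ _ _)
  have hSv : ∀ j, ENNReal.ofReal ε < volume (S j) := by
    intro j
    have := (measurePreserving_nsmul' (hDpos j)).measure_preimage
      (measurableSet_bad (c (f (n j))) s ε (f (n j)) (M' (f (n j)))).nullMeasurableSet
    show ENNReal.ofReal ε < volume ((fun θ => D j • θ) ⁻¹' _)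
    rw [this]
    exact hM' _
  obtain ⟨T, hT0, hT⟩ := key hs hε
  have hlim : ∀ᵐ θ : UnitAddCircle, ∀ᶠ j in atTop, θ ∈ S j ↔ θ ∈ (∅ : Set UnitAddCircle) := by
    filter_upwards [hppc] with θ hθ
    have ev : ∀ t : ℝ, 0 < t → ∀ᶠ N : ℕ in atTop, |F B N t θ - 2 * t| ≤ ε / 8 := by
      intro t ht
      have h1 := (Metric.tendsto_atTop.1 (hθ t ht)) (ε / 8) (by positivity)
      obtain ⟨N₀, hN₀⟩ := h1
      filter_upwards [eventually_ge_atTop N₀] with N hN
      have := hN₀ N hN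
      rw [Real.dist_eq] at this
      exact this.le
    have h3 := (ev s hs).and ((ev (s + ε / 8) (by positivity)).and (ev (3 * s) (by positivity)))
    obtain ⟨N₀, hN₀⟩ := eventually_atTop.1 h3
    filter_upwards [eventually_ge_atTop (max N₀ T)] with j hj
    simp only [Set.mem_empty_iff_false, iff_false]
    intro hmem
    obtain ⟨N, hN1, hN2, hN3⟩ := hmem
    have hjn : j ≤ n j := hn.id_le j
    have hTj : T ≤ n j := le_trans (le_trans (le_max_right _ _) hj) hjn
    have hNj : N₀ ≤ n j := le_trans (le_trans (le_max_left _ _) hj) hjn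
    have hNpos : 0 < N := lt_of_lt_of_le (hfpos _) hN1
    have hbB : ∀ i < n j + N, B i = glue (b j) (n j) (D j) (c (f (n j))) i := by
      intro i hi
      rw [← hb1]
      apply hB
      rw [hn1]
      omega
    obtain ⟨g1, g2, g3⟩ := hN₀ (n j + N) (by omega)
    have hTN : T * (n j + 1) ^ 2 ≤ N := by
      calc T * (n j + 1) ^ 2 ≤ (n j + 1) * (n j + 1) ^ 2 :=
            Nat.mul_le_mul_right _ (by omega)
        _ = (n j + 1) ^ 3 := by ring
        _ ≤ f (n j) := hf1 _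
        _ ≤ N := hN1
    have := hT (b j) B (c (f (n j))) (n j) (D j) N θ hNpos hbB hTN g1 g2 g3
    exact absurd hN3 (not_lt.2 this)
  have htend := tendsto_measure_of_ae_tendsto_indicator_of_isFiniteMeasure (μ := volume) atTop
    MeasurableSet.empty hSm hlim
  rw [measure_empty] at htend
  have h0 : ENNReal.ofReal ε ≤ 0 := ge_of_tendsto' htend (fun j => (hSv j).le)
  rw [nonpos_iff_eq_zero, ENNReal.ofReal_eq_zero] at h0
  linarith

end Pool.Agent.H88.PCUnif
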