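import Mathlib
import Pool.Agent.H88.PCUnif

/-!
# Diagonalisation: below every decreasing sequence of thresholds there is another threshold
-/

set_option autoImplicit false

namespace Pool.Agent.H88.PCDiag

open Filter Topology Finset MeasureTheory Pool.Agent.H88.PCDefs Pool.Agent.H88.PCBasic
  Pool.Agent.H88.PCGlue Pool.Agent.H88.PCCompare Pool.Agent.H88.PCUnif

/-! ### The powers of three have small additive energy -/

lemma pow3_aux {i j k l : ℕ} (hij : i ≤ j) (hkl : k ≤ l) (h : 3 ^ i + 3 ^ j = 3 ^ k + 3 ^ l) :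
    i = k ∧ j = l := by
  have key : ∀ {i j k l : ℕ}, i ≤ j → 3 ^ i + 3 ^ j = 3 ^ k + 3 ^ l → l ≤ j := by
    intro i j k l hij h
    by_contra hlt
    push Not at hlt
    have h1 : 3 ^ (j + 1) ≤ 3 ^ l := Nat.pow_le_pow_right (by norm_num) hlt
    have h2 : 3 ^ i ≤ 3 ^ j := Nat.pow_le_pow_right (by norm_num) hij
    have h3 : 0 < 3 ^ k := by positivity
    have h4 : 0 < 3 ^ j := by positivity
    rw [pow_succ] at h1
    omega
  have h1 := key hij h
  have h2 := key hkl h.symm
  have hjl : j = l := le_antisymm h2 h1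
  subst hjl
  refine ⟨?_, rfl⟩
  have : 3 ^ i = 3 ^ k := by omega
  exact Nat.pow_right_injective (le_refl 2 |>.trans (by norm_num)) this

lemma pow3 {i j k l : ℕ} (h : 3 ^ i + 3 ^ j = 3 ^ k + 3 ^ l) :
    (i = k ∧ j = l) ∨ (i = l ∧ j = k) := by
  rcases le_total i j with h1 | h1 <;> rcases le_total k l with h2 | h2
  · exact Or.inl (pow3_aux h1 h2 h)
  · rw [add_comm (3 ^ k)] at h
    exact Or.inr (pow3_aux h1 h2 h)
  · rw [add_comm (3 ^ i)] at h
    have := pow3_aux h1 h2 h
    exact Or.inr ⟨this.2, this.1⟩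
  · rw [add_comm (3 ^ i), add_comm (3 ^ k)] at h
    have := pow3_aux h1 h2 h
    exact Or.inl ⟨this.2, this.1⟩

lemma energy_pow3 (m : ℕ) : energy (fun i => 3 ^ i) m ≤ 2 * m ^ 2 := by
  classical
  unfold energy
  have hsub : ((range m ×ˢ range m ×ˢ range m ×ˢ range m).filter
      (fun q => 3 ^ q.1 + 3 ^ q.2.1 = 3 ^ q.2.2.1 + 3 ^ q.2.2.2)) ⊆
      (range m ×ˢ range m).image (fun q => (q.1, q.2, q.1, q.2)) ∪
      (range m ×ˢ range m).image (fun q => (q.1, q.2, q.2, q.1)) := by
    rintro ⟨i, j, k, l⟩ hq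
    simp only [Finset.mem_filter, Finset.mem_product, Finset.mem_range] at hq
    obtain ⟨⟨hi, hj, _, _⟩, he⟩ := hq
    rw [Finset.mem_union, Finset.mem_image, Finset.mem_image]
    rcases pow3 he with ⟨h1, h2⟩ | ⟨h1, h2⟩
    · left
      exact ⟨(i, j), by simp [hi, hj], by simp [h1, h2]⟩
    · right
      exact ⟨(i, j), by simp [hi, hj], by simp [h1, h2]⟩
  refine (Finset.card_le_card hsub).trans ((Finset.card_union_le _ _).trans ?_)
  have h1 : ((range m ×ˢ range m).image (fun q => (q.1, q.2, q.1, q.2))).card ≤ m ^ 2 := by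
    refine Finset.card_image_le.trans ?_
    simp [sq]
  have h2 : ((range m ×ˢ range m).image (fun q => (q.1, q.2, q.2, q.1))).card ≤ m ^ 2 := by
    refine Finset.card_image_le.trans ?_
    simp [sq]
  omega

/-! ### Truncation -/

lemma trunc_cls {g : ℕ → ℝ} {A K K' : ℝ} (hg : Reg g A) (hK : 0 ≤ K) {a : ℕ → ℕ}
    (ha : StrictMono a) (ha0 : ∀ i, 0 < a i) {n : ℕ}
    (hE : ∀ N ≤ n, (energy a N : ℝ) ≤ K * g N) (hK' : K * A + 4 * A ≤ K') :
    Cls g K' (glue a n (2 * a n + 1) (fun i => 3 ^ i)) := by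
  have hA := hg.one_le
  have hg0 : ∀ N, 0 ≤ g N := by
    intro N
    have h1 := hg.sq N
    have h2 : (0 : ℝ) ≤ A * g N := le_trans (by positivity) h1
    exact nonneg_of_mul_nonneg_right h2 (by linarith)
  have hc : StrictMono (fun i : ℕ => 3 ^ i) := pow_right_strictMono₀ (by norm_num)
  have hc0 : ∀ i : ℕ, 0 < 3 ^ i := fun i => by positivity
  have hmono := glue_strictMono (n := n) (D := 2 * a n + 1) ha hc hc0 (by omega)
  have hpos := glue_pos ha0 hc0 (n := n) (D := 2 * a n + 1) (Nat.succ_pos _)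
  refine ⟨hmono, hpos, ?_⟩
  intro N
  rcases le_total N n with h | h
  · have h1 : energy (glue a n (2 * a n + 1) (fun i => 3 ^ i)) N = energy a N :=
      energy_congr (fun i hi => glue_lt (by omega))
    rw [h1]
    refine (hE N h).trans ?_
    apply mul_le_mul_of_nonneg_right _ (hg0 N)
    nlinarith
  · obtain ⟨m, rfl⟩ := Nat.exists_eq_add_of_le h
    have h1 : (energy (glue a n (2 * a n + 1) (fun i => 3 ^ i)) (n + m) : ℝ) ≤
        energy a n + energy (fun i => 3 ^ i) m + 2 * ((n : ℝ) + m) ^ 2 := by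
      exact_mod_cast glue_energy ha ha0 hc hc0 (by omega) m
    have h2 : (energy (fun i => 3 ^ i) m : ℝ) ≤ 2 * (m : ℝ) ^ 2 := by
      exact_mod_cast energy_pow3 m
    have h3 := hE n le_rfl
    have h4 : g n ≤ A * g (n + m) := hg.mono _ _ (by omega)
    have h5 : K * g n ≤ K * (A * g (n + m)) := mul_le_mul_of_nonneg_left h4 hK
    have h6 := hg.sq (n + m)
    push_cast at h6
    have h7 : (m : ℝ) ^ 2 ≤ ((n : ℝ) + m) ^ 2 := by
      apply pow_le_pow_left₀ (Nat.cast_nonneg m)
      have : (0 : ℝ) ≤ n := Nat.cast_nonneg n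
      linarith
    have h8 : (K * A + 4 * A) * g (n + m) ≤ K' * g (n + m) :=
      mul_le_mul_of_nonneg_right hK' (hg0 _)
    linarith

/-! ### The uniform statement for finitely many values of `s` -/

lemma uniform' {g : ℕ → ℝ} {A : ℝ} (hg : Reg g A)
    (hH : ∀ K a, Cls g K a → ∀ᵐ θ : UnitAddCircle, PPCc a θ) {K : ℝ} (hK : 0 ≤ K)
    (q : ℕ → ℝ) (hq : ∀ i, 0 < q i) (k : ℕ) :
    ∃ M : ℕ, ∀ a, Cls g K a →
      volume {θ : UnitAddCircle | ∃ N, M ≤ N ∧ ∃ i ≤ k, 1 / ((k : ℝ) + 1) <
        |F a N (q i) θ - 2 * q i|} ≤ ENNReal.ofReal ((1 / 2) ^ k) := by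
  set ε : ℝ := (1 / 2) ^ k / (k + 1) with hεdef
  have hk1 : (0 : ℝ) < (k : ℝ) + 1 := by positivity
  have hε : 0 < ε := by positivity
  have hε1 : ε ≤ 1 / (k + 1) := by
    rw [hεdef]
    apply div_le_div_of_nonneg_right _ hk1.le
    exact pow_le_one₀ (by norm_num) (by norm_num)
  have h1 := fun i => uniform hg hH hK (hq i) hε
  choose M hM using h1
  refine ⟨(range (k + 1)).sup M, ?_⟩
  intro a ha
  have hsub : {θ : UnitAddCircle | ∃ N, (range (k + 1)).sup M ≤ N ∧ ∃ i ≤ k, 1 / ((k : ℝ) + 1) <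
        |F a N (q i) θ - 2 * q i|} ⊆ ⋃ i ∈ range (k + 1),
        {θ : UnitAddCircle | ∃ N, M i ≤ N ∧ ε < |F a N (q i) θ - 2 * q i|} := by
    rintro θ ⟨N, hN, i, hi, hlt⟩
    have hi' : i ∈ range (k + 1) := Finset.mem_range.2 (by omega)
    simp only [Set.mem_iUnion]
    refine ⟨i, hi', N, le_trans (Finset.le_sup hi') hN, lt_of_le_of_lt hε1 hlt⟩
  refine (measure_mono hsub).trans ((measure_biUnion_finset_le _ _).trans ?_)
  calc ∑ i ∈ range (k + 1), volume {θ : UnitAddCircle | ∃ N, M i ≤ N ∧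
        ε < |F a N (q i) θ - 2 * q i|} ≤ ∑ i ∈ range (k + 1), ENNReal.ofReal ε :=
        Finset.sum_le_sum (fun i _ => hM i a ha)
    _ = ENNReal.ofReal ((1 / 2) ^ k) := by
        rw [Finset.sum_const, Finset.card_range, ← ENNReal.ofReal_nsmul, nsmul_eq_mul]
        congr 1
        rw [hεdef]
        push_cast
        field_simp

/-- Below every decreasing sequence of (regular) thresholds there is another threshold. -/
theorem diag (L : ℕ → ℕ → ℝ) (A : ℕ → ℝ) (hpos : ∀ k N, 0 < L k N)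
    (hreg : ∀ k, Reg (fun N => (N : ℝ) ^ 3 / L k N) (A k))
    (hanti : ∀ k N, L (k + 1) N ≤ L k N) (htop : ∀ k, Tendsto (L k) atTop atTop)
    (hthr : ∀ k, IsThreshold (L k)) :
    ∃ φ : ℕ → ℝ, Tendsto φ atTop atTop ∧ (∀ k, Tendsto (fun N => φ N / L k N) atTop (𝓝 0)) ∧
      IsThreshold φ := by
  classical
  -- the bounds
  set g : ℕ → ℕ → ℝ := fun k N => (N : ℝ) ^ 3 / L k N with hgdef
  have hg0 : ∀ k N, 0 ≤ g k N := fun k N => div_nonneg (by positivity) (hpos k N).le
  have hH : ∀ k K a, Cls (g k) K a → ∀ᵐ θ : UnitAddCircle, PPCc a θ := by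
    intro k K a ha
    rw [← metric_iff]
    refine hthr k a ha.mono ha.pos ⟨max K 1, by positivity, Eventually.of_forall (fun N => ?_)⟩
    exact (ha.en N).trans (mul_le_mul_of_nonneg_right (le_max_left _ _) (hg0 k N))
  have hanti' : ∀ {j k : ℕ}, j ≤ k → ∀ N, L k N ≤ L j N := by
    intro j k hjk N
    exact antitone_nat_of_succ_le (f := fun k => L k N) (fun k => hanti k N) hjk
  -- enumeration of the positive rationals
  obtain ⟨q, hq⟩ : ∃ q : ℕ → ℝ, {x : ℝ | ∃ r : ℚ, 0 < r ∧ x = r} = Set.range q := by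
    apply Set.Countable.exists_eq_range
    · have : {x : ℝ | ∃ r : ℚ, 0 < r ∧ x = r} ⊆ Set.range ((↑) : ℚ → ℝ) := by
        rintro x ⟨r, _, rfl⟩
        exact ⟨r, rfl⟩
      exact (Set.countable_range _).mono this
    · exact ⟨1, 1, by norm_num, by norm_num⟩
  have hqpos : ∀ i, 0 < q i := by
    intro i
    have : q i ∈ {x : ℝ | ∃ r : ℚ, 0 < r ∧ x = r} := hq ▸ Set.mem_range_self i
    obtain ⟨r, hr, hqr⟩ := this
    rw [hqr]; exact_mod_cast hr
  -- the class constants
  set κ : ℕ → ℝ := fun k => ((k : ℝ) + 1) ^ 2 * (A k) ^ 2 with hκ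
  have hκ0 : ∀ k, 0 ≤ κ k := fun k => by positivity
  have hU := fun k => uniform' (hreg k) (hH k) (hκ0 k) q hqpos k
  choose m₁ hm₁ using hU
  have hL := fun k => (tendsto_atTop.1 (htop k) (((k : ℝ) + 1) ^ 2))
  have hL' := fun k => eventually_atTop.1 (hL k)
  choose m₂ hm₂ using hL'
  -- the breakpoints
  set M : ℕ → ℕ := fun k => k + ((range (k + 1)).sup m₁ + (range (k + 1)).sup m₂) with hMdef
  have hMmono : StrictMono M := by
    apply strictMono_nat_of_lt_succ
    intro k
    have h1 : (range (k + 1)).sup m₁ ≤ (range (k + 1 + 1)).sup m₁ :=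
      Finset.sup_mono (Finset.range_subset_range.2 (by omega))
    have h2 : (range (k + 1)).sup m₂ ≤ (range (k + 1 + 1)).sup m₂ :=
      Finset.sup_mono (Finset.range_subset_range.2 (by omega))
    simp only [hMdef]
    omega
  have hM1 : ∀ k, m₁ k ≤ M k := by
    intro k
    have h1 : m₁ k ≤ (range (k + 1)).sup m₁ := Finset.le_sup (Finset.mem_range.2 (by omega))
    simp only [hMdef]; omega
  have hM2 : ∀ k, m₂ k ≤ M k := by
    intro k
    have h1 : m₂ k ≤ (range (k + 1)).sup m₂ := Finset.le_sup (Finset.mem_range.2 (by omega))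
    simp only [hMdef]; omega
  have hMk : ∀ k, k ≤ M k := hMmono.id_le
  -- the index function
  set idx : ℕ → ℕ := fun N => Nat.findGreatest (fun k => M k ≤ N) N with hidx
  have hidx1 : ∀ N k, idx N < k → N < M k := by
    intro N k hk
    rcases le_or_gt k N with h | h
    · exact not_le.1 (Nat.findGreatest_is_greatest (P := fun k => M k ≤ N) hk h)
    · exact lt_of_lt_of_le h (hMk k)
  have hidx2 : ∀ N, M 0 ≤ N → M (idx N) ≤ N := by
    intro N hN
    rcases Nat.eq_zero_or_pos (idx N) with h | h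
    · rw [h]; exact hN
    · exact Nat.findGreatest_of_ne_zero (P := fun k => M k ≤ N) (n := N) rfl h.ne'
  have hidx3 : ∀ N k, M k ≤ N → k ≤ idx N := by
    intro N k hk
    by_contra h
    exact absurd (hidx1 N k (not_le.1 h)) (not_lt.2 hk)
  have hidx4 : ∀ N k, N < M (k + 1) → idx N ≤ k := by
    intro N k hk
    by_contra h
    have h1 : k + 1 ≤ idx N := by omega
    have h2 : M (idx N) ≤ N :=
      Nat.findGreatest_of_ne_zero (P := fun k => M k ≤ N) (n := N) rfl (by omega)
    have h3 := hMmono.monotone h1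
    omega
  -- the new threshold
  set φ : ℕ → ℝ := fun N => L (idx N) N / ((idx N : ℝ) + 1) with hφ
  refine ⟨φ, ?_, ?_, ?_⟩
  · -- tends to infinity
    rw [tendsto_atTop]
    intro x
    obtain ⟨k, hk⟩ := exists_nat_ge x
    filter_upwards [eventually_ge_atTop (M k)] with N hN
    have h0 : M 0 ≤ N := le_trans (hMmono.monotone (Nat.zero_le k)) hN
    have h1 := hidx2 N h0
    have h2 := hidx3 N k hN
    have h3 := hm₂ (idx N) N (le_trans (hM2 _) h1)
    have h4 : (k : ℝ) ≤ idx N := by exact_mod_cast h2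
    have h5 : (0 : ℝ) < (idx N : ℝ) + 1 := by positivity
    simp only [hφ]
    rw [le_div_iff₀ h5]
    have h6 : x * ((idx N : ℝ) + 1) ≤ ((idx N : ℝ) + 1) * ((idx N : ℝ) + 1) := by
      apply mul_le_mul_of_nonneg_right _ h5.le
      linarith
    nlinarith
  · -- grows more slowly than each of the given thresholds
    intro j
    have hlim : Tendsto (fun N => 1 / ((idx N : ℝ) + 1)) atTop (𝓝 0) := by
      have h1 : Tendsto (fun n : ℕ => 1 / ((n : ℝ) + 1)) atTop (𝓝 0) :=
        tendsto_one_div_add_atTop_nhds_zero_nat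
      have h2 : Tendsto idx atTop atTop := by
        rw [tendsto_atTop]
        intro k
        filter_upwards [eventually_ge_atTop (M k)] with N hN
        exact hidx3 N k hN
      exact h1.comp h2
    refine tendsto_of_tendsto_of_tendsto_of_le_of_le' tendsto_const_nhds hlim ?_ ?_
    · exact Eventually.of_forall (fun N => div_nonneg
        (div_nonneg (hpos _ _).le (by positivity)) (hpos _ _).le)
    · filter_upwards [eventually_ge_atTop (M j)] with N hN
      have h2 := hidx3 N j hN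
      have h3 := hanti' h2 N
      have h4 := hpos j N
      simp only [hφ]
      rw [div_div, div_le_div_iff₀ (by positivity) (by positivity)]
      have h5 : (0 : ℝ) < (idx N : ℝ) + 1 := by positivity
      nlinarith
  · -- is a threshold
    intro a ha ha0 hE
    obtain ⟨Kc, hKc, hE⟩ := hE
    obtain ⟨N₀, hN₀⟩ := eventually_atTop.1 hE
    have hEk : ∀ k N, N < M (k + 1) →
        (energy a N : ℝ) ≤ (Kc * (k + 1) + N₀ * A k) * g k N := by
      intro k N hN
      rcases le_or_gt N₀ N with h | h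
      · have h1 := hN₀ N h
        have h2 := hidx4 N k hN
        have h3 : (N : ℝ) ^ 3 / φ N = ((idx N : ℝ) + 1) * g (idx N) N := by
          simp only [hφ, hgdef]
          have := (hpos (idx N) N).ne'
          field_simp
        have h4 : g (idx N) N ≤ g k N := by
          simp only [hgdef]
          exact div_le_div_of_nonneg_left (by positivity) (hpos _ _) (hanti' h2 N)
        have h5 : (idx N : ℝ) + 1 ≤ (k : ℝ) + 1 := by
          have : (idx N : ℝ) ≤ k := by exact_mod_cast h2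
          linarith
        calc (energy a N : ℝ) ≤ Kc * ((N : ℝ) ^ 3 / φ N) := h1
          _ = Kc * (((idx N : ℝ) + 1) * g (idx N) N) := by rw [h3]
          _ ≤ Kc * (((k : ℝ) + 1) * g k N) := by
              apply mul_le_mul_of_nonneg_left _ hKc.le
              exact mul_le_mul h5 h4 (hg0 _ _) (by positivity)
          _ ≤ (Kc * (k + 1) + N₀ * A k) * g k N := by
              have h6 : 0 ≤ N₀ * A k * g k N :=
                mul_nonneg (mul_nonneg (Nat.cast_nonneg _) (by linarith [(hreg k).one_le]))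
                  (hg0 _ _)
              nlinarith
      · have h1 : (energy a N : ℝ) ≤ (N : ℝ) ^ 3 := by
          exact_mod_cast energy_le_cube ha.injective N
        have h2 : (N : ℝ) ^ 3 ≤ N₀ * (N : ℝ) ^ 2 := by
          have : (N : ℝ) ≤ N₀ := by exact_mod_cast h.le
          calc (N : ℝ) ^ 3 = N * (N : ℝ) ^ 2 := by ring
            _ ≤ N₀ * (N : ℝ) ^ 2 := mul_le_mul_of_nonneg_right this (by positivity)
        have h3 : (N : ℝ) ^ 2 ≤ A k * g k N := (hreg k).sq N
        have h4 : (N₀ : ℝ) * (N : ℝ) ^ 2 ≤ N₀ * (A k * g k N) :=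
          mul_le_mul_of_nonneg_left h3 (Nat.cast_nonneg _)
        have h5 : 0 ≤ Kc * (k + 1) * g k N := mul_nonneg (by positivity) (hg0 _ _)
        linarith
    -- the truncated sequences
    set b : ℕ → ℕ → ℕ := fun k =>
      glue a (M (k + 1) - 1) (2 * a (M (k + 1) - 1) + 1) (fun i => 3 ^ i) with hb
    obtain ⟨k₀, hk₀⟩ := exists_nat_ge (Kc + N₀ + 4)
    have hMpos : ∀ k, 0 < M (k + 1) := fun k => lt_of_lt_of_le (Nat.succ_pos k) (hMk (k + 1))
    have hbcls : ∀ k, k₀ ≤ k → Cls (g k) (κ k) (b k) := by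
      intro k hk
      have hA := (hreg k).one_le
      apply trunc_cls (hreg k) (K := Kc * (k + 1) + N₀ * A k) _ ha ha0
      · intro N hN
        apply hEk
        have := hMpos k
        omega
      · simp only [hκ]
        have h1 : (k₀ : ℝ) ≤ k := by exact_mod_cast hk
        have h2 : Kc + N₀ + 4 ≤ (k : ℝ) + 1 := by linarith
        have h3 : (0 : ℝ) ≤ k := Nat.cast_nonneg k
        have h4 : (0 : ℝ) ≤ N₀ := Nat.cast_nonneg _
        have e1 : Kc * (k + 1) * A k ≤ Kc * (k + 1) * (A k) ^ 2 := by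
          apply mul_le_mul_of_nonneg_left _ (by positivity)
          nlinarith
        have e2 : N₀ * A k * A k ≤ N₀ * (k + 1) * (A k) ^ 2 := by
          have : N₀ * A k * A k = N₀ * 1 * (A k) ^ 2 := by ring
          rw [this]
          apply mul_le_mul_of_nonneg_right _ (by positivity)
          apply mul_le_mul_of_nonneg_left _ h4
          linarith
        have e3 : 4 * A k ≤ 4 * (k + 1) * (A k) ^ 2 := by
          have : A k ≤ (A k) ^ 2 := by nlinarith
          have h5 : (A k) ^ 2 ≤ (k + 1) * (A k) ^ 2 := by nlinarith [sq_nonneg (A k)]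
          nlinarith
        have e4 : (Kc + N₀ + 4) * ((k + 1) * (A k) ^ 2) ≤ (k + 1) * ((k + 1) * (A k) ^ 2) :=
          mul_le_mul_of_nonneg_right h2 (by positivity)
        nlinarith
      · have h4 : (0 : ℝ) ≤ N₀ := Nat.cast_nonneg _
        have h3 : (0 : ℝ) ≤ k := Nat.cast_nonneg k
        have h5 : 0 ≤ A k := by linarith
        positivity
    set S : ℕ → Set UnitAddCircle := fun k =>
      {θ : UnitAddCircle | ∃ N, m₁ k ≤ N ∧ ∃ i ≤ k, 1 / ((k : ℝ) + 1) <
        |F (b k) N (q i) θ - 2 * q i|} with hS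
    have hSv : ∀ k, volume (S (k + k₀)) ≤ ENNReal.ofReal ((1 / 2) ^ (k + k₀)) := by
      intro k
      exact hm₁ (k + k₀) (b (k + k₀)) (hbcls _ (Nat.le_add_left _ _))
    have hsum : ∑' k, volume (S (k + k₀)) ≠ ⊤ := by
      have h1 : Summable (fun k : ℕ => ((1 : ℝ) / 2) ^ (k + k₀)) :=
        (summable_nat_add_iff k₀).2 summable_geometric_two
      have h2 : ∑' k : ℕ, ENNReal.ofReal (((1 : ℝ) / 2) ^ (k + k₀)) ≠ ⊤ := by
        rw [← ENNReal.ofReal_tsum_of_nonneg (fun k => by positivity) h1]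
        exact ENNReal.ofReal_ne_top
      exact ne_top_of_le_ne_top h2 (ENNReal.tsum_le_tsum hSv)
    rw [metric_iff]
    filter_upwards [ae_eventually_notMem hsum] with θ hθ
    have hθ' : ∀ᶠ k in atTop, θ ∉ S k := by
      obtain ⟨k₁, hk₁⟩ := eventually_atTop.1 hθ
      filter_upwards [eventually_ge_atTop (k₁ + k₀)] with k hk
      have := hk₁ (k - k₀) (by omega)
      rwa [Nat.sub_add_cancel (by omega)] at this
    obtain ⟨k₂, hk₂⟩ := eventually_atTop.1 hθ'
    have hconv : ∀ i, Tendsto (fun N : ℕ => F a N (q i) θ) atTop (𝓝 (2 * q i)) := by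
      intro i
      rw [Metric.tendsto_atTop]
      intro δ hδ
      obtain ⟨k₃, hk₃⟩ := exists_nat_one_div_lt hδ
      refine ⟨M (max (max k₂ k₃) i), ?_⟩
      intro N hN
      have h0 : M 0 ≤ N := le_trans (hMmono.monotone (Nat.zero_le _)) hN
      have h1 := hidx2 N h0
      have h2 := hidx3 N _ hN
      have h3 := hidx1 N (idx N + 1) (Nat.lt_succ_self _)
      set k := idx N with hk
      have hk2 : k₂ ≤ k := le_trans (le_trans (le_max_left _ _) (le_max_left _ _)) h2
      have hk3 : k₃ ≤ k := le_trans (le_trans (le_max_right _ _) (le_max_left _ _)) h2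
      have hki : i ≤ k := le_trans (le_max_right _ _) h2
      have h4 := hk₂ k hk2
      have h5 : F a N (q i) θ = F (b k) N (q i) θ := by
        apply F_congr
        intro j hj
        simp only [hb]
        rw [glue_lt]
        have := hMpos k
        omega
      rw [Real.dist_eq, h5]
      have h6 : |F (b k) N (q i) θ - 2 * q i| ≤ 1 / ((k : ℝ) + 1) := by
        by_contra hcon
        apply h4
        exact ⟨N, le_trans (hM1 k) h1, i, hki, not_le.1 hcon⟩
      have h7 : 1 / ((k : ℝ) + 1) ≤ 1 / ((k₃ : ℝ) + 1) := by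
        apply one_div_le_one_div_of_le (by positivity)
        have : (k₃ : ℝ) ≤ k := by exact_mod_cast hk3
        linarith
      linarith
    apply PPCc_of_dense {x : ℝ | ∃ r : ℚ, 0 < r ∧ x = r}
    · intro x y hx hxy
      obtain ⟨r, hr1, hr2⟩ := exists_rat_btwn hxy
      refine ⟨r, ⟨r, ?_, rfl⟩, hr1, hr2⟩
      have : (0 : ℝ) < r := lt_of_le_of_lt hx hr1
      exact_mod_cast this
    · intro x hx _
      rw [hq] at hx
      obtain ⟨i, rfl⟩ := hx
      exact hconv i

end Pool.Agent.H88.PCDiag
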