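import Mathlib
import Pool.Agent.H88.PCDiag

/-!
# Powers of the logarithm as thresholds
-/

set_option autoImplicit false

namespace Pool.Agent.H88.PCLog

open Filter Topology Finset MeasureTheory Pool.Agent.H88.PCDefs Pool.Agent.H88.PCBasic
  Pool.Agent.H88.PCUnif Pool.Agent.H88.PCDiag

/-- `max(1, log N) ^ C`. -/
noncomputable def Lc (C : ℝ) (N : ℕ) : ℝ := (max 1 (Real.log N)) ^ C

lemma Lc_pos (C : ℝ) (N : ℕ) : 0 < Lc C N :=
  Real.rpow_pos_of_pos (lt_of_lt_of_le one_pos (le_max_left _ _)) _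

lemma log_ev : ∀ᶠ N : ℕ in atTop, 1 ≤ Real.log N := by
  have h : Tendsto (fun N : ℕ => Real.log N) atTop atTop :=
    Real.tendsto_log_atTop.comp tendsto_natCast_atTop_atTop
  exact tendsto_atTop.1 h 1

lemma Lc_ev (C : ℝ) : ∀ᶠ N : ℕ in atTop, Lc C N = (Real.log N) ^ C := by
  filter_upwards [log_ev] with N hN
  unfold Lc
  rw [max_eq_right hN]

lemma isThreshold_congr {L L' : ℕ → ℝ} (h : ∀ᶠ N in atTop, L N = L' N) (hL : IsThreshold L) :
    IsThreshold L' := by
  intro a ha ha0 hE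
  apply hL a ha ha0
  obtain ⟨K, hK, hE⟩ := hE
  refine ⟨K, hK, ?_⟩
  filter_upwards [h, hE] with N h1 h2
  rw [h1]
  exact h2

lemma Lc_anti {C C' : ℝ} (h : C ≤ C') (N : ℕ) : Lc C N ≤ Lc C' N :=
  Real.rpow_le_rpow_of_exponent_le (le_max_left _ _) h

lemma Lc_tendsto {C : ℝ} (hC : 0 < C) : Tendsto (Lc C) atTop atTop := by
  have h : Tendsto (fun N : ℕ => (Real.log N) ^ C) atTop atTop :=
    (tendsto_rpow_atTop hC).comp (Real.tendsto_log_atTop.comp tendsto_natCast_atTop_atTop)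
  exact h.congr' ((Lc_ev C).mono (fun N hN => hN.symm))

lemma one_add_log_rpow {C t : ℝ} (hC : 0 < C) (ht : 1 ≤ t) :
    (1 + Real.log t) ^ C ≤ (1 + C) ^ C * t := by
  have h0 : 0 ≤ Real.log t := Real.log_nonneg ht
  have h1 : Real.log t ≤ t ^ (1 / C) / (1 / C) :=
    Real.log_le_rpow_div (by linarith) (by positivity)
  have h2 : (1 : ℝ) ≤ t ^ (1 / C) := Real.one_le_rpow ht (by positivity)
  have h3 : 1 + Real.log t ≤ (1 + C) * t ^ (1 / C) := by
    have : t ^ (1 / C) / (1 / C) = C * t ^ (1 / C) := by field_simp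
    rw [this] at h1
    linarith
  calc (1 + Real.log t) ^ C ≤ ((1 + C) * t ^ (1 / C)) ^ C :=
        Real.rpow_le_rpow (by linarith) h3 hC.le
    _ = (1 + C) ^ C * (t ^ (1 / C)) ^ C :=
        Real.mul_rpow (by linarith) (by positivity)
    _ = (1 + C) ^ C * t := by
        rw [← Real.rpow_mul (by linarith), one_div, inv_mul_cancel₀ hC.ne', Real.rpow_one]

lemma Lc_reg {C : ℝ} (hC : 0 < C) : Reg (fun N => (N : ℝ) ^ 3 / Lc C N) ((1 + C) ^ C) := by
  have hA : (1 : ℝ) ≤ (1 + C) ^ C := Real.one_le_rpow (by linarith) hC.le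
  have hratio : ∀ n N : ℕ, 1 ≤ n → n ≤ N → Lc C N ≤ Lc C n * ((1 + C) ^ C * ((N : ℝ) / n)) := by
    intro n N hn hnN
    have hn0 : (0 : ℝ) < n := by exact_mod_cast hn
    have hN0 : (0 : ℝ) < N := by exact_mod_cast lt_of_lt_of_le hn hnN
    have ht : (1 : ℝ) ≤ (N : ℝ) / n := by
      rw [le_div_iff₀ hn0, one_mul]; exact_mod_cast hnN
    have h0 : 0 ≤ Real.log ((N : ℝ) / n) := Real.log_nonneg ht
    have hm1 : (1 : ℝ) ≤ max 1 (Real.log n) := le_max_left _ _
    have hlog : Real.log N = Real.log n + Real.log ((N : ℝ) / n) := by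
      rw [Real.log_div hN0.ne' hn0.ne']; ring
    have h1 : max 1 (Real.log N) ≤ max 1 (Real.log n) * (1 + Real.log ((N : ℝ) / n)) := by
      apply max_le
      · nlinarith
      · rw [hlog]
        have := le_max_right 1 (Real.log n)
        nlinarith
    unfold Lc
    calc (max 1 (Real.log N)) ^ C
        ≤ (max 1 (Real.log n) * (1 + Real.log ((N : ℝ) / n))) ^ C :=
          Real.rpow_le_rpow (by positivity) h1 hC.le
      _ = (max 1 (Real.log n)) ^ C * (1 + Real.log ((N : ℝ) / n)) ^ C :=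
          Real.mul_rpow (by positivity) (by linarith)
      _ ≤ (max 1 (Real.log n)) ^ C * ((1 + C) ^ C * ((N : ℝ) / n)) := by
          apply mul_le_mul_of_nonneg_left (one_add_log_rpow hC ht) (by positivity)
  refine ⟨hA, ?_, ?_⟩
  · intro n N hnN
    rcases Nat.eq_zero_or_pos n with h | h
    · subst h
      have : (0 : ℝ) ≤ (1 + C) ^ C * ((N : ℝ) ^ 3 / Lc C N) :=
        mul_nonneg (by linarith) (div_nonneg (by positivity) (Lc_pos C N).le)
      simpa using this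
    · have h1 := hratio n N h hnN
      have hn0 : (0 : ℝ) < n := by exact_mod_cast h
      have hNn : (n : ℝ) ≤ N := by exact_mod_cast hnN
      show (n : ℝ) ^ 3 / Lc C n ≤ (1 + C) ^ C * ((N : ℝ) ^ 3 / Lc C N)
      rw [← mul_div_assoc, div_le_div_iff₀ (Lc_pos C n) (Lc_pos C N)]
      calc (n : ℝ) ^ 3 * Lc C N ≤ (n : ℝ) ^ 3 * (Lc C n * ((1 + C) ^ C * ((N : ℝ) / n))) :=
            mul_le_mul_of_nonneg_left h1 (by positivity)
        _ = (1 + C) ^ C * ((n : ℝ) ^ 2 * N) * Lc C n := by field_simp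
        _ ≤ (1 + C) ^ C * (N : ℝ) ^ 3 * Lc C n := by
            apply mul_le_mul_of_nonneg_right _ (Lc_pos C n).le
            apply mul_le_mul_of_nonneg_left _ (by linarith)
            have : (n : ℝ) ^ 2 ≤ (N : ℝ) ^ 2 := by gcongr
            calc (n : ℝ) ^ 2 * N ≤ (N : ℝ) ^ 2 * N := by
                  apply mul_le_mul_of_nonneg_right this (Nat.cast_nonneg _)
              _ = (N : ℝ) ^ 3 := by ring
  · intro N
    rcases Nat.eq_zero_or_pos N with h | h
    · subst h; simp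
    · have h1 := hratio 1 N le_rfl h
      have hN0 : (0 : ℝ) < N := by exact_mod_cast h
      have hL1 : Lc C 1 = 1 := by simp [Lc]
      rw [hL1] at h1
      simp only [Nat.cast_one, div_one, one_mul] at h1
      show (N : ℝ) ^ 2 ≤ (1 + C) ^ C * ((N : ℝ) ^ 3 / Lc C N)
      rw [← mul_div_assoc, le_div_iff₀ (Lc_pos C N)]
      calc (N : ℝ) ^ 2 * Lc C N ≤ (N : ℝ) ^ 2 * ((1 + C) ^ C * N) :=
            mul_le_mul_of_nonneg_left h1 (by positivity)
        _ = (1 + C) ^ C * (N : ℝ) ^ 3 := by ring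

/-- One function that lies below all powers of the logarithm which are thresholds. -/
theorem exists_below : ∃ φ : ℕ → ℝ, Tendsto φ atTop atTop ∧
    ∀ C₀ : ℝ, 0 < C₀ → IsThreshold (fun N => (Real.log N) ^ C₀) →
      Tendsto (fun N : ℕ => φ N / (Real.log N) ^ C₀) atTop (𝓝 0) ∧ IsThreshold φ := by
  classical
  set V : Set ℝ := {C | 0 < C ∧ IsThreshold (fun N => (Real.log N) ^ C)} with hV
  rcases Set.eq_empty_or_nonempty V with hemp | hne
  · refine ⟨fun N => (N : ℝ), tendsto_natCast_atTop_atTop, ?_⟩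
    intro C hC hT
    have : C ∈ V := ⟨hC, hT⟩
    rw [hemp] at this
    exact absurd this (Set.notMem_empty _)
  -- a decreasing sequence in `V`, eventually below every element of `V`
  obtain ⟨c, hcV, hcanti, hcbelow⟩ : ∃ c : ℕ → ℝ, (∀ k, c k ∈ V) ∧ (∀ k, c (k + 1) ≤ c k) ∧
      ∀ C ∈ V, ∃ k, c k ≤ C := by
    by_cases hmin : ∃ C ∈ V, ∀ C' ∈ V, C ≤ C'
    · obtain ⟨C, hC, hle⟩ := hmin
      exact ⟨fun _ => C, fun _ => hC, fun _ => le_rfl, fun C' hC' => ⟨0, hle C' hC'⟩⟩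
    · have hbdd : BddBelow V := ⟨0, fun C hC => hC.1.le⟩
      obtain ⟨u, huanti, hutend, huV⟩ := exists_seq_tendsto_sInf hne hbdd
      refine ⟨u, huV, fun k => huanti (Nat.le_succ k), ?_⟩
      intro C hC
      have hlt : sInf V < C := by
        refine lt_of_le_of_ne (csInf_le hbdd hC) ?_
        intro heq
        apply hmin
        exact ⟨C, hC, fun C' hC' => heq ▸ csInf_le hbdd hC'⟩
      obtain ⟨k, hk⟩ := ((tendsto_order.1 hutend).2 C hlt).exists
      exact ⟨k, hk.le⟩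
  obtain ⟨φ, hφ1, hφ2, hφ3⟩ := diag (fun k => Lc (c k)) (fun k => (1 + c k) ^ (c k))
    (fun k N => Lc_pos _ _) (fun k => Lc_reg (hcV k).1) (fun k N => Lc_anti (hcanti k) N)
    (fun k => Lc_tendsto (hcV k).1)
    (fun k => isThreshold_congr ((Lc_ev (c k)).mono (fun N hN => hN.symm)) (hcV k).2)
  refine ⟨φ, hφ1, ?_⟩
  intro C hC hT
  refine ⟨?_, hφ3⟩
  obtain ⟨k, hk⟩ := hcbelow C ⟨hC, hT⟩
  refine tendsto_of_tendsto_of_tendsto_of_le_of_le' tendsto_const_nhds (hφ2 k) ?_ ?_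
  · filter_upwards [tendsto_atTop.1 hφ1 0] with N hN
    exact div_nonneg hN (Real.rpow_nonneg (Real.log_natCast_nonneg N) _)
  · filter_upwards [tendsto_atTop.1 hφ1 0, Lc_ev C] with N hN hN2
    rw [← hN2]
    exact div_le_div_of_nonneg_left hN (Lc_pos _ _) (Lc_anti hk N)

end Pool.Agent.H88.PCLog
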