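import Mathlib
import Pool.Agent.H88.PCGcd
import Pool.Agent.H88.PCLog

/-!
# The Bloom–Walker theorem with an explicit exponent
-/

set_option autoImplicit false

namespace Pool.Agent.H88.PCBW

open Filter Topology Finset MeasureTheory Pool.Agent.H88.PCDefs Pool.Agent.H88.PCBasic
  Pool.Agent.H88.PCVar Pool.Agent.H88.PCGcd Pool.Agent.H88.PCLog

/-! ### The bound for the GCD sum under the energy hypothesis -/

lemma harmonic_le {Q : ℕ} : (∑ n ∈ Icc 1 Q, (1 : ℝ) / n) ≤ 1 + Real.log Q := by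
  have h := harmonic_le_one_add_log Q
  rw [harmonic_eq_sum_Icc] at h
  push_cast at h
  simpa [one_div] using h

lemma log2_le {N : ℕ} (hN : 1 ≤ Real.log N) : ((Nat.log 2 N + 3 : ℕ) : ℝ) ≤ 5 * Real.log N := by
  have hN0 : N ≠ 0 := by
    rintro rfl
    simp at hN
    linarith
  have h1 : (2 : ℝ) ^ Nat.log 2 N ≤ N := by exact_mod_cast Nat.pow_log_le_self 2 hN0
  have h2 : (Nat.log 2 N : ℝ) * Real.log 2 ≤ Real.log N := by
    rw [← Real.log_pow]
    exact Real.log_le_log (by positivity) h1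
  have h3 : (1 : ℝ) / 2 ≤ Real.log 2 := by
    have := Real.log_two_gt_d9; linarith
  have h4 : (Nat.log 2 N : ℝ) ≤ 2 * Real.log N := by
    have h5 : (Nat.log 2 N : ℝ) * (1 / 2) ≤ (Nat.log 2 N : ℝ) * Real.log 2 :=
      mul_le_mul_of_nonneg_left h3 (Nat.cast_nonneg _)
    linarith
  push_cast
  linarith

lemma le_harmonic {Q : ℕ} : Real.log Q ≤ ∑ n ∈ Icc 1 Q, (1 : ℝ) / n := by
  have h := log_add_one_le_harmonic Q
  rw [harmonic_eq_sum_Icc] at h
  push_cast at h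
  have h2 : Real.log Q ≤ Real.log (Q + 1) := by
    rcases Nat.eq_zero_or_pos Q with h0 | h0
    · subst h0; simp
    · have : (0 : ℝ) < Q := by exact_mod_cast h0
      exact Real.log_le_log this (by linarith)
  refine h2.trans ?_
  simpa [one_div] using h

lemma gcdSum_bound {a : ℕ → ℕ} (ha : StrictMono a) {C : ℝ} (hC : 17 / 2 < C)
    (hE : EnergyBigO a (fun N => (N : ℝ) ^ 3 / (Real.log N) ^ C)) :
    ∃ β c : ℝ, 1 < β ∧ 0 < c ∧ ∀ᶠ N : ℕ in atTop,
      gcdSum a N ≤ c * ((N : ℝ) ^ 3 * (Real.log N) ^ (-β)) := by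
  obtain ⟨K, hK, hE⟩ := hE
  set β : ℝ := (2 * C - 13) / 4 with hβ
  have hβ1 : 1 < β := by rw [hβ]; linarith
  set A : ℝ := 4 * 1024 * 5 * 5 ^ 16 * K ^ 2 with hA
  have hA0 : 0 < A := by positivity
  refine ⟨β, A ^ (1 / 4 : ℝ) + (1 + β) ^ β, hβ1, by positivity, ?_⟩
  filter_upwards [hE, log_ev, eventually_ge_atTop 1] with N h1 h2 h3
  set l := Real.log N with hl
  have hl0 : 0 < l := by linarith
  have hN0 : (0 : ℝ) < N := by exact_mod_cast h3
  have hQ : 0 < N ^ 2 := by positivity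
  have e1 := gcdSum_le ha N hQ
  have e2 := S'_pow_four ha N ((N ^ 2) ^ 2)
  -- the main term
  have hH : (∑ n ∈ Icc 1 ((N ^ 2) ^ 2), (1 : ℝ) / n) ≤ 5 * l := by
    have := harmonic_le (Q := (N ^ 2) ^ 2)
    push_cast at this
    rw [Real.log_pow, Real.log_pow] at this
    push_cast at this
    linarith
  have hH0 : (0 : ℝ) ≤ ∑ n ∈ Icc 1 ((N ^ 2) ^ 2), (1 : ℝ) / n :=
    Finset.sum_nonneg (fun n _ => by positivity)
  have hH1 : l ≤ ∑ n ∈ Icc 1 (N ^ 2), (1 : ℝ) / n := by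
    have := le_harmonic (Q := N ^ 2)
    push_cast at this
    rw [Real.log_pow] at this
    push_cast at this
    linarith
  have e3 : S' a N ((N ^ 2) ^ 2) ^ 4 ≤ (A ^ (1 / 4 : ℝ) * ((N : ℝ) ^ 3 * l ^ (1 - β))) ^ 4 := by
    have g1 : (2 * (energy a N : ℝ)) ^ 2 ≤ (2 * (K * ((N : ℝ) ^ 3 / l ^ C))) ^ 2 := by
      apply pow_le_pow_left₀ (by positivity)
      linarith
    have g2 : (1024 * (N : ℝ) ^ 6 * (Nat.log 2 N + 3 : ℕ)) ≤ 1024 * (N : ℝ) ^ 6 * (5 * l) :=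
      mul_le_mul_of_nonneg_left (log2_le h2) (by positivity)
    have g3 : (∑ n ∈ Icc 1 ((N ^ 2) ^ 2), (1 : ℝ) / n) ^ 16 ≤ (5 * l) ^ 16 :=
      pow_le_pow_left₀ hH0 hH 16
    refine e2.trans ?_
    calc (2 * (energy a N : ℝ)) ^ 2 * (1024 * (N : ℝ) ^ 6 * (Nat.log 2 N + 3 : ℕ)) *
          (∑ n ∈ Icc 1 ((N ^ 2) ^ 2), (1 : ℝ) / n) ^ 16
        ≤ (2 * (K * ((N : ℝ) ^ 3 / l ^ C))) ^ 2 * (1024 * (N : ℝ) ^ 6 * (5 * l)) *
          (5 * l) ^ 16 := by
          apply mul_le_mul (mul_le_mul g1 g2 (by positivity) (by positivity)) g3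
            (by positivity) (by positivity)
      _ = A * (N : ℝ) ^ 12 * (l ^ 17 / (l ^ C) ^ 2) := by
          rw [hA]; ring
      _ = A * (N : ℝ) ^ 12 * l ^ ((1 - β) * 4) := by
          congr 1
          rw [← Real.rpow_natCast l 17, ← Real.rpow_natCast (l ^ C) 2, ← Real.rpow_mul hl0.le,
            ← Real.rpow_sub hl0]
          congr 1
          rw [hβ]
          push_cast
          ring
      _ = (A ^ (1 / 4 : ℝ) * ((N : ℝ) ^ 3 * l ^ (1 - β))) ^ 4 := by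
          rw [mul_pow, mul_pow, ← Real.rpow_natCast (A ^ (1 / 4 : ℝ)) 4, ← Real.rpow_mul hA0.le,
            ← Real.rpow_natCast (l ^ (1 - β)) 4, ← Real.rpow_mul hl0.le]
          norm_num
          ring
  have e4 : S' a N ((N ^ 2) ^ 2) ≤ A ^ (1 / 4 : ℝ) * ((N : ℝ) ^ 3 * l ^ (1 - β)) :=
    le_of_pow_le_pow_left₀ (by norm_num) (by positivity) e3
  have e6 : S' a N ((N ^ 2) ^ 2) / (∑ n ∈ Icc 1 (N ^ 2), (1 : ℝ) / n) ≤
      A ^ (1 / 4 : ℝ) * ((N : ℝ) ^ 3 * l ^ (-β)) := by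
    calc S' a N ((N ^ 2) ^ 2) / (∑ n ∈ Icc 1 (N ^ 2), (1 : ℝ) / n)
        ≤ (A ^ (1 / 4 : ℝ) * ((N : ℝ) ^ 3 * l ^ (1 - β))) / l :=
          div_le_div₀ (by positivity) e4 hl0 hH1
      _ = A ^ (1 / 4 : ℝ) * ((N : ℝ) ^ 3 * l ^ (-β)) := by
          have : l ^ (1 - β) = l * l ^ (-β) := by
            rw [sub_eq_add_neg, Real.rpow_add hl0, Real.rpow_one]
          rw [this]
          field_simp
  -- the error term
  have e5 : (N : ℝ) ^ 4 / ((N ^ 2 : ℕ) : ℝ) ≤ (1 + β) ^ β * ((N : ℝ) ^ 3 * l ^ (-β)) := by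
    have g1 := (Lc_reg (show 0 < β by linarith)).sq N
    have g2 : Lc β N = l ^ β := by
      unfold Lc; rw [max_eq_right h2]
    simp only [g2] at g1
    have g3 : (N : ℝ) ^ 4 / ((N ^ 2 : ℕ) : ℝ) = (N : ℝ) ^ 2 := by
      push_cast
      field_simp
    rw [g3, Real.rpow_neg hl0.le, ← div_eq_mul_inv]
    exact g1
  rw [add_mul]
  linarith

/-! ### The variance -/

lemma F_sq_integrable (a : ℕ → ℕ) (N : ℕ) (s c : ℝ) :
    Integrable (fun θ : UnitAddCircle => (F a N s θ - c) ^ 2) := by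
  have hmeas : Measurable (fun θ : UnitAddCircle => (F a N s θ - c) ^ 2) :=
    ((measurable_F a N s).sub_const c).pow_const 2
  have hcp : ∀ θ : UnitAddCircle, (cp a N (s / N) θ : ℝ) ≤ (N : ℝ) * N := by
    intro θ
    have : cp a N (s / N) θ ≤ N * N := by
      unfold cp
      refine (Finset.card_filter_le _ _).trans ?_
      simp
    exact_mod_cast this
  apply Integrable.of_bound hmeas.aestronglyMeasurable ((N + |c|) ^ 2)
  refine Eventually.of_forall (fun θ => ?_)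
  rw [Real.norm_eq_abs, abs_pow]
  apply pow_le_pow_left₀ (abs_nonneg _)
  have h1 : |F a N s θ| ≤ N := by
    rw [abs_of_nonneg (by unfold F; positivity)]
    unfold F
    rcases Nat.eq_zero_or_pos N with h | h
    · subst h; simp
    · have : (0 : ℝ) < N := by exact_mod_cast h
      rw [div_le_iff₀ this]
      exact hcp θ
  calc |F a N s θ - c| ≤ |F a N s θ| + |c| := abs_sub _ _
    _ ≤ N + |c| := by linarith

/-- The mean of the normalised pair count. -/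
noncomputable def mean (N : ℕ) (s : ℝ) : ℝ := 2 * (s / N) * (O N).card / N

lemma mean_tendsto (s : ℝ) : Tendsto (fun N => mean N s) atTop (𝓝 (2 * s)) := by
  have h1 : ∀ᶠ N : ℕ in atTop, 2 * s * (1 - 1 / (N : ℝ)) = mean N s := by
    filter_upwards [eventually_ge_atTop 1] with N hN
    have hN0 : (0 : ℝ) < N := by exact_mod_cast hN
    unfold mean
    rw [card_O, Nat.cast_sub (Nat.le_mul_of_pos_left _ hN)]
    push_cast
    field_simp
  have h2 : Tendsto (fun N : ℕ => 2 * s * (1 - 1 / (N : ℝ))) atTop (𝓝 (2 * s * (1 - 0))) :=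
    (tendsto_const_nhds.sub tendsto_one_div_atTop_nhds_zero_nat).const_mul _
  rw [sub_zero, mul_one] at h2
  exact h2.congr' h1

lemma F_variance {a : ℕ → ℕ} (ha : StrictMono a) {s : ℝ} (hs : 0 < s) {N : ℕ} (hN : 2 * s ≤ N) :
    ∫ θ : UnitAddCircle, (F a N s θ - mean N s) ^ 2 ≤ 2 * s * gcdSum a N / (N : ℝ) ^ 3 := by
  have hN0 : (0 : ℝ) < N := by linarith
  have hδ0 : 0 < s / N := by positivity
  have hδ : s / N ≤ 1 / 2 := by
    rw [div_le_div_iff₀ hN0 (by norm_num)]; linarith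
  have h1 := variance ha N hδ0 hδ
  have h2 : ∀ θ : UnitAddCircle, (F a N s θ - mean N s) ^ 2 =
      ((cp a N (s / N) θ : ℝ) - 2 * (s / N) * (O N).card) ^ 2 * (1 / (N : ℝ) ^ 2) := by
    intro θ
    unfold F mean
    field_simp
  simp only [h2]
  rw [integral_mul_const]
  calc (∫ θ : UnitAddCircle, ((cp a N (s / N) θ : ℝ) - 2 * (s / N) * (O N).card) ^ 2) *
        (1 / (N : ℝ) ^ 2) ≤ (2 * (s / N) * gcdSum a N) * (1 / (N : ℝ) ^ 2) :=
        mul_le_mul_of_nonneg_right h1 (by positivity)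
    _ = 2 * s * gcdSum a N / (N : ℝ) ^ 3 := by field_simp

/-! ### Almost everywhere convergence along a sequence with summable variances -/

lemma ae_tendsto_of_summable {f : ℕ → UnitAddCircle → ℝ} (hf0 : ∀ j θ, 0 ≤ f j θ)
    (hfi : ∀ j, Integrable (f j)) (hfm : ∀ j, Measurable (f j)) {u : ℕ → ℝ} (hu : Summable u)
    (hle : ∀ᶠ j in atTop, ∫ θ, f j θ ≤ u j) :
    ∀ᵐ θ : UnitAddCircle, Tendsto (fun j => f j θ) atTop (𝓝 0) := by
  obtain ⟨j₀, hj₀⟩ := eventually_atTop.1 hle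
  have h1 : ∀ j, ∫⁻ θ, ENNReal.ofReal (f (j + j₀) θ) ≤ ENNReal.ofReal (u (j + j₀)) := by
    intro j
    rw [← ofReal_integral_eq_lintegral_ofReal (hfi _) (Eventually.of_forall (hf0 _))]
    exact ENNReal.ofReal_le_ofReal (hj₀ _ (Nat.le_add_left _ _))
  have hu0 : ∀ j, 0 ≤ u (j + j₀) := fun j =>
    (integral_nonneg (hf0 _)).trans (hj₀ _ (Nat.le_add_left _ _))
  have h2 : ∫⁻ θ, ∑' j, ENNReal.ofReal (f (j + j₀) θ) ≠ ⊤ := by
    rw [lintegral_tsum (fun j => ((hfm _).ennreal_ofReal).aemeasurable)]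
    refine ne_top_of_le_ne_top ?_ (ENNReal.tsum_le_tsum h1)
    rw [← ENNReal.ofReal_tsum_of_nonneg hu0 ((summable_nat_add_iff j₀).2 hu)]
    exact ENNReal.ofReal_ne_top
  have h3 := ae_lt_top (Measurable.tsum (fun j => (hfm (j + j₀)).ennreal_ofReal)) h2
  filter_upwards [h3] with θ hθ
  have h4 := ENNReal.tendsto_atTop_zero_of_tsum_ne_top hθ.ne
  have h5 : Tendsto (fun j => f (j + j₀) θ) atTop (𝓝 0) := by
    have h6 := (ENNReal.tendsto_toReal ENNReal.zero_ne_top).comp h4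
    simp only [ENNReal.toReal_zero] at h6
    refine h6.congr (fun j => ?_)
    simp [ENNReal.toReal_ofReal (hf0 _ _)]
  exact (tendsto_add_atTop_iff_nat j₀).1 h5

/-- The subsequence. -/
noncomputable def Nj (ρ : ℝ) (j : ℕ) : ℕ := ⌊ρ ^ j⌋₊

lemma Nj_ge {ρ : ℝ} (hρ : 1 < ρ) (j : ℕ) : ρ ^ j / 2 ≤ Nj ρ j := by
  unfold Nj
  have h1 : 1 ≤ ρ ^ j := one_le_pow₀ hρ.le
  have h2 := Nat.lt_floor_add_one (ρ ^ j)
  have h3 : (1 : ℝ) ≤ ⌊ρ ^ j⌋₊ := by
    have : 1 ≤ ⌊ρ ^ j⌋₊ := Nat.le_floor (by simpa using h1)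
    exact_mod_cast this
  linarith

lemma Nj_tendsto {ρ : ℝ} (hρ : 1 < ρ) : Tendsto (Nj ρ) atTop atTop :=
  tendsto_nat_floor_atTop.comp (tendsto_pow_atTop_atTop_of_one_lt hρ)

lemma Nj_mono {ρ : ℝ} (hρ : 1 < ρ) : Monotone (Nj ρ) := by
  intro i j hij
  exact Nat.floor_mono (pow_le_pow_right₀ hρ.le hij)

lemma Nj_ratio {ρ : ℝ} (hρ : 1 < ρ) : ∀ᶠ j in atTop, (Nj ρ (j + 1) : ℝ) ≤ ρ ^ 2 * Nj ρ j := by
  have h := tendsto_pow_atTop_atTop_of_one_lt hρ
  filter_upwards [tendsto_atTop.1 h (ρ / (ρ - 1))] with j hj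
  have h0 : 0 < ρ - 1 := by linarith
  have hρ0 : 0 < ρ := by linarith
  rw [div_le_iff₀ h0] at hj
  have h1 : (Nj ρ (j + 1) : ℝ) ≤ ρ ^ (j + 1) := Nat.floor_le (by positivity)
  have h2 : ρ ^ j < Nj ρ j + 1 := Nat.lt_floor_add_one _
  have h3 : ρ ^ (j + 1) ≤ ρ ^ 2 * (ρ ^ j - 1) := by
    have : ρ ^ (j + 1) = ρ * ρ ^ j := by ring
    rw [this]
    nlinarith
  have h4 : ρ ^ 2 * (ρ ^ j - 1) ≤ ρ ^ 2 * Nj ρ j := by
    apply mul_le_mul_of_nonneg_left _ (by positivity)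
    linarith
  linarith

lemma log_Nj {ρ : ℝ} (hρ : 1 < ρ) : ∀ᶠ j : ℕ in atTop,
    Real.log ρ / 2 * j ≤ Real.log (Nj ρ j) := by
  have hlρ : 0 < Real.log ρ := Real.log_pos hρ
  have h : Tendsto (fun j : ℕ => Real.log ρ * (j : ℝ)) atTop atTop :=
    tendsto_natCast_atTop_atTop.const_mul_atTop hlρ
  filter_upwards [tendsto_atTop.1 h (2 * Real.log 2)] with j hj
  have h1 := Nj_ge hρ j
  have hρ0 : 0 < ρ := by linarith
  have h2 : Real.log (ρ ^ j / 2) ≤ Real.log (Nj ρ j) := Real.log_le_log (by positivity) h1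
  rw [Real.log_div (by positivity) (by norm_num), Real.log_pow] at h2
  linarith

theorem subsequence {a : ℕ → ℕ} (ha : StrictMono a) {β c : ℝ} (hβ : 1 < β) (hc : 0 < c)
    (hG : ∀ᶠ N : ℕ in atTop, gcdSum a N ≤ c * ((N : ℝ) ^ 3 * (Real.log N) ^ (-β)))
    {ρ s : ℝ} (hρ : 1 < ρ) (hs : 0 < s) :
    ∀ᵐ θ : UnitAddCircle, Tendsto (fun j => F a (Nj ρ j) s θ) atTop (𝓝 (2 * s)) := by
  have hlρ : 0 < Real.log ρ := Real.log_pos hρ
  have hsum : Summable (fun j : ℕ => 2 * s * c * ((Real.log ρ / 2) ^ (-β) * (j : ℝ) ^ (-β))) := by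
    apply Summable.mul_left
    apply Summable.mul_left
    exact Real.summable_nat_rpow.2 (by linarith)
  have hle : ∀ᶠ j in atTop, ∫ θ : UnitAddCircle, (F a (Nj ρ j) s θ - mean (Nj ρ j) s) ^ 2 ≤
      2 * s * c * ((Real.log ρ / 2) ^ (-β) * (j : ℝ) ^ (-β)) := by
    have hN2 : ∀ᶠ N : ℕ in atTop, 2 * s ≤ (N : ℝ) :=
      tendsto_atTop.1 tendsto_natCast_atTop_atTop (2 * s)
    filter_upwards [(Nj_tendsto hρ).eventually hG, (Nj_tendsto hρ).eventually hN2, log_Nj hρ,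
      eventually_ge_atTop 1] with j h1 h2 h3 h4
    have hj0 : (0 : ℝ) < j := by exact_mod_cast h4
    have hN0 : (0 : ℝ) < Nj ρ j := by linarith
    have hlog0 : 0 < Real.log ρ / 2 * j := by positivity
    have hpow : (Real.log (Nj ρ j)) ^ (-β) ≤ (Real.log ρ / 2) ^ (-β) * (j : ℝ) ^ (-β) := by
      rw [← Real.mul_rpow (by positivity) hj0.le]
      exact Real.rpow_le_rpow_of_nonpos hlog0 h3 (by linarith)
    calc ∫ θ : UnitAddCircle, (F a (Nj ρ j) s θ - mean (Nj ρ j) s) ^ 2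
        ≤ 2 * s * gcdSum a (Nj ρ j) / (Nj ρ j : ℝ) ^ 3 := F_variance ha hs h2
      _ ≤ 2 * s * (c * ((Nj ρ j : ℝ) ^ 3 * (Real.log (Nj ρ j)) ^ (-β))) / (Nj ρ j : ℝ) ^ 3 := by
          apply div_le_div_of_nonneg_right _ (by positivity)
          exact mul_le_mul_of_nonneg_left h1 (by positivity)
      _ = 2 * s * c * (Real.log (Nj ρ j)) ^ (-β) := by
          field_simp
      _ ≤ _ := mul_le_mul_of_nonneg_left hpow (by positivity)
  have h1 := ae_tendsto_of_summable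
    (f := fun j θ => (F a (Nj ρ j) s θ - mean (Nj ρ j) s) ^ 2) (fun j θ => sq_nonneg _)
    (fun j => F_sq_integrable a _ s _)
    (fun j => ((measurable_F a _ s).sub_const _).pow_const 2) hsum hle
  filter_upwards [h1] with θ hθ
  have h2 : Tendsto (fun j => F a (Nj ρ j) s θ - mean (Nj ρ j) s) atTop (𝓝 0) := by
    have h3 := (Real.continuous_sqrt.tendsto 0).comp hθ
    rw [Real.sqrt_zero] at h3
    rw [tendsto_zero_iff_abs_tendsto_zero]
    refine h3.congr (fun j => ?_)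
    simp only [Function.comp_apply]
    exact Real.sqrt_sq_eq_abs _
  have h3 : Tendsto (fun j => mean (Nj ρ j) s) atTop (𝓝 (2 * s)) :=
    (mean_tendsto s).comp (Nj_tendsto hρ)
  have h4 := h2.add h3
  simpa using h4

/-! ### From the subsequences to the whole sequence -/

lemma cp_mono_N (a : ℕ → ℕ) {N N' : ℕ} (h : N ≤ N') (δ : ℝ) (θ : UnitAddCircle) :
    cp a N δ θ ≤ cp a N' δ θ := by
  unfold cp
  apply Finset.card_le_card
  intro p hp
  rw [Finset.mem_filter, Finset.mem_product, Finset.mem_range, Finset.mem_range] at hp ⊢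
  exact ⟨⟨lt_of_lt_of_le hp.1.1 h, lt_of_lt_of_le hp.1.2 h⟩, hp.2⟩

lemma exists_block {ρ : ℝ} (hρ : 1 < ρ) (j₀ N : ℕ) (hN : Nj ρ j₀ ≤ N) :
    ∃ j, j₀ ≤ j ∧ Nj ρ j ≤ N ∧ N < Nj ρ (j + 1) := by
  classical
  have hex : ∃ j, N < Nj ρ (j + 1) := by
    obtain ⟨j, hj⟩ := (tendsto_atTop.1 (Nj_tendsto hρ) (N + 1)).exists
    exact ⟨j, lt_of_lt_of_le (Nat.lt_succ_self N) (hj.trans (Nj_mono hρ (Nat.le_succ j)))⟩
  refine ⟨Nat.find hex, ?_, ?_, Nat.find_spec hex⟩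
  · by_contra h
    have h1 : Nat.find hex + 1 ≤ j₀ := by omega
    have h2 := Nj_mono hρ h1
    have h3 := Nat.find_spec hex
    omega
  · rcases Nat.eq_zero_or_pos (Nat.find hex) with h | h
    · rw [h]
      exact (Nj_mono hρ (Nat.zero_le j₀)).trans hN
    · have := Nat.find_min hex (Nat.sub_lt h Nat.one_pos)
      rw [Nat.sub_add_cancel h] at this
      exact not_lt.1 this

lemma sandwich {a : ℕ → ℕ} {ρ s : ℝ} (hρ : 1 < ρ) (hs : 0 < s) (θ : UnitAddCircle) {j N : ℕ}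
    (h0 : 0 < Nj ρ j) (h1 : Nj ρ j ≤ N) (h2 : N < Nj ρ (j + 1))
    (h3 : (Nj ρ (j + 1) : ℝ) ≤ ρ ^ 2 * Nj ρ j) :
    F a N s θ ≤ ρ ^ 2 * F a (Nj ρ (j + 1)) (s * ρ ^ 2) θ ∧
      F a (Nj ρ j) (s / ρ ^ 2) θ ≤ ρ ^ 2 * F a N s θ := by
  have hρ0 : 0 < ρ := by linarith
  set M := Nj ρ j with hM
  set M' := Nj ρ (j + 1) with hM'
  have hMr : (0 : ℝ) < M := by exact_mod_cast h0
  have hMN : (M : ℝ) ≤ N := by exact_mod_cast h1
  have hNM' : (N : ℝ) ≤ M' := by exact_mod_cast h2.le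
  have hNr : (0 : ℝ) < N := by linarith
  have hM'r : (0 : ℝ) < M' := by linarith
  constructor
  · have e1 : cp a N (s / N) θ ≤ cp a M' ((s * ρ ^ 2) / M') θ := by
      refine (cp_mono_N a h2.le _ θ).trans (cp_mono a M' ?_ θ)
      rw [div_le_div_iff₀ hNr hM'r]
      have : s * (M' : ℝ) ≤ s * (ρ ^ 2 * M) := mul_le_mul_of_nonneg_left h3 hs.le
      have h5 : s * (ρ ^ 2 * M) ≤ s * (ρ ^ 2 * N) := by gcongr
      linarith
    have e2 : (cp a N (s / N) θ : ℝ) ≤ cp a M' ((s * ρ ^ 2) / M') θ := by exact_mod_cast e1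
    unfold F
    rw [← mul_div_assoc, div_le_div_iff₀ hNr hM'r]
    calc (cp a N (s / N) θ : ℝ) * M' ≤ cp a M' ((s * ρ ^ 2) / M') θ * (ρ ^ 2 * N) := by
          apply mul_le_mul e2 _ hM'r.le (Nat.cast_nonneg _)
          calc (M' : ℝ) ≤ ρ ^ 2 * M := h3
            _ ≤ ρ ^ 2 * N := by gcongr
      _ = _ := by ring
  · have e1 : cp a M ((s / ρ ^ 2) / M) θ ≤ cp a N (s / N) θ := by
      refine (cp_mono a M ?_ θ).trans (cp_mono_N a h1 _ θ)
      rw [div_div, div_le_div_iff₀ (by positivity) hNr]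
      apply mul_le_mul_of_nonneg_left _ hs.le
      linarith
    have e2 : (cp a M ((s / ρ ^ 2) / M) θ : ℝ) ≤ cp a N (s / N) θ := by exact_mod_cast e1
    unfold F
    rw [← mul_div_assoc, div_le_div_iff₀ hMr hNr]
    calc (cp a M ((s / ρ ^ 2) / M) θ : ℝ) * N ≤ cp a N (s / N) θ * (ρ ^ 2 * M) := by
          apply mul_le_mul e2 _ hNr.le (Nat.cast_nonneg _)
          linarith
      _ = _ := by ring

/-- The Bloom–Walker theorem, for every exponent larger than `17 / 2`. -/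
theorem bloom_walker {C : ℝ} (hC : 17 / 2 < C) : IsThreshold (fun N => (Real.log N) ^ C) := by
  intro a ha _ hE
  obtain ⟨β, c, hβ, hc, hG⟩ := gcdSum_bound ha hC hE
  rw [metric_iff]
  -- countably many parameters
  have hall : ∀ᵐ θ : UnitAddCircle, ∀ k : ℕ, ∀ q : ℚ, 0 < q →
      Tendsto (fun j => F a (Nj (1 + 1 / ((k : ℝ) + 1)) j) (q : ℝ) θ) atTop (𝓝 (2 * (q : ℝ))) := by
    rw [ae_all_iff]
    intro k
    rw [ae_all_iff]
    intro q
    by_cases hq : 0 < q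
    · have hq' : (0 : ℝ) < q := by exact_mod_cast hq
      have hk : (1 : ℝ) < 1 + 1 / ((k : ℝ) + 1) := by
        have : (0 : ℝ) < 1 / ((k : ℝ) + 1) := by positivity
        linarith
      filter_upwards [subsequence ha hβ hc hG hk hq'] with θ hθ
      intro _
      exact hθ
    · exact Eventually.of_forall (fun θ h => absurd h hq)
  filter_upwards [hall] with θ hθ
  apply PPCc_of_dense (Set.range ((↑) : ℚ → ℝ))
  · intro x y _ hxy
    obtain ⟨q, hq1, hq2⟩ := exists_rat_btwn hxy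
    exact ⟨q, ⟨q, rfl⟩, hq1, hq2⟩
  rintro _ ⟨q, rfl⟩ hq
  set s : ℝ := (q : ℝ) with hs
  have hq' : 0 < q := by
    have h : (0 : ℝ) < (q : ℝ) := hq
    exact_mod_cast h
  -- ratios tending to one
  let ρ : ℕ → ℝ := fun k => 1 + 1 / ((k : ℝ) + 1)
  have hρ1 : ∀ k, 1 < ρ k := by
    intro k
    have : (0 : ℝ) < 1 / ((k : ℝ) + 1) := by positivity
    simp only [ρ]
    linarith
  have hρlim : Tendsto ρ atTop (𝓝 1) := by
    have := (tendsto_one_div_add_atTop_nhds_zero_nat (𝕜 := ℝ)).const_add 1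
    simpa [ρ] using this
  have hup : Tendsto (fun k => 2 * s * (ρ k) ^ 4) atTop (𝓝 (2 * s)) := by
    have := (hρlim.pow 4).const_mul (2 * s)
    simpa using this
  have hdn : Tendsto (fun k => 2 * s / (ρ k) ^ 4) atTop (𝓝 (2 * s)) := by
    have h : Tendsto (fun k => 2 * s / (ρ k) ^ 4) atTop (𝓝 (2 * s / 1 ^ 4)) :=
      tendsto_const_nhds.div (hρlim.pow 4) (by norm_num)
    simpa using h
  rw [tendsto_order]
  constructor
  · intro b hb
    obtain ⟨k, hk⟩ := ((tendsto_order.1 hdn).1 b hb).exists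
    have hρk := hρ1 k
    have hρ0 : 0 < ρ k := by linarith
    have hlim : Tendsto (fun j => F a (Nj (ρ k) j) (s / (ρ k) ^ 2) θ) atTop
        (𝓝 (2 * (s / (ρ k) ^ 2))) := by
      have h1 := hθ k (q / (1 + 1 / ((k : ℚ) + 1)) ^ 2) (by positivity)
      have h2 : ((q / (1 + 1 / ((k : ℚ) + 1)) ^ 2 : ℚ) : ℝ) = s / (ρ k) ^ 2 := by
        push_cast; rfl
      rw [h2] at h1
      exact h1
    have hlt : (ρ k) ^ 2 * b < 2 * (s / (ρ k) ^ 2) := by
      rw [lt_div_iff₀ (by positivity)] at hk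
      rw [mul_div_assoc', lt_div_iff₀ (by positivity)]
      calc (ρ k) ^ 2 * b * (ρ k) ^ 2 = b * (ρ k) ^ 4 := by ring
        _ < 2 * s := hk
    have hev := ((tendsto_order.1 hlim).1 _ hlt).and ((Nj_ratio hρk).and
      (tendsto_atTop.1 (Nj_tendsto hρk) 1))
    obtain ⟨j₀, hj₀⟩ := eventually_atTop.1 hev
    filter_upwards [eventually_ge_atTop (Nj (ρ k) j₀)] with N hN
    obtain ⟨j, hj1, hj2, hj3⟩ := exists_block hρk j₀ N hN
    obtain ⟨g1, g2, g3⟩ := hj₀ j hj1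
    have hsw := (sandwich (a := a) hρk hq θ g3 hj2 hj3 g2).2
    have h5 : (ρ k) ^ 2 * b < (ρ k) ^ 2 * F a N s θ := lt_of_lt_of_le g1 hsw
    exact lt_of_mul_lt_mul_left h5 (by positivity)
  · intro b hb
    obtain ⟨k, hk⟩ := ((tendsto_order.1 hup).2 b hb).exists
    have hρk := hρ1 k
    have hρ0 : 0 < ρ k := by linarith
    have hlim : Tendsto (fun j => F a (Nj (ρ k) j) (s * (ρ k) ^ 2) θ) atTop
        (𝓝 (2 * (s * (ρ k) ^ 2))) := by
      have h1 := hθ k (q * (1 + 1 / ((k : ℚ) + 1)) ^ 2) (by positivity)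
      have h2 : ((q * (1 + 1 / ((k : ℚ) + 1)) ^ 2 : ℚ) : ℝ) = s * (ρ k) ^ 2 := by
        push_cast; rfl
      rw [h2] at h1
      exact h1
    have hlt : 2 * (s * (ρ k) ^ 2) < b / (ρ k) ^ 2 := by
      rw [lt_div_iff₀ (by positivity)]
      calc 2 * (s * (ρ k) ^ 2) * (ρ k) ^ 2 = 2 * s * (ρ k) ^ 4 := by ring
        _ < b := hk
    have hlim' := (tendsto_add_atTop_iff_nat 1).2 hlim
    have hev := ((tendsto_order.1 hlim').2 _ hlt).and ((Nj_ratio hρk).and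
      (tendsto_atTop.1 (Nj_tendsto hρk) 1))
    obtain ⟨j₀, hj₀⟩ := eventually_atTop.1 hev
    filter_upwards [eventually_ge_atTop (Nj (ρ k) j₀)] with N hN
    obtain ⟨j, hj1, hj2, hj3⟩ := exists_block hρk j₀ N hN
    obtain ⟨g1, g2, g3⟩ := hj₀ j hj1
    have hsw := (sandwich (a := a) hρk hq θ g3 hj2 hj3 g2).1
    have h5 : (ρ k) ^ 2 * F a (Nj (ρ k) (j + 1)) (s * (ρ k) ^ 2) θ < b := by
      rw [lt_div_iff₀ (by positivity)] at g1
      linarith
    exact lt_of_le_of_lt hsw h5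

end Pool.Agent.H88.PCBW
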